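import Mathlib

/-!
# MP_cb27ba_nt, project TU (theorem U, unions): exact statements of the modules, part 1

Operator norms of `χ (a - b)` on sets covered by many pieces of different structure.
Paper proof: idea row of helper11, MP_cb27ba_nt, THEOREM U.
-/

set_option autoImplicit false

namespace MPcb27.TU

open Finset
open scoped Pointwise

/-- the norm of the matrix `χ (a - b)`, `a ∈ X`, `b ∈ Y`, is at most `M` -/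
def NB {p : ℕ} (χ : MulChar (ZMod p) ℂ) (X Y : Finset (ZMod p)) (M : ℝ) : Prop :=
  ∀ α β : ZMod p → ℂ, ‖∑ a ∈ X, ∑ b ∈ Y, α a * β b * χ (a - b)‖ ≤
    M * (Real.sqrt (∑ a ∈ X, ‖α a‖ ^ 2) * Real.sqrt (∑ b ∈ Y, ‖β b‖ ^ 2))

/-- the progression `x, x + g, ..., x + (n-1) g` -/
def ap {p : ℕ} (x g : ZMod p) (n : ℕ) : Finset (ZMod p) :=
  (range n).image fun k : ℕ => x + (k : ZMod p) * g

/-- UNI: norms of blocks. Proof: choose for every `a ∈ A` one `i` with `a ∈ X i`; the sum over the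
blocks is at most `ν (∑_i (w i)^(1/2) |α_i|) (∑_j (v j)^(1/2) |β_j|)`; Cauchy-Schwarz. -/
def SpecUNI : Prop :=
  ∀ (p : ℕ) (χ : MulChar (ZMod p) ℂ) (ι κ : Type) (I : Finset ι) (J : Finset κ)
    (X : ι → Finset (ZMod p)) (Y : κ → Finset (ZMod p)) (w : ι → ℝ) (v : κ → ℝ) (ν : ℝ),
    0 ≤ ν → (∀ i ∈ I, 0 ≤ w i) → (∀ j ∈ J, 0 ≤ v j) →
    (∀ i ∈ I, ∀ j ∈ J, NB χ (X i) (Y j) (ν * Real.sqrt (w i * v j))) →
    ∀ A B : Finset (ZMod p), (∀ a ∈ A, ∃ i ∈ I, a ∈ X i) → (∀ b ∈ B, ∃ j ∈ J, b ∈ Y j) →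
      NB χ A B (ν * Real.sqrt ((∑ i ∈ I, w i) * ∑ j ∈ J, v j))

/-- ECS: `E(D, D')² ≤ E(D, D) E(D', D')` (`E(D, D') = ∑_m r_D(m) r_D'(m)`, `r_D(m)` the number of
representations `m = d - d'`; Cauchy-Schwarz). -/
def SpecECS : Prop :=
  ∀ (p : ℕ) (D D' : Finset (ZMod p)),
    D.addEnergy D' ^ 2 ≤ D.addEnergy D * D'.addEnergy D'

/-- LINE: the small solutions of `k g = l h` are multiples of one of them. Proof: take one with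
minimal `k0 ≥ 1`; `k l0 - k0 l` is divisible by `p` and smaller than `p`, hence `0`; division with
remainder of `k` by `k0`. -/
def SpecLINE : Prop :=
  ∀ (p : ℕ) [Fact p.Prime] (g h : ZMod p) (N : ℕ), g ≠ 0 → h ≠ 0 → 2 * N ^ 2 < p →
    (∀ k l : ℤ, |k| ≤ N → |l| ≤ N → (k : ZMod p) * g = l * h → k = 0 ∧ l = 0) ∨
    ∃ k0 l0 : ℤ, 1 ≤ k0 ∧ k0 ≤ N ∧ l0 ≠ 0 ∧ |l0| ≤ N ∧ (k0 : ZMod p) * g = l0 * h ∧
      ∀ k l : ℤ, |k| ≤ N → |l| ≤ N → (k : ZMod p) * g = l * h → ∃ q : ℤ, k = q * k0 ∧ l = q * l0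

/-- EAP: energy of two progressions, in terms of the number of small solutions of `k g = l h`. -/
def SpecEAP : Prop :=
  ∀ (p : ℕ) [Fact p.Prime] (g h x y : ZMod p) (N : ℕ), g ≠ 0 → h ≠ 0 → 2 * N ^ 2 < p →
    ((∀ k l : ℤ, |k| ≤ N → |l| ≤ N → (k : ZMod p) * g = l * h → k = 0 ∧ l = 0) →
      (ap x g N).addEnergy (ap y h N) ≤ N ^ 2) ∧
    (∀ k0 l0 : ℤ, 1 ≤ k0 → l0 ≠ 0 →
      (∀ k l : ℤ, |k| ≤ N → |l| ≤ N → (k : ZMod p) * g = l * h →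
        ∃ q : ℤ, k = q * k0 ∧ l = q * l0) →
      ((ap x g N).addEnergy (ap y h N) : ℝ) ≤
        (N : ℝ) ^ 2 * (1 + 2 * N / (max k0 |l0| : ℤ)))

/-- PAIRAP: one pair of progressions of about `p^(1/4+δ)` terms. From LINE, EAP (both with `2 N` in
place of `N`), `TG.FinalG` and `TS.FinalS`. -/
def SpecPAIRAP : Prop :=
  ∀ δ : ℝ, 0 < δ → δ ≤ 1 / 16 → ∃ τ : ℝ, 0 < τ ∧ ∃ P : ℕ, ∀ (p : ℕ) [Fact p.Prime], P ≤ p →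
    ∀ (g h x y : ZMod p) (N : ℕ), g ≠ 0 → h ≠ 0 → (p : ℝ) ^ (1 / 4 + δ) ≤ N →
      (N : ℝ) ≤ 2 * (p : ℝ) ^ (1 / 4 + δ) → ∀ χ : MulChar (ZMod p) ℂ, χ ≠ 1 →
        NB χ (ap x g N) (ap y h N) ((p : ℝ) ^ (-τ) * N)

/-- FINSU: unions of sumsets, from `TS.FinalS`, UNI, ECS. -/
def FinalSU : Prop :=
  ∀ δ : ℝ, 0 < δ → ∃ τ : ℝ, 0 < τ ∧ ∃ P : ℕ, ∀ (p : ℕ) [Fact p.Prime], P ≤ p →
    ∀ F F' : Finset (Finset (ZMod p) × Finset (ZMod p)),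
      (∀ q ∈ F ∪ F', (p : ℝ) ^ δ ≤ #q.2 ∧
        ((q.1.addEnergy q.1 : ℕ) : ℝ) ≤ (p : ℝ) ^ (-(1 / 2) - δ) * (#q.1 : ℝ) ^ 4) →
      ∀ A B : Finset (ZMod p), A ⊆ F.biUnion (fun q => q.1 + q.2) →
        B ⊆ F'.biUnion (fun q => q.1 + q.2) → ∀ χ : MulChar (ZMod p) ℂ, χ ≠ 1 →
          NB χ A B ((p : ℝ) ^ (-τ) *
            Real.sqrt ((∑ q ∈ F, (#q.1 : ℝ) * #q.2) * ∑ q ∈ F', (#q.1 : ℝ) * #q.2))

/-- FINUAP: unions of long progressions, from PAIRAP, UNI (long progressions are first covered by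
at most `2 |P| / N` progressions of exactly `N = ⌈p^(1/4+δ')⌉` terms, `δ' = min δ (1/16)`). -/
def FinalUAP : Prop :=
  ∀ δ : ℝ, 0 < δ → ∃ τ : ℝ, 0 < τ ∧ ∃ P : ℕ, ∀ (p : ℕ) [Fact p.Prime], P ≤ p →
    ∀ F F' : Finset (Finset (ZMod p)),
      (∀ X ∈ F ∪ F', (p : ℝ) ^ (1 / 4 + δ) < #X ∧
        ∃ (x g : ZMod p) (n : ℕ), X = (range n).image fun k : ℕ => x + (k : ZMod p) * g) →
      ∀ A B : Finset (ZMod p), A ⊆ F.biUnion id → B ⊆ F'.biUnion id →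
        ∀ χ : MulChar (ZMod p) ℂ, χ ≠ 1 →
          NB χ A B ((p : ℝ) ^ (-τ) * Real.sqrt ((∑ X ∈ F, (#X : ℝ)) * ∑ X ∈ F', (#X : ℝ)))

/-- PAIRK: one pair of sets of bounded doubling. -/
def SpecPAIRK : Prop :=
  ∀ K δ : ℝ, 0 < δ → ∃ τ : ℝ, 0 < τ ∧ ∃ P : ℕ, ∀ (p : ℕ) [Fact p.Prime], P ≤ p →
    ∀ X Y : Finset (ZMod p), (p : ℝ) ^ (1 / 4 + δ) < #X → (#(X + X) : ℝ) ≤ K * #X →
      (p : ℝ) ^ (1 / 4 + δ) < #Y → (#(Y + Y) : ℝ) ≤ K * #Y →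
      ∀ χ : MulChar (ZMod p) ℂ, χ ≠ 1 →
        NB χ X Y ((p : ℝ) ^ (-τ) * Real.sqrt ((#X : ℝ) * #Y))

/-- FINUK: unions of sets of bounded doubling, from PAIRK, UNI. -/
def FinalUK : Prop :=
  ∀ K δ : ℝ, 0 < δ → ∃ τ : ℝ, 0 < τ ∧ ∃ P : ℕ, ∀ (p : ℕ) [Fact p.Prime], P ≤ p →
    ∀ F F' : Finset (Finset (ZMod p)),
      (∀ X ∈ F ∪ F', (p : ℝ) ^ (1 / 4 + δ) < #X ∧ (#(X + X) : ℝ) ≤ K * #X) →
      ∀ A B : Finset (ZMod p), A ⊆ F.biUnion id → B ⊆ F'.biUnion id →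
        ∀ χ : MulChar (ZMod p) ℂ, χ ≠ 1 →
          NB χ A B ((p : ℝ) ^ (-τ) * Real.sqrt ((∑ X ∈ F, (#X : ℝ)) * ∑ X ∈ F', (#X : ℝ)))

end MPcb27.TU
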