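import Mathlib
import Pool.Agent.Lib.MP_cb27ba_nt.TU.Spec

section
/-!
# UNI: the norm of a union of blocks

If every block `X i × Y j` has norm at most `ν (w i v j)^(1/2)`, the union has norm at most
`ν (∑ w i)^(1/2) (∑ v j)^(1/2)`.
-/
set_option autoImplicit false

namespace MPcb27.TU

open Finset

/-- the `ℓ²` mass of one piece -/
theorem piece_sum {p : ℕ} {ι : Type} (I : Finset ι) (A : Finset (ZMod p)) (f : ZMod p → ι)
    (hf : ∀ a ∈ A, f a ∈ I) (w : ι → ℝ) (hw : ∀ i ∈ I, 0 ≤ w i) (α : ZMod p → ℂ) [DecidableEq ι] :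
    ∑ i ∈ I, Real.sqrt (w i) * Real.sqrt (∑ a ∈ A with f a = i, ‖α a‖ ^ 2) ≤
      Real.sqrt (∑ i ∈ I, w i) * Real.sqrt (∑ a ∈ A, ‖α a‖ ^ 2) := by
  have h := Real.sum_mul_le_sqrt_mul_sqrt I (fun i => Real.sqrt (w i))
    (fun i => Real.sqrt (∑ a ∈ A with f a = i, ‖α a‖ ^ 2))
  refine h.trans (le_of_eq ?_)
  congr 2
  · exact Finset.sum_congr rfl fun i hi => Real.sq_sqrt (hw i hi)
  · rw [← Finset.sum_fiberwise_of_maps_to (t := I) (g := f) hf (fun a => ‖α a‖ ^ 2)]
    exact Finset.sum_congr rfl fun i _ =>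
      Real.sq_sqrt (Finset.sum_nonneg fun a _ => by positivity)

theorem specUNI : SpecUNI := by
  classical
  intro p χ ι κ I J X Y w v ν hν hw hv hN A B hA hB α β
  -- one block for every element
  by_cases hAe : A = ∅
  · subst hAe
    simp
  by_cases hBe : B = ∅
  · subst hBe
    simp
  obtain ⟨a0, ha0⟩ := Finset.nonempty_iff_ne_empty.mpr hAe
  obtain ⟨b0, hb0⟩ := Finset.nonempty_iff_ne_empty.mpr hBe
  obtain ⟨i0, hi0, -⟩ := hA a0 ha0
  obtain ⟨j0, hj0, -⟩ := hB b0 hb0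
  have hA' : ∀ a, ∃ i, a ∈ A → i ∈ I ∧ a ∈ X i := fun a => by
    by_cases ha : a ∈ A
    · obtain ⟨i, hi, hx⟩ := hA a ha
      exact ⟨i, fun _ => ⟨hi, hx⟩⟩
    · exact ⟨i0, fun h => absurd h ha⟩
  have hB' : ∀ b, ∃ j, b ∈ B → j ∈ J ∧ b ∈ Y j := fun b => by
    by_cases hb : b ∈ B
    · obtain ⟨j, hj, hx⟩ := hB b hb
      exact ⟨j, fun _ => ⟨hj, hx⟩⟩
    · exact ⟨j0, fun h => absurd h hb⟩
  choose f hf using hA'
  choose g hg using hB'
  -- the block sums
  have hblock : ∀ i ∈ I, ∀ j ∈ J,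
      ‖∑ a ∈ A with f a = i, ∑ b ∈ B with g b = j, α a * β b * χ (a - b)‖ ≤
        ν * (Real.sqrt (w i) * Real.sqrt (∑ a ∈ A with f a = i, ‖α a‖ ^ 2)) *
          (Real.sqrt (v j) * Real.sqrt (∑ b ∈ B with g b = j, ‖β b‖ ^ 2)) := by
    intro i hi j hj
    have hsubX : (A.filter fun a => f a = i) ⊆ X i := by
      intro a ha
      rw [Finset.mem_filter] at ha
      have := (hf a ha.1).2
      rwa [ha.2] at this
    have hsubY : (B.filter fun b => g b = j) ⊆ Y j := by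
      intro b hb
      rw [Finset.mem_filter] at hb
      have := (hg b hb.1).2
      rwa [hb.2] at this
    have h := hN i hi j hj (fun a => if a ∈ A.filter (fun a => f a = i) then α a else 0)
      (fun b => if b ∈ B.filter (fun b => g b = j) then β b else 0)
    have e1 : (∑ a ∈ X i, ∑ b ∈ Y j, (if a ∈ A.filter (fun a => f a = i) then α a else 0) *
        (if b ∈ B.filter (fun b => g b = j) then β b else 0) * χ (a - b)) =
        ∑ a ∈ A with f a = i, ∑ b ∈ B with g b = j, α a * β b * χ (a - b) := by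
      rw [← Finset.sum_subset hsubX (f := fun a => ∑ b ∈ Y j,
        (if a ∈ A.filter (fun a => f a = i) then α a else 0) *
        (if b ∈ B.filter (fun b => g b = j) then β b else 0) * χ (a - b))]
      · refine Finset.sum_congr rfl fun a ha => ?_
        rw [← Finset.sum_subset hsubY (f := fun b =>
          (if a ∈ A.filter (fun a => f a = i) then α a else 0) *
          (if b ∈ B.filter (fun b => g b = j) then β b else 0) * χ (a - b))]
        · refine Finset.sum_congr rfl fun b hb => ?_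
          rw [if_pos ha, if_pos hb]
        · intro b _ hb
          rw [if_neg hb, mul_zero, zero_mul]
      · intro a _ ha
        refine Finset.sum_eq_zero fun b _ => ?_
        rw [if_neg ha, zero_mul, zero_mul]
    have e2 : (∑ a ∈ X i, ‖(if a ∈ A.filter (fun a => f a = i) then α a else 0)‖ ^ 2) =
        ∑ a ∈ A with f a = i, ‖α a‖ ^ 2 := by
      rw [← Finset.sum_subset hsubX (f := fun a =>
        ‖(if a ∈ A.filter (fun a => f a = i) then α a else 0)‖ ^ 2)]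
      · exact Finset.sum_congr rfl fun a ha => by rw [if_pos ha]
      · intro a _ ha
        rw [if_neg ha, norm_zero]
        simp
    have e3 : (∑ b ∈ Y j, ‖(if b ∈ B.filter (fun b => g b = j) then β b else 0)‖ ^ 2) =
        ∑ b ∈ B with g b = j, ‖β b‖ ^ 2 := by
      rw [← Finset.sum_subset hsubY (f := fun b =>
        ‖(if b ∈ B.filter (fun b => g b = j) then β b else 0)‖ ^ 2)]
      · exact Finset.sum_congr rfl fun b hb => by rw [if_pos hb]
      · intro b _ hb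
        rw [if_neg hb, norm_zero]
        simp
    rw [e1, e2, e3, Real.sqrt_mul (hw i hi)] at h
    refine h.trans (le_of_eq ?_)
    ring
  have hsplit : ∑ a ∈ A, ∑ b ∈ B, α a * β b * χ (a - b) =
      ∑ i ∈ I, ∑ j ∈ J, ∑ a ∈ A with f a = i, ∑ b ∈ B with g b = j, α a * β b * χ (a - b) := by
    rw [← Finset.sum_fiberwise_of_maps_to (t := I) (g := f) (fun a ha => (hf a ha).1)]
    refine Finset.sum_congr rfl fun i _ => ?_
    rw [Finset.sum_comm' (t' := A.filter fun a => f a = i) (s' := fun _ => J)]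
    · refine Finset.sum_congr rfl fun a _ => ?_
      rw [← Finset.sum_fiberwise_of_maps_to (t := J) (g := g) (fun b hb => (hg b hb).1)]
    · intro x y
      exact Iff.rfl
  rw [hsplit]
  have h1 := piece_sum I A f (fun a ha => (hf a ha).1) w hw α
  have h2 := piece_sum J B g (fun b hb => (hg b hb).1) v hv β
  calc ‖∑ i ∈ I, ∑ j ∈ J, ∑ a ∈ A with f a = i, ∑ b ∈ B with g b = j, α a * β b * χ (a - b)‖
      ≤ ∑ i ∈ I, ∑ j ∈ J, ν * (Real.sqrt (w i) * Real.sqrt (∑ a ∈ A with f a = i, ‖α a‖ ^ 2)) *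
          (Real.sqrt (v j) * Real.sqrt (∑ b ∈ B with g b = j, ‖β b‖ ^ 2)) := by
        refine (norm_sum_le _ _).trans (Finset.sum_le_sum fun i hi => ?_)
        exact (norm_sum_le _ _).trans (Finset.sum_le_sum fun j hj => hblock i hi j hj)
    _ = ν * (∑ i ∈ I, Real.sqrt (w i) * Real.sqrt (∑ a ∈ A with f a = i, ‖α a‖ ^ 2)) *
          (∑ j ∈ J, Real.sqrt (v j) * Real.sqrt (∑ b ∈ B with g b = j, ‖β b‖ ^ 2)) := by
        rw [mul_assoc, Finset.sum_mul_sum, Finset.mul_sum]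
        refine Finset.sum_congr rfl fun i _ => ?_
        rw [Finset.mul_sum]
        exact Finset.sum_congr rfl fun j _ => by ring
    _ ≤ ν * (Real.sqrt (∑ i ∈ I, w i) * Real.sqrt (∑ a ∈ A, ‖α a‖ ^ 2)) *
          (Real.sqrt (∑ j ∈ J, v j) * Real.sqrt (∑ b ∈ B, ‖β b‖ ^ 2)) := by
        refine mul_le_mul (mul_le_mul_of_nonneg_left h1 hν) h2 ?_ ?_
        · exact Finset.sum_nonneg fun j _ => by positivity
        · positivity
    _ = ν * Real.sqrt ((∑ i ∈ I, w i) * ∑ j ∈ J, v j) *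
          (Real.sqrt (∑ a ∈ A, ‖α a‖ ^ 2) * Real.sqrt (∑ b ∈ B, ‖β b‖ ^ 2)) := by
        rw [Real.sqrt_mul (Finset.sum_nonneg hw)]
        ring

end MPcb27.TU
end

section
/-!
# MP_cb27ba_nt, TU: FINUAP (unions of long progressions, from PAIRAP and UNI)
-/
set_option autoImplicit false

namespace MPcb27.TU

open Finset
open scoped Pointwise

theorem nb_mono {p : ℕ} {χ : MulChar (ZMod p) ℂ} {X Y : Finset (ZMod p)} {M M' : ℝ}
    (h : NB χ X Y M) (hM : M ≤ M') : NB χ X Y M' := by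
  intro α β
  refine (h α β).trans ?_
  exact mul_le_mul_of_nonneg_right hM (by positivity)

/-- a progression of at least `N` elements is covered by few progressions of exactly `N` terms -/
theorem ap_cover {p : ℕ} [Fact p.Prime] (x g : ZMod p) (n N : ℕ) (hN : 1 ≤ N)
    (hX : N ≤ #(ap x g n)) (h1 : 1 < #(ap x g n)) :
    g ≠ 0 ∧ ∃ m : ℕ, (m : ℝ) * N ≤ 2 * (#(ap x g n) : ℝ) ∧
      ∀ a ∈ ap x g n, ∃ j ∈ range m, a ∈ ap (x + ((j * N : ℕ) : ZMod p) * g) g N := by
  have hp : p.Prime := Fact.out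
  have hg : g ≠ 0 := by
    intro h0
    have : #(ap x g n) ≤ 1 := by
      rw [card_le_one]
      intro a ha b hb
      simp only [ap, mem_image, mem_range, h0, mul_zero, add_zero] at ha hb
      obtain ⟨_, _, rfl⟩ := ha
      obtain ⟨_, _, rfl⟩ := hb
      rfl
    omega
  refine ⟨hg, ?_⟩
  have hsub : ∀ a ∈ ap x g n, ∃ k < min n p, a = x + (k : ZMod p) * g := by
    intro a ha
    simp only [ap, mem_image, mem_range] at ha
    obtain ⟨k, hk, rfl⟩ := ha
    refine ⟨k % p, lt_min (lt_of_le_of_lt (Nat.mod_le _ _) hk) (Nat.mod_lt _ hp.pos), ?_⟩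
    rw [ZMod.natCast_mod]
  have hcard : min n p ≤ #(ap x g n) := by
    have hinj : Set.InjOn (fun k : ℕ => x + (k : ZMod p) * g) (range (min n p)) := by
      intro a ha b hb hab
      simp only [coe_range, Set.mem_Iio, lt_min_iff] at ha hb
      have h2 : (a : ZMod p) = b := mul_right_cancel₀ hg (add_left_cancel hab)
      rw [ZMod.natCast_eq_natCast_iff'] at h2
      rwa [Nat.mod_eq_of_lt ha.2, Nat.mod_eq_of_lt hb.2] at h2
    have h3 : #((range (min n p)).image fun k : ℕ => x + (k : ZMod p) * g) = min n p := by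
      rw [card_image_of_injOn hinj, card_range]
    rw [← h3]
    refine card_le_card (image_subset_image ?_)
    intro a ha
    simp only [mem_range, lt_min_iff] at ha ⊢
    exact ha.1
  refine ⟨min n p / N + 1, ?_, ?_⟩
  · have h4 : (min n p / N + 1) * N ≤ 2 * #(ap x g n) := by
      have := Nat.div_mul_le_self (min n p) N
      calc (min n p / N + 1) * N = min n p / N * N + N := by ring
        _ ≤ #(ap x g n) + #(ap x g n) := add_le_add (this.trans hcard) hX
        _ = 2 * #(ap x g n) := by ring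
    exact_mod_cast h4
  · intro a ha
    obtain ⟨k, hk, rfl⟩ := hsub a ha
    refine ⟨k / N, ?_, ?_⟩
    · rw [mem_range]
      exact Nat.lt_succ_of_le (Nat.div_le_div_right hk.le)
    · simp only [ap, mem_image, mem_range]
      refine ⟨k % N, Nat.mod_lt _ hN, ?_⟩
      have h5 : ((k / N * N : ℕ) : ZMod p) + ((k % N : ℕ) : ZMod p) = (k : ZMod p) := by
        rw [← Nat.cast_add, mul_comm, Nat.div_add_mod]
      rw [← h5]
      ring

theorem finUAP (hP : SpecPAIRAP) (hU : SpecUNI) : FinalUAP := by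
  intro δ hδ
  obtain ⟨ε, hε⟩ : ∃ ε : ℝ, ε = min δ (1 / 16) := ⟨_, rfl⟩
  have hε0 : 0 < ε := by rw [hε]; exact lt_min hδ (by norm_num)
  have hεδ : ε ≤ δ := by rw [hε]; exact min_le_left _ _
  obtain ⟨τ, hτ, P, hPP⟩ := hP ε hε0 (by rw [hε]; exact min_le_right _ _)
  refine ⟨τ / 2, by positivity, max P (⌈(2 : ℝ) ^ (2 / τ)⌉₊ + 2), ?_⟩
  intro p _ hp F F' hF A B hA hB χ hχ
  have hpP : P ≤ p := (le_max_left _ _).trans hp
  have hp2 : ⌈(2 : ℝ) ^ (2 / τ)⌉₊ + 2 ≤ p := (le_max_right _ _).trans hp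
  have hp1 : (1 : ℝ) ≤ p := by
    have : 1 ≤ p := by omega
    exact_mod_cast this
  have hp0 : (0 : ℝ) < p := by linarith
  have h2p : (2 : ℝ) ≤ (p : ℝ) ^ (τ / 2) := by
    have h6 : (2 : ℝ) ^ (2 / τ) ≤ p := by
      refine (Nat.le_ceil _).trans ?_
      have : ⌈(2 : ℝ) ^ (2 / τ)⌉₊ ≤ p := by omega
      exact_mod_cast this
    have h7 : ((2 : ℝ) ^ (2 / τ)) ^ (τ / 2) ≤ (p : ℝ) ^ (τ / 2) :=
      Real.rpow_le_rpow (by positivity) h6 (by positivity)
    have h8 : ((2 : ℝ) ^ (2 / τ)) ^ (τ / 2) = 2 := by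
      rw [← Real.rpow_mul (by norm_num)]
      have : 2 / τ * (τ / 2) = 1 := by field_simp
      rw [this, Real.rpow_one]
    linarith
  obtain ⟨q, hq⟩ : ∃ q : ℝ, q = (p : ℝ) ^ (1 / 4 + ε) := ⟨_, rfl⟩
  have hq1 : 1 ≤ q := by
    rw [hq]
    exact Real.one_le_rpow hp1 (by linarith)
  obtain ⟨N, hN⟩ : ∃ N : ℕ, N = ⌈q⌉₊ := ⟨_, rfl⟩
  have hN1 : 1 ≤ N := by
    rw [hN]
    exact Nat.one_le_ceil_iff.2 (by linarith)
  have hqN : q ≤ N := by
    rw [hN]
    exact Nat.le_ceil _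
  have hNq : (N : ℝ) ≤ 2 * q := by
    have := Nat.ceil_lt_add_one (show 0 ≤ q by linarith)
    rw [← hN] at this
    linarith
  -- the pieces
  have key : ∀ X ∈ F ∪ F', ∃ (x g : ZMod p) (m : ℕ), g ≠ 0 ∧ (m : ℝ) * N ≤ 2 * (#X : ℝ) ∧
      ∀ a ∈ X, ∃ j ∈ range m, a ∈ ap (x + ((j * N : ℕ) : ZMod p) * g) g N := by
    intro X hX
    obtain ⟨h9, x, g, n, hXe⟩ := hF X hX
    have hXa : X = ap x g n := hXe
    have h10 : q ≤ (p : ℝ) ^ (1 / 4 + δ) := by
      rw [hq]
      exact Real.rpow_le_rpow_of_exponent_le hp1 (by linarith)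
    have h11 : q < #X := lt_of_le_of_lt h10 h9
    have h12 : N ≤ #X := by
      rw [hN]
      exact Nat.ceil_le.2 h11.le
    have h13 : 1 < #X := by
      have : (1 : ℝ) < #X := by linarith
      exact_mod_cast this
    rw [hXa] at h12 h13 ⊢
    obtain ⟨hg, m, hm, hcov⟩ := ap_cover x g n N hN1 h12 h13
    exact ⟨x, g, m, hg, hm, hcov⟩
  choose! fx fg fm hg hm hcov using key
  have h := hU p χ (Σ _ : Finset (ZMod p), ℕ) (Σ _ : Finset (ZMod p), ℕ)
    (F.sigma fun X => range (fm X)) (F'.sigma fun X => range (fm X))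
    (fun i => ap (fx i.1 + ((i.2 * N : ℕ) : ZMod p) * fg i.1) (fg i.1) N)
    (fun i => ap (fx i.1 + ((i.2 * N : ℕ) : ZMod p) * fg i.1) (fg i.1) N)
    (fun _ => (N : ℝ)) (fun _ => (N : ℝ)) ((p : ℝ) ^ (-τ)) (by positivity)
    (fun _ _ => by positivity) (fun _ _ => by positivity)
    (fun i hi j hj => by
      rw [mem_sigma] at hi hj
      have h14 := hPP p hpP (fg i.1) (fg j.1) (fx i.1 + ((i.2 * N : ℕ) : ZMod p) * fg i.1)
        (fx j.1 + ((j.2 * N : ℕ) : ZMod p) * fg j.1) N (hg _ (mem_union_left _ hi.1))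
        (hg _ (mem_union_right _ hj.1)) (by rw [← hq]; exact hqN) (by rw [← hq]; exact hNq) χ hχ
      have h15 : Real.sqrt ((N : ℝ) * N) = N := Real.sqrt_mul_self (by positivity)
      rw [h15]
      exact h14)
    A B
    (fun a ha => by
      obtain ⟨X, hX, haX⟩ := mem_biUnion.1 (hA ha)
      obtain ⟨j, hj, haj⟩ := hcov X (mem_union_left _ hX) a haX
      exact ⟨⟨X, j⟩, mem_sigma.2 ⟨hX, hj⟩, haj⟩)
    (fun b hb => by
      obtain ⟨X, hX, hbX⟩ := mem_biUnion.1 (hB hb)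
      obtain ⟨j, hj, hbj⟩ := hcov X (mem_union_right _ hX) b hbX
      exact ⟨⟨X, j⟩, mem_sigma.2 ⟨hX, hj⟩, hbj⟩)
  refine nb_mono h ?_
  have hs : ∀ G : Finset (Finset (ZMod p)), G ⊆ F ∪ F' →
      (∑ _i ∈ G.sigma fun X => range (fm X), (N : ℝ)) ≤ 2 * ∑ X ∈ G, (#X : ℝ) := by
    intro G hG
    rw [sum_sigma, mul_sum]
    refine sum_le_sum fun X hX => ?_
    rw [sum_const, card_range, nsmul_eq_mul]
    exact hm X (hG hX)
  have hs1 := hs F subset_union_left
  have hs2 := hs F' subset_union_right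
  obtain ⟨S1, hS1⟩ : ∃ S : ℝ, S = ∑ X ∈ F, (#X : ℝ) := ⟨_, rfl⟩
  obtain ⟨S2, hS2⟩ : ∃ S : ℝ, S = ∑ X ∈ F', (#X : ℝ) := ⟨_, rfl⟩
  have hS10 : 0 ≤ S1 := by rw [hS1]; positivity
  have hS20 : 0 ≤ S2 := by rw [hS2]; positivity
  rw [← hS1] at hs1 ⊢
  rw [← hS2] at hs2 ⊢
  have h16 : Real.sqrt ((∑ _i ∈ F.sigma fun X => range (fm X), (N : ℝ)) *
      ∑ _i ∈ F'.sigma fun X => range (fm X), (N : ℝ)) ≤ 2 * Real.sqrt (S1 * S2) := by
    have h17 : Real.sqrt (2 * S1 * (2 * S2)) = 2 * Real.sqrt (S1 * S2) := by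
      have : 2 * S1 * (2 * S2) = 2 ^ 2 * (S1 * S2) := by ring
      rw [this, Real.sqrt_mul (by norm_num), Real.sqrt_sq (by norm_num)]
    rw [← h17]
    refine Real.sqrt_le_sqrt ?_
    exact mul_le_mul hs1 hs2 (by positivity) (by positivity)
  calc (p : ℝ) ^ (-τ) * Real.sqrt ((∑ _i ∈ F.sigma fun X => range (fm X), (N : ℝ)) *
      ∑ _i ∈ F'.sigma fun X => range (fm X), (N : ℝ))
      ≤ (p : ℝ) ^ (-τ) * (2 * Real.sqrt (S1 * S2)) :=
        mul_le_mul_of_nonneg_left h16 (by positivity)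
    _ ≤ (p : ℝ) ^ (-τ) * ((p : ℝ) ^ (τ / 2) * Real.sqrt (S1 * S2)) := by
        refine mul_le_mul_of_nonneg_left ?_ (by positivity)
        exact mul_le_mul_of_nonneg_right h2p (Real.sqrt_nonneg _)
    _ = (p : ℝ) ^ (-(τ / 2)) * Real.sqrt (S1 * S2) := by
        rw [← mul_assoc, ← Real.rpow_add hp0]
        congr 2
        ring

end MPcb27.TU
end

section
/-!
# MP_cb27ba_nt, TU: FINUK (unions of sets of bounded doubling, from PAIRK and UNI)
-/
set_option autoImplicit false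

namespace MPcb27.TU

open Finset
open scoped Pointwise

theorem finUK (hP : SpecPAIRK) (hU : SpecUNI) : FinalUK := by
  intro K δ hδ
  obtain ⟨τ, hτ, P, hPP⟩ := hP K δ hδ
  refine ⟨τ, hτ, P, ?_⟩
  intro p _ hp F F' hF A B hA hB χ hχ
  have h := hU p χ (Finset (ZMod p)) (Finset (ZMod p)) F F' id id (fun X => (#X : ℝ))
    (fun X => (#X : ℝ)) ((p : ℝ) ^ (-τ)) (by positivity) (fun i _ => by positivity)
    (fun i _ => by positivity)
    (fun i hi j hj => hPP p hp i j (hF i (mem_union_left _ hi)).1 (hF i (mem_union_left _ hi)).2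
      (hF j (mem_union_right _ hj)).1 (hF j (mem_union_right _ hj)).2 χ hχ)
    A B (fun a ha => by simpa using mem_biUnion.1 (hA ha))
    (fun b hb => by simpa using mem_biUnion.1 (hB hb))
  exact h

end MPcb27.TU
end
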