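import Pool.Agent.Lib.MP_cb27ba_nt.TU.Spec3

/-!
# MP_cb27ba_nt, project TU (theorem NU): P1, part a: elementary counting
-/

set_option autoImplicit false

namespace MPcb27.TU

open Finset
open scoped Pointwise

namespace P1

/-- energy of `T + R` and a set which is sparse along `R` -/
theorem energy_split {p : ℕ} (T R Ds : Finset (ZMod p)) (m : ℕ)
    (h : ∀ z : ZMod p, #(Ds ∩ (z +ᵥ R)) ≤ m) :
    (T + R).addEnergy Ds ≤ #T * m * (#(T + R) * #Ds) := by
  rw [addEnergy, ← card_product]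
  refine card_le_mul_card_image_of_maps_to (f := fun x => (x.1.1, x.2.2)) ?_ _ ?_
  · intro x hx
    simp only [mem_filter, mem_product] at hx ⊢
    exact ⟨hx.1.1.1, hx.1.2.2⟩
  · intro q _
    have hinj : #{x ∈ {x ∈ ((T + R) ×ˢ (T + R)) ×ˢ Ds ×ˢ Ds | x.1.1 + x.2.1 = x.1.2 + x.2.2} |
        (x.1.1, x.2.2) = q} ≤ #(T.biUnion fun t => Ds ∩ ((t + (q.2 - q.1)) +ᵥ R)) := by
      refine card_le_card_of_injOn (fun x => x.2.1) ?_ ?_
      · intro x hx
        simp only [coe_filter, mem_filter, mem_product, Set.mem_ofPred_eq] at hx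
        obtain ⟨⟨⟨⟨-, h2⟩, h3, -⟩, h5⟩, h6⟩ := hx
        obtain ⟨t, ht, r, hr, htr⟩ := mem_add.1 h2
        simp only [coe_biUnion, Set.mem_iUnion, coe_inter, Set.mem_inter_iff, mem_coe]
        refine ⟨t, ht, h3, ?_⟩
        rw [mem_vadd_finset]
        refine ⟨r, hr, ?_⟩
        rw [← h6, vadd_eq_add]
        have : x.2.1 = x.1.2 + x.2.2 - x.1.1 := by rw [← h5]; ring
        rw [this, ← htr]
        ring
      · intro x hx y hy hxy
        simp only [coe_filter, mem_filter, mem_product, Set.mem_ofPred_eq] at hx hy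
        obtain ⟨⟨-, h5⟩, h6⟩ := hx
        obtain ⟨⟨-, h5'⟩, h6'⟩ := hy
        have h7 : x.1.1 = y.1.1 ∧ x.2.2 = y.2.2 := by
          rw [← h6'] at h6
          exact Prod.mk.injEq _ _ _ _ ▸ h6
        have hxy' : x.2.1 = y.2.1 := hxy
        have h8 : x.1.2 = y.1.2 := by
          have e1 : x.1.2 = x.1.1 + x.2.1 - x.2.2 := by rw [h5]; ring
          have e2 : y.1.2 = y.1.1 + y.2.1 - y.2.2 := by rw [h5']; ring
          rw [e1, e2, h7.1, h7.2, hxy']
        exact Prod.ext (Prod.ext h7.1 h8) (Prod.ext hxy' h7.2)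
    refine hinj.trans (card_biUnion_le.trans ?_)
    exact (sum_le_card_nsmul _ _ _ fun t _ => h _).trans (by simp)

/-- trivial bound of the energy -/
theorem energy_triv {p : ℕ} (U V : Finset (ZMod p)) : U.addEnergy V ≤ #U * #V ^ 2 := by
  rw [addEnergy, sq, ← card_product, ← card_product]
  refine card_le_card_of_injOn (fun x => (x.1.1, x.2)) ?_ ?_
  · intro x hx
    simp only [coe_filter, mem_product, Set.mem_ofPred_eq] at hx
    simp only [coe_product, Set.mem_prod, mem_coe]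
    exact ⟨hx.1.1.1, hx.1.2.1, hx.1.2.2⟩
  · intro x hx y hy hxy
    simp only [coe_filter, mem_product, Set.mem_ofPred_eq] at hx hy
    simp only [Prod.mk.injEq] at hxy
    have h8 : x.1.2 = y.1.2 := by
      have e1 : x.1.2 = x.1.1 + x.2.1 - x.2.2 := by rw [hx.2]; ring
      have e2 : y.1.2 = y.1.1 + y.2.1 - y.2.2 := by rw [hy.2]; ring
      rw [e1, e2, hxy.1, hxy.2]
    exact Prod.ext (Prod.ext hxy.1 h8) hxy.2

/-- sumsets with bounded multiplicity -/
theorem card_mult {p : ℕ} (T : Finset (ZMod p)) (S : Finset ℕ) (f : ℕ → ZMod p)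
    (hf : Set.InjOn f S) (h : ∀ z : ZMod p, #(T.filter fun t => ∃ i ∈ S, t + f i = z) ≤ 2) :
    #T * #S ≤ 2 * #(T + S.image f) := by
  rw [← card_product]
  refine card_le_mul_card_image_of_maps_to (f := fun x => x.1 + f x.2) ?_ _ ?_
  · intro x hx
    rw [mem_product] at hx
    exact add_mem_add hx.1 (mem_image_of_mem _ hx.2)
  · intro z _
    refine le_trans ?_ (h z)
    refine card_le_card_of_injOn (fun x => x.1) ?_ ?_
    · intro x hx
      simp only [coe_filter, mem_product, Set.mem_ofPred_eq] at hx ⊢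
      exact ⟨hx.1.1, x.2, hx.1.2, hx.2⟩
    · intro x hx y hy hxy
      simp only [coe_filter, mem_product, Set.mem_ofPred_eq] at hx hy
      have hxy' : x.1 = y.1 := hxy
      refine Prod.ext hxy' (hf (mem_coe.2 hx.1.2) (mem_coe.2 hy.1.2) ?_)
      have := hx.2.trans hy.2.symm
      rw [hxy'] at this
      exact add_left_cancel this

theorem card_ap_le {p : ℕ} (x g : ZMod p) (n : ℕ) : #(ap x g n) ≤ n := by
  rw [ap]
  exact card_image_le.trans (by simp)

theorem ap_mono {p : ℕ} (g : ZMod p) {n m : ℕ} (h : n ≤ m) : ap 0 g n ⊆ ap 0 g m := by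
  rw [ap, ap]
  exact image_subset_image (range_subset_range.2 h)

/-- `ap 0 g n ⊆ ap 0 (M g) k + ap 0 g M` if `n ≤ k M` -/
theorem ap_split {p : ℕ} (g : ZMod p) {n M k : ℕ} (hM : 1 ≤ M) (h : n ≤ k * M) :
    ap 0 g n ⊆ ap 0 ((M : ZMod p) * g) k + ap 0 g M := by
  intro a ha
  simp only [ap, mem_image, mem_range, zero_add] at ha
  obtain ⟨i, hi, rfl⟩ := ha
  rw [mem_add]
  refine ⟨((i / M : ℕ) : ZMod p) * ((M : ZMod p) * g), ?_, ((i % M : ℕ) : ZMod p) * g, ?_, ?_⟩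
  · simp only [ap, mem_image, mem_range, zero_add]
    refine ⟨i / M, ?_, rfl⟩
    exact Nat.div_lt_of_lt_mul (by rw [mul_comm]; omega)
  · simp only [ap, mem_image, mem_range, zero_add]
    exact ⟨i % M, Nat.mod_lt _ hM, rfl⟩
  · have : ((i / M : ℕ) : ZMod p) * (M : ZMod p) + ((i % M : ℕ) : ZMod p) = (i : ZMod p) := by
      rw [← Nat.cast_mul, ← Nat.cast_add, mul_comm, Nat.div_add_mod]
    rw [← this]
    ring

/-- `ap 0 (M g) k ⊆ ap 0 g n` if `(k - 1) M < n` -/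
theorem ap_sub {p : ℕ} (g : ZMod p) {n M k : ℕ} (h : k * M < n + M) :
    ap 0 ((M : ZMod p) * g) k ⊆ ap 0 g n := by
  intro a ha
  simp only [ap, mem_image, mem_range, zero_add] at ha ⊢
  obtain ⟨i, hi, rfl⟩ := ha
  refine ⟨i * M, ?_, by push_cast; ring⟩
  have : (i + 1) * M ≤ k * M := Nat.mul_le_mul_right _ hi
  have h2 : (i + 1) * M = i * M + M := by ring
  omega

/-- the trivial bound of the norm -/
theorem nb_triv {p : ℕ} (χ : MulChar (ZMod p) ℂ) (X Y : Finset (ZMod p)) :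
    NB χ X Y (Real.sqrt ((#X : ℝ) * #Y)) := by
  intro α β
  have h1 : ‖∑ a ∈ X, ∑ b ∈ Y, α a * β b * χ (a - b)‖ ≤ (∑ a ∈ X, ‖α a‖) * ∑ b ∈ Y, ‖β b‖ := by
    refine (norm_sum_le _ _).trans ?_
    rw [sum_mul]
    refine sum_le_sum fun a _ => (norm_sum_le _ _).trans ?_
    rw [mul_sum]
    refine sum_le_sum fun b _ => ?_
    rw [norm_mul, norm_mul]
    refine mul_le_of_le_one_right (by positivity) ?_
    exact DirichletCharacter.norm_le_one χ _
  have h2 : ∀ (Z : Finset (ZMod p)) (γ : ZMod p → ℂ),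
      ∑ a ∈ Z, ‖γ a‖ ≤ Real.sqrt (#Z) * Real.sqrt (∑ a ∈ Z, ‖γ a‖ ^ 2) := by
    intro Z γ
    rw [← Real.sqrt_mul (Nat.cast_nonneg _)]
    exact Real.le_sqrt_of_sq_le sq_sum_le_card_mul_sum_sq
  refine h1.trans ?_
  rw [Real.sqrt_mul (Nat.cast_nonneg _)]
  calc (∑ a ∈ X, ‖α a‖) * ∑ b ∈ Y, ‖β b‖
      ≤ (Real.sqrt (#X) * Real.sqrt (∑ a ∈ X, ‖α a‖ ^ 2)) *
        (Real.sqrt (#Y) * Real.sqrt (∑ a ∈ Y, ‖β a‖ ^ 2)) :=
        mul_le_mul (h2 X α) (h2 Y β) (sum_nonneg fun _ _ => norm_nonneg _) (by positivity)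
    _ = _ := by ring

end P1

end MPcb27.TU
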