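import Pool.Agent.Lib.MP_cb27ba_nt.BD.Spec
import Pool.Agent.Lib.MP_cb27ba_nt.TU.Spec

/-!
# MP_cb27ba_nt, project TU (theorem U, unions): exact statements of the modules, part 2

Aim: `SpecPAIRK` (two sets of bounded doubling with more than `p^(1/4+δ)` elements).
Plan: FRB, WIN reduce to two injective boxes `P = Bx b H`, `P' = Bx b' H'` of volume about
`W = p^(1/4+δ)`. Let `q = |(P - P) ∩ (P' - P')|`. If `q ≤ p^(δ/2)`: CASE1 (theorem S').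
If `q ≥ p^(δ/2)`: CASE2: `Z = Bx b (H/λ) ∩ Bx b' (H'/λ)`, `λ = p^κ`, has doubling at most
`16^d` (COV), contains up to a constant a proper box `Bx c J ⊆ 2Z - 2Z` (SpecFr); TRB and HOB over
this box; the count by CNTB and ENM.
-/

set_option autoImplicit false

namespace MPcb27.TU

open Finset
open scoped Pointwise

/-- the symmetric box -/
noncomputable def Bx {p d : ℕ} (b : Fin d → ZMod p) (H : Fin d → ℕ) : Finset (ZMod p) :=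
  (Fintype.piFinset fun i => Finset.Icc (-(H i : ℤ)) (H i)).image (lin b)

/-- the box with nonnegative coefficients -/
def qb {p e : ℕ} (c : Fin e → ZMod p) (J : Fin e → ℕ) : Finset (ZMod p) :=
  (bx fun i => J i + 1).image (linN c)

/-- injectivity on the symmetric box -/
def Inj {p d : ℕ} (b : Fin d → ZMod p) (H : Fin d → ℕ) : Prop :=
  ∀ n n' : Fin d → ℤ, (∀ i, |n i| ≤ H i) → (∀ i, |n' i| ≤ H i) → lin b n = lin b n' → n = n'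

/-- volume of the symmetric box -/
noncomputable def vol {d : ℕ} (H : Fin d → ℕ) : ℝ := ∏ i, (2 * (H i : ℝ) + 1)

/-- multiplicative energy (nonzero denominators) -/
def ME {p : ℕ} (A B : Finset (ZMod p)) : ℕ :=
  #(((A ×ˢ B) ×ˢ (A ×ˢ B)).filter fun q =>
    q.1.2 ≠ 0 ∧ q.2.2 ≠ 0 ∧ q.2.2 * q.1.1 = q.1.2 * q.2.1)

/-- number of pairs of `(i, n, y)`, `(i', n', y')` with `(z_i + n) / y = (z_i' + n') / y'` -/
def N2B {p : ℕ} {ι : Type} {e : ℕ} (S : Finset ι) (z : ι → ZMod p) (c : Fin e → ZMod p)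
    (M : Fin e → ℕ) (Y : Finset (Fin e → ℕ)) : ℕ :=
  #(((S ×ˢ bx M ×ˢ Y) ×ˢ (S ×ˢ bx M ×ˢ Y)).filter fun q =>
    linN c q.2.2.2 * (z q.1.1 + linN c q.1.2.1) = linN c q.1.2.2 * (z q.2.1 + linN c q.2.2.1))

/-- BOX: basics on boxes. -/
def SpecBOX : Prop :=
  ∀ (p d : ℕ) (b : Fin d → ZMod p) (H H' : Fin d → ℕ),
    (#(Bx b H) : ℝ) ≤ vol H ∧ (Inj b H → (#(Bx b H) : ℝ) = vol H) ∧
    ((∀ i, H i ≤ H' i) → Bx b H ⊆ Bx b H') ∧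
    Bx b H + Bx b H' = Bx b (fun i => H i + H' i) ∧ -Bx b H = Bx b H

/-- COV: coverings. `Bx b H ⊆ T + qb b h`, `#T ≤ μ ^ d`, and `qb b h - qb b h ⊆ Bx b h`; every
nonempty `(t + qb b h) ∩ (t' + qb b' h')` has at most `#(Bx b h ∩ Bx b' h')` elements. -/
def SpecCOV : Prop :=
  ∀ (p d d' : ℕ) (b : Fin d → ZMod p) (b' : Fin d' → ZMod p) (h H : Fin d → ℕ)
    (h' H' : Fin d' → ℕ) (μ : ℕ),
    (∀ i, 2 * H i + 1 ≤ μ * (h i + 1)) → (∀ i, 2 * H' i + 1 ≤ μ * (h' i + 1)) →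
      #(Bx b H) ≤ μ ^ d * #(Bx b h) ∧
      #(Bx b H ∩ Bx b' H') ≤ μ ^ (d + d') * #(Bx b h ∩ Bx b' h') ∧
      #(Bx b H + Bx b' H') ≤ μ ^ (d + d') * #(Bx b h + Bx b' h')

/-- GRP: two inequalities in a group. First: `(z, s) ↦ (a_s + z, b_s + z)` is injective, where
`s = a_s - b_s`. Second: `a + b = a' + b'`, `z = a - a' = b' - b`. -/
def SpecGRP : Prop :=
  ∀ (p : ℕ) (A B : Finset (ZMod p)),
    #((A - A) ∩ (B - B)) * #(A - B) ≤ #(A + A - A) * #(B + B - B) ∧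
    A.addEnergy B ≤ #A * #B * #((A - A) ∩ (B - B)) ∧
    #A * #B ≤ #(A - B) * #((A - A) ∩ (B - B))

/-- TRB: averaging over translates of a box (as TG/TR, with `qb c J` in place of `iv p H`). -/
def SpecTRB : Prop :=
  ∀ (p : ℕ) [Fact p.Prime] (e : ℕ) (c : Fin e → ZMod p) (J : Fin e → ℕ), Inj c J →
    ∀ (A B : Finset (ZMod p)) (α β : ZMod p → ℂ) (χ : MulChar (ZMod p) ℂ),
      ∃ ψ : ZMod p × ZMod p → AddChar (ZMod p) ℂ,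
        (∏ i, ((J i : ℝ) + 1)) ^ 2 * ‖∑ a ∈ A, ∑ b ∈ B, α a * β b * χ (a - b)‖ ^ 2 ≤
          (∑ q ∈ (A + qb c J) ×ˢ (B + qb c J),
            ‖∑ n ∈ bx (fun i => 2 * J i + 1), χ ((q.1 - q.2 + -linN c J) + linN c n) *
              ψ q (linN c n)‖ ^ 2) *
          ((∑ a ∈ A, ‖α a‖ ^ 2) * ∑ b ∈ B, ‖β b‖ ^ 2)

/-- HOB: Burgess's method and Hoelder for a family of translates of a box (as TG/HO2, with
`Burg.shift` in place of `shift_one`). -/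
def SpecHOB : Prop :=
  ∀ r : ℕ, 1 ≤ r → ∃ C : ℝ, 0 ≤ C ∧ ∀ (p : ℕ) [Fact p.Prime] (χ : MulChar (ZMod p) ℂ), χ ≠ 1 →
    ∀ (ι : Type) (S : Finset ι) (z : ι → ZMod p) (ψ : ι → AddChar (ZMod p) ℂ) (e : ℕ)
      (c : Fin e → ZMod p) (M : Fin e → ℕ) (X : ℕ) (Y : Finset (Fin e → ℕ)) (ε ρ : ℝ),
      1 ≤ X → X ≤ p → Real.sqrt p ≤ (X : ℝ) ^ r → Y.Nonempty → (∀ y ∈ Y, linN c y ≠ 0) →
      0 ≤ ε → ε ≤ 1 → (∀ y ∈ Y, ∀ i, (X : ℝ) * y i ≤ ε * M i) → 0 ≤ ρ →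
      C * N2B S z c M Y * (X : ℝ) ^ 2 * Real.sqrt p ≤
        ρ ^ (2 * r) * ((#S : ℝ) * (∏ i, (M i : ℝ)) * #Y) ^ 2 →
      ∑ i ∈ S, ‖∑ n ∈ bx M, χ (z i + linN c n) * ψ i (linN c n)‖ ≤
        #S * (∏ i, (M i : ℝ)) * (ρ + 7 / X + 2 * e * ε)

/-- CNTB: the count for `z = a - b + w`. For fixed `n, n'` put `t = a + linN c n ∈ A'`; a given
value of `t - b + w` is taken at most `#((A' - A') ∩ (B - B))` times. -/
def SpecCNTB : Prop :=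
  ∀ (p : ℕ) [Fact p.Prime] (e : ℕ) (c : Fin e → ZMod p) (M : Fin e → ℕ)
    (Y : Finset (Fin e → ℕ)) (A A' B : Finset (ZMod p)) (w : ZMod p),
    (∀ a ∈ A, ∀ n ∈ bx M, a + linN c n ∈ A') → Set.InjOn (linN c) (Y : Set (Fin e → ℕ)) →
    (∀ y ∈ Y, linN c y ≠ 0) →
    N2B (A ×ˢ B) (fun q => q.1 - q.2 + w) c M Y ≤
      (∏ i, M i) ^ 2 * #((A' - A') ∩ (B - B)) ^ 2 *
        ME ((A' - B).image fun s => s + w) (Y.image (linN c))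

/-- MECS: Cauchy-Schwarz for the multiplicative energy, and unions. -/
def SpecMECS : Prop :=
  ∀ (p : ℕ) [Fact p.Prime] (A B : Finset (ZMod p)),
    (ME A B : ℝ) ≤ Real.sqrt (ME A A * ME B B) + (#B : ℝ) ^ 2 ∧
    (∀ B' : Finset (ZMod p), B ⊆ B' → ME A B ≤ ME A B') ∧
    (∀ (T : Finset (ZMod p)) (f : ZMod p → Finset (ZMod p)), A ⊆ T.biUnion f →
      ME A B ≤ #T * ∑ t ∈ T, ME (f t) B)

/-- ENG: multiplicative energy of a subset of a (not necessarily proper) progression of volume at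
most `p^(1/2-ε)`; from SpecProper, SpecEnP. -/
def SpecENG : Prop :=
  ∀ (d : ℕ) (ε : ℝ), 0 < ε → ∃ P : ℕ, ∀ (p : ℕ) [Fact p.Prime], P ≤ p →
    ∀ (b : Fin d → ZMod p) (H : Fin d → ℕ), (∀ i, 1 ≤ H i) →
      ∏ i, (H i : ℝ) ≤ (p : ℝ) ^ (1 / 2 - ε) →
      ∀ A : Finset (ZMod p), (∀ x ∈ A, ∃ n : Fin d → ℤ, (∀ i, |n i| ≤ H i) ∧ x = lin b n) →
        (ME A A : ℝ) ≤ (p : ℝ) ^ ε * (∏ i, (H i : ℝ)) ^ 2

/-- FRB: sets of bounded doubling are covered by few translates of an injective box; from SpecFr,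
Pluennecke-Ruzsa (Mathlib, cf. BD/Fin `card_add_le`), Ruzsa covering. -/
def SpecFRB : Prop :=
  ∀ K : ℝ, ∃ (d : ℕ) (C : ℝ), 1 ≤ C ∧ ∀ (p : ℕ) [Fact p.Prime] (A : Finset (ZMod p)),
    A.Nonempty → (#(A + A) : ℝ) ≤ K * #A →
    ∃ (b : Fin d → ZMod p) (H : Fin d → ℕ) (T : Finset (ZMod p)), Inj b H ∧
      (#A : ℝ) ≤ C * vol H ∧ vol H ≤ C * #A ∧ (#T : ℝ) ≤ C ∧ A ⊆ T + Bx b H

/-- WIN: sub-box of prescribed volume, and the number of its translates which cover the box. -/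
def SpecWIN : Prop :=
  ∀ (p d : ℕ) (b : Fin d → ZMod p) (H : Fin d → ℕ) (W : ℝ), 1 ≤ W → W ≤ vol H →
    ∃ h : Fin d → ℕ, (∀ i, h i ≤ H i) ∧ W ≤ vol h ∧ vol h ≤ 3 * W ∧
      ∃ T : Finset (ZMod p), (#T : ℝ) * vol h ≤ 2 ^ d * vol H ∧ Bx b H ⊆ T + Bx b h

/-- ENM: multiplicative energy of two sets of bounded doubling; from FRB, WIN, ENG, MECS. -/
def SpecENM : Prop :=
  ∀ K ε : ℝ, 0 < ε → ∃ P : ℕ, ∀ (p : ℕ) [Fact p.Prime], P ≤ p →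
    ∀ A B : Finset (ZMod p), A.Nonempty → B.Nonempty → (#(A + A) : ℝ) ≤ K * #A →
      (#(B + B) : ℝ) ≤ K * #B → (#A : ℝ) ≤ (p : ℝ) ^ (3 / 4 : ℝ) →
      (#B : ℝ) ≤ (p : ℝ) ^ (1 / 2 - ε) →
      (ME A B : ℝ) ≤ (p : ℝ) ^ ε *
        ((#A : ℝ) * #B * (1 + #A * (p : ℝ) ^ (-(1 / 2) : ℝ)) + (#B : ℝ) ^ 2)

/-- the hypotheses on the two boxes -/
def Two {p d : ℕ} (δ : ℝ) (b b' : Fin d → ZMod p) (H H' : Fin d → ℕ) : Prop :=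
  Inj b H ∧ Inj b' H' ∧ (p : ℝ) ^ (1 / 4 + δ) ≤ vol H ∧ vol H ≤ 3 * (p : ℝ) ^ (1 / 4 + δ) ∧
    (p : ℝ) ^ (1 / 4 + δ) ≤ vol H' ∧ vol H' ≤ 3 * (p : ℝ) ^ (1 / 4 + δ)

/-- CASE1: few common differences; from TS.FinalS, BOX, GRP (`C` = a short progression in the
direction of the longest side). -/
def SpecCASE1 : Prop :=
  ∀ (d : ℕ) (δ : ℝ), 0 < δ → δ ≤ 1 / 16 → ∃ τ : ℝ, 0 < τ ∧ ∃ P : ℕ,
    ∀ (p : ℕ) [Fact p.Prime], P ≤ p →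
    ∀ (b b' : Fin d → ZMod p) (H H' : Fin d → ℕ), Two δ b b' H H' →
      (#(Bx b (fun i => 2 * H i) ∩ Bx b' (fun i => 2 * H' i)) : ℝ) ≤ (p : ℝ) ^ (δ / 2) →
      ∀ (x y : ZMod p) (χ : MulChar (ZMod p) ℂ), χ ≠ 1 →
        NB χ (x +ᵥ Bx b H) (y +ᵥ Bx b' H') ((p : ℝ) ^ (-τ) * Real.sqrt (vol H * vol H'))

/-- CASE2: many common differences; from BOX, COV, GRP, TRB, HOB, CNTB, ENM, SpecFr. -/
def SpecCASE2 : Prop :=
  ∀ (d : ℕ) (δ : ℝ), 0 < δ → δ ≤ 1 / 16 → ∃ τ : ℝ, 0 < τ ∧ ∃ P : ℕ,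
    ∀ (p : ℕ) [Fact p.Prime], P ≤ p →
    ∀ (b b' : Fin d → ZMod p) (H H' : Fin d → ℕ), Two δ b b' H H' →
      (p : ℝ) ^ (δ / 2) ≤ (#(Bx b (fun i => 2 * H i) ∩ Bx b' (fun i => 2 * H' i)) : ℝ) →
      ∀ (x y : ZMod p) (χ : MulChar (ZMod p) ℂ), χ ≠ 1 →
        NB χ (x +ᵥ Bx b H) (y +ᵥ Bx b' H') ((p : ℝ) ^ (-τ) * Real.sqrt (vol H * vol H'))

end MPcb27.TU
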