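import Pool.Agent.Lib.MP_cb27ba_nt.TS.Spec
import Pool.Agent.Lib.MP_cb27ba_nt.TU.Spec2

/-!
# MP_cb27ba_nt, project TU: module CASE1 (few common differences)
-/

set_option autoImplicit false

namespace MPcb27.TU

open Finset
open scoped Pointwise

namespace Case1

lemma large (K s : ℝ) (hs : 0 < s) : ∃ P : ℕ, ∀ p : ℕ, P ≤ p → K ≤ (p : ℝ) ^ s := by
  have h := (tendsto_rpow_atTop hs).comp (tendsto_natCast_atTop_atTop (R := ℝ))
  obtain ⟨P, hP⟩ := Filter.eventually_atTop.mp (h.eventually (Filter.eventually_ge_atTop K))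
  exact ⟨P, fun p hp => hP p hp⟩

/-- a box is `D + C` with a short progression `C` in the direction of one side -/
lemma split {p d : ℕ} (b : Fin d → ZMod p) (H : Fin d → ℕ) (hI : Inj b H) (i0 : Fin d)
    (m : ℕ) (hm : 1 ≤ m) (hm2 : m ≤ 2 * H i0 + 1) :
    ∃ D C : Finset (ZMod p), #C = m ∧ D ⊆ Bx b H ∧ Bx b H ⊆ D + C ∧
      (#D : ℝ) * m ≤ 2 * vol H := by
  classical
  obtain ⟨B, hB⟩ : ∃ B : Fin d → Finset ℤ, B = fun i => if i = i0 then
      (range (2 * H i / m + 1)).image (fun j : ℕ => -(H i : ℤ) + m * j)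
      else Finset.Icc (-(H i : ℤ)) (H i) := ⟨_, rfl⟩
  have hB0 : B i0 = (range (2 * H i0 / m + 1)).image (fun j : ℕ => -(H i0 : ℤ) + m * j) := by
    rw [hB]; simp
  have hB1 : ∀ i, i ≠ i0 → B i = Finset.Icc (-(H i : ℤ)) (H i) := by
    intro i hi
    rw [hB]; simp [hi]
  have hlin : ∀ n : Fin d → ℤ, lin b n = (n i0 : ZMod p) * b i0 +
      ∑ i ∈ univ.erase i0, (n i : ZMod p) * b i := by
    intro n
    rw [lin, ← Finset.add_sum_erase univ _ (mem_univ i0)]
  refine ⟨(Fintype.piFinset B).image (lin b), (range m).image fun k : ℕ => (k : ZMod p) * b i0,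
    ?_, ?_, ?_, ?_⟩
  · rw [card_image_of_injOn, card_range]
    intro k hk l hl hkl
    simp only [coe_range, Set.mem_Iio] at hk hl
    simp only at hkl
    have h1 := hI (fun i => if i = i0 then (k : ℤ) - H i0 else 0)
      (fun i => if i = i0 then (l : ℤ) - H i0 else 0) ?_ ?_ ?_
    · have h2 := congrFun h1 i0
      simp only [if_true] at h2
      omega
    · intro i
      by_cases hi : i = i0
      · subst hi
        simp only [if_true]
        rw [abs_le]
        omega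
      · simp [hi]
    · intro i
      by_cases hi : i = i0
      · subst hi
        simp only [if_true]
        rw [abs_le]
        omega
      · simp [hi]
    · rw [hlin, hlin]
      have e1 : ∀ v : ℤ, ∑ i ∈ univ.erase i0,
          (((if i = i0 then v else 0 : ℤ)) : ZMod p) * b i = 0 := by
        intro v
        refine sum_eq_zero fun i hi => ?_
        rw [if_neg (ne_of_mem_erase hi)]
        simp
      rw [e1, e1]
      simp only [if_true]
      push_cast
      linear_combination hkl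
  · intro x hx
    obtain ⟨n, hn, rfl⟩ := mem_image.mp hx
    rw [Bx]
    refine mem_image_of_mem _ ?_
    rw [Fintype.mem_piFinset] at hn ⊢
    intro i
    by_cases hi : i = i0
    · subst hi
      have h1 := hn i
      rw [hB0] at h1
      obtain ⟨j, hj, hj'⟩ := mem_image.mp h1
      rw [mem_range] at hj
      have h2 : m * j ≤ 2 * H i := by
        calc m * j ≤ m * (2 * H i / m) := Nat.mul_le_mul_left _ (by omega)
          _ ≤ 2 * H i := Nat.mul_div_le _ _
      rw [← hj', mem_Icc]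
      have h3 : ((m * j : ℕ) : ℤ) ≤ ((2 * H i : ℕ) : ℤ) := by exact_mod_cast h2
      push_cast at h3
      have h4 : (0 : ℤ) ≤ (m : ℤ) * j := by positivity
      constructor <;> linarith
    · have h1 := hn i
      rwa [hB1 i hi] at h1
  · intro x hx
    rw [Bx] at hx
    obtain ⟨n, hn, rfl⟩ := mem_image.mp hx
    rw [Fintype.mem_piFinset] at hn
    have hn0 := hn i0
    rw [mem_Icc] at hn0
    obtain ⟨k, hk⟩ : ∃ k : ℕ, n i0 = -(H i0 : ℤ) + k := ⟨(n i0 + H i0).toNat, by omega⟩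
    have hk2 : k ≤ 2 * H i0 := by omega
    obtain ⟨q, r, hqr, hr⟩ : ∃ q r : ℕ, k = m * q + r ∧ r < m :=
      ⟨k / m, k % m, (Nat.div_add_mod k m).symm, Nat.mod_lt _ hm⟩
    have hq2 : q ≤ 2 * H i0 / m := by
      rw [Nat.le_div_iff_mul_le hm, mul_comm]
      omega
    rw [mem_add]
    refine ⟨lin b (Function.update n i0 (-(H i0 : ℤ) + m * q)), ?_,
      (r : ZMod p) * b i0, ?_, ?_⟩
    · refine mem_image_of_mem _ ?_
      rw [Fintype.mem_piFinset]
      intro i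
      by_cases hi : i = i0
      · subst hi
        rw [Function.update_self, hB0]
        refine mem_image_of_mem (fun j : ℕ => -(H i : ℤ) + m * j) ?_
        rw [mem_range]
        omega
      · rw [Function.update_of_ne hi, hB1 i hi]
        exact hn i
    · exact mem_image_of_mem (fun k : ℕ => (k : ZMod p) * b i0) (mem_range.mpr hr)
    · rw [hlin, hlin, Function.update_self]
      have e1 : ∑ i ∈ univ.erase i0,
          ((Function.update n i0 (-(H i0 : ℤ) + m * q) i : ℤ) : ZMod p) * b i =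
          ∑ i ∈ univ.erase i0, (n i : ZMod p) * b i := by
        refine sum_congr rfl fun i hi => ?_
        rw [Function.update_of_ne (ne_of_mem_erase hi)]
      rw [e1, hk, hqr]
      push_cast
      ring
  · have hc : #((Fintype.piFinset B).image (lin b)) ≤
        (2 * H i0 / m + 1) * ∏ i ∈ univ.erase i0, (2 * H i + 1) := by
      refine card_image_le.trans ?_
      rw [Fintype.card_piFinset, ← Finset.mul_prod_erase univ _ (mem_univ i0)]
      refine Nat.mul_le_mul ?_ (le_of_eq ?_)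
      · rw [hB0]
        exact card_image_le.trans (by rw [card_range])
      · refine prod_congr rfl fun i hi => ?_
        rw [hB1 i (ne_of_mem_erase hi), Int.card_Icc]
        omega
    have h1 : (2 * H i0 / m + 1) * m ≤ 2 * (2 * H i0 + 1) := by
      have := Nat.div_mul_le_self (2 * H i0) m
      rw [add_mul, one_mul]
      omega
    have h2 : #((Fintype.piFinset B).image (lin b)) * m ≤
        2 * ((2 * H i0 + 1) * ∏ i ∈ univ.erase i0, (2 * H i + 1)) := by
      calc _ ≤ ((2 * H i0 / m + 1) * ∏ i ∈ univ.erase i0, (2 * H i + 1)) * m :=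
            Nat.mul_le_mul_right _ hc
        _ = ((2 * H i0 / m + 1) * m) * ∏ i ∈ univ.erase i0, (2 * H i + 1) := by ring
        _ ≤ (2 * (2 * H i0 + 1)) * ∏ i ∈ univ.erase i0, (2 * H i + 1) :=
            Nat.mul_le_mul_right _ h1
        _ = _ := by ring
    rw [Finset.mul_prod_erase univ (fun i => 2 * H i + 1) (mem_univ i0)] at h2
    have h3 : ((#((Fintype.piFinset B).image (lin b)) * m : ℕ) : ℝ) ≤
        ((2 * ∏ i, (2 * H i + 1) : ℕ) : ℝ) := by exact_mod_cast h2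
    rw [vol]
    push_cast at h3
    exact h3

end Case1

open Case1 in
theorem specCASE1 (hS : TS.FinalS) (hBOX : SpecBOX) (hGRP : SpecGRP) : SpecCASE1 := by
  intro d δ hδ hδ2
  obtain ⟨δ', hδ'⟩ : ∃ δ' : ℝ, δ' = min (δ / 4) (1 / (8 * (d + 1))) := ⟨_, rfl⟩
  have hδ'0 : 0 < δ' := by rw [hδ']; exact lt_min (by positivity) (by positivity)
  have hδ'1 : δ' ≤ δ / 4 := by rw [hδ']; exact min_le_left _ _
  have hδ'2 : δ' ≤ 1 / (8 * (d + 1)) := by rw [hδ']; exact min_le_right _ _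
  obtain ⟨τ, hτ, P0, hP0⟩ := hS δ' hδ'0
  obtain ⟨P1, hP1⟩ := large 2 (1 / (8 * (d + 1))) (by positivity)
  obtain ⟨P2, hP2⟩ := large 4 (3 * δ / 4) (by positivity)
  obtain ⟨P3, hP3⟩ := large 2 (τ / 2) (by positivity)
  refine ⟨τ / 2, by positivity, max (max 2 P0) (max P1 (max P2 P3)), ?_⟩
  intro p _ hp b b' H H' hTwo hq x y χ hχ
  obtain ⟨hI, hI', hW1, hW2, hW1', hW2'⟩ := hTwo
  have hp2 : 2 ≤ p := le_trans (le_trans (le_max_left _ _) (le_max_left _ _)) hp
  have hpP0 : P0 ≤ p := le_trans (le_trans (le_max_right _ _) (le_max_left _ _)) hp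
  have hp' : max P1 (max P2 P3) ≤ p := le_trans (le_max_right _ _) hp
  have hp1 := hP1 p (le_trans (le_max_left _ _) hp')
  have hp4 := hP2 p (le_trans (le_trans (le_max_left _ _) (le_max_right _ _)) hp')
  have hp5 := hP3 p (le_trans (le_trans (le_max_right _ _) (le_max_right _ _)) hp')
  have hq1 : (1 : ℝ) ≤ p := by exact_mod_cast (by omega : 1 ≤ p)
  have hq0 : (0 : ℝ) < p := by linarith
  have pos : ∀ a : ℝ, 0 < (p : ℝ) ^ a := fun a => Real.rpow_pos_of_pos hq0 a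
  have mono : ∀ a b : ℝ, a ≤ b → (p : ℝ) ^ a ≤ (p : ℝ) ^ b := fun a b h =>
    Real.rpow_le_rpow_of_exponent_le hq1 h
  have hadd : ∀ a b : ℝ, (p : ℝ) ^ a * (p : ℝ) ^ b = (p : ℝ) ^ (a + b) := fun a b =>
    (Real.rpow_add hq0 a b).symm
  obtain ⟨m, hm⟩ : ∃ m : ℕ, m = ⌈(p : ℝ) ^ δ'⌉₊ := ⟨_, rfl⟩
  have hm1 : (p : ℝ) ^ δ' ≤ m := by rw [hm]; exact Nat.le_ceil _
  have h1p : 1 ≤ (p : ℝ) ^ δ' := Real.one_le_rpow hq1 hδ'0.le
  have hm2 : (m : ℝ) ≤ 2 * (p : ℝ) ^ δ' := by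
    have := Nat.ceil_lt_add_one (pos δ').le
    rw [hm]; linarith
  have hmN : 1 ≤ m := by
    have : (1 : ℝ) ≤ m := by linarith
    exact_mod_cast this
  -- the pieces
  have key : ∀ (b : Fin d → ZMod p) (H : Fin d → ℕ), Inj b H → (p : ℝ) ^ (1 / 4 + δ) ≤ vol H →
      ∃ D C : Finset (ZMod p), #C = m ∧ D ⊆ Bx b H ∧ Bx b H ⊆ D + C ∧
        (#D : ℝ) * m ≤ 2 * vol H ∧ (p : ℝ) ^ (1 / 4 + δ) ≤ #D * m := by
    intro b H hI hW
    have hd : 0 < d := by
      rcases Nat.eq_zero_or_pos d with h | h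
      · subst h
        exfalso
        have h1 : vol H = 1 := by simp [vol]
        have h2 : (1 : ℝ) < (p : ℝ) ^ (1 / 4 + δ) :=
          Real.one_lt_rpow (by exact_mod_cast (by omega : 1 < p)) (by positivity)
        linarith
      · exact h
    have : Nonempty (Fin d) := ⟨⟨0, hd⟩⟩
    obtain ⟨i0, -, hi0⟩ := Finset.exists_max_image univ H univ_nonempty
    have hvol : vol H ≤ (2 * (H i0 : ℝ) + 1) ^ d := by
      rw [vol]
      calc ∏ i, (2 * (H i : ℝ) + 1) ≤ ∏ _i : Fin d, (2 * (H i0 : ℝ) + 1) := by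
            refine prod_le_prod (fun i _ => by positivity) fun i _ => ?_
            have : (H i : ℝ) ≤ H i0 := by exact_mod_cast hi0 i (mem_univ i)
            linarith
        _ = (2 * (H i0 : ℝ) + 1) ^ d := by simp
    have hd0 : (0 : ℝ) < d := by exact_mod_cast hd
    have hside : (p : ℝ) ^ (1 / (4 * (d : ℝ))) ≤ 2 * (H i0 : ℝ) + 1 := by
      refine le_of_pow_le_pow_left₀ hd.ne' (by positivity) ?_
      calc ((p : ℝ) ^ (1 / (4 * (d : ℝ)))) ^ d = (p : ℝ) ^ (1 / 4 : ℝ) := by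
            rw [← Real.rpow_natCast, ← Real.rpow_mul hq0.le]
            congr 1
            field_simp
        _ ≤ (p : ℝ) ^ (1 / 4 + δ) := mono _ _ (by linarith)
        _ ≤ vol H := hW
        _ ≤ _ := hvol
    have hmH : m ≤ 2 * H i0 + 1 := by
      have h1 : (m : ℝ) ≤ 2 * (H i0 : ℝ) + 1 := by
        calc (m : ℝ) ≤ 2 * (p : ℝ) ^ δ' := hm2
          _ ≤ (p : ℝ) ^ (1 / (8 * ((d : ℝ) + 1))) * (p : ℝ) ^ (1 / (8 * ((d : ℝ) + 1))) :=
              mul_le_mul hp1 (mono _ _ hδ'2) (pos _).le (pos _).le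
          _ = (p : ℝ) ^ (1 / (8 * ((d : ℝ) + 1)) + 1 / (8 * ((d : ℝ) + 1))) := hadd _ _
          _ ≤ (p : ℝ) ^ (1 / (4 * (d : ℝ))) := by
              apply mono
              have h3 : 1 / (8 * ((d : ℝ) + 1)) + 1 / (8 * ((d : ℝ) + 1)) =
                  1 / (4 * ((d : ℝ) + 1)) := by
                field_simp
                norm_num
              rw [h3]
              exact one_div_le_one_div_of_le (by positivity) (by linarith)
          _ ≤ _ := hside
      exact_mod_cast h1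
    obtain ⟨D, C, hC, hD1, hD2, hD3⟩ := split b H hI i0 m hmN hmH
    refine ⟨D, C, hC, hD1, hD2, hD3, ?_⟩
    have h1 : (#(Bx b H) : ℝ) = vol H := (hBOX p d b H H).2.1 hI
    have h2 : #(Bx b H) ≤ #D * #C := (card_le_card hD2).trans card_add_le
    rw [hC] at h2
    calc (p : ℝ) ^ (1 / 4 + δ) ≤ vol H := hW
      _ = #(Bx b H) := h1.symm
      _ ≤ #D * m := by exact_mod_cast h2
  obtain ⟨D, C, hC, hD1, hD2, hD3, hD4⟩ := key b H hI hW1
  obtain ⟨D', C', hC', hD1', hD2', hD3', hD4'⟩ := key b' H' hI' hW1'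
  have hdiff : ∀ (b : Fin d → ZMod p) (H : Fin d → ℕ) (D : Finset (ZMod p)) (x : ZMod p),
      D ⊆ Bx b H → (x +ᵥ D) - (x +ᵥ D) ⊆ Bx b (fun i => 2 * H i) := by
    intro b H D x hD z hz
    obtain ⟨u, hu, v, hv, rfl⟩ := mem_sub.mp hz
    obtain ⟨u', hu', rfl⟩ := mem_vadd_finset.mp hu
    obtain ⟨v', hv', rfl⟩ := mem_vadd_finset.mp hv
    have h1 : (x +ᵥ u') - (x +ᵥ v') = u' + -v' := by
      rw [vadd_eq_add, vadd_eq_add]; ring
    have h2 : Bx b H + Bx b H = Bx b (fun i => 2 * H i) := by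
      rw [(hBOX p d b H H).2.2.2.1]
      congr 1
      funext i
      ring
    have h3 : -Bx b H = Bx b H := (hBOX p d b H H).2.2.2.2
    rw [h1, ← h2]
    refine add_mem_add (hD hu') ?_
    rw [← h3]
    exact neg_mem_neg (hD hv')
  have hE : (((x +ᵥ D).addEnergy (y +ᵥ D') : ℕ) : ℝ) ≤
      (p : ℝ) ^ (-(1 / 2) - δ') * (#(x +ᵥ D) : ℝ) ^ 2 * (#(y +ᵥ D') : ℝ) ^ 2 := by
    have h1 := (hGRP p (x +ᵥ D) (y +ᵥ D')).2.1
    have h2 : #(((x +ᵥ D) - (x +ᵥ D)) ∩ ((y +ᵥ D') - (y +ᵥ D'))) ≤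
        #(Bx b (fun i => 2 * H i) ∩ Bx b' (fun i => 2 * H' i)) :=
      card_le_card (inter_subset_inter (hdiff b H D x hD1) (hdiff b' H' D' y hD1'))
    have h3 : (#(((x +ᵥ D) - (x +ᵥ D)) ∩ ((y +ᵥ D') - (y +ᵥ D'))) : ℝ) ≤ (p : ℝ) ^ (δ / 2) :=
      le_trans (by exact_mod_cast h2) hq
    rw [card_vadd_finset, card_vadd_finset] at h1 ⊢
    have h4 : (p : ℝ) ^ (δ / 2) ≤ (p : ℝ) ^ (-(1 / 2) - δ') * (#D * #D') := by
      have h5 : (p : ℝ) ^ (1 / 4 + δ) * (p : ℝ) ^ (1 / 4 + δ) ≤ (#D * m) * (#D' * m) :=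
        mul_le_mul hD4 hD4' (pos _).le (by positivity)
      have h6 : (#D * m) * (#D' * m) ≤ (#D * #D') * (4 * (p : ℝ) ^ (2 * δ')) := by
        have h7 : (m : ℝ) * m ≤ 4 * (p : ℝ) ^ (2 * δ') := by
          calc (m : ℝ) * m ≤ (2 * (p : ℝ) ^ δ') * (2 * (p : ℝ) ^ δ') :=
                mul_le_mul hm2 hm2 (by positivity) (by positivity)
            _ = 4 * ((p : ℝ) ^ δ' * (p : ℝ) ^ δ') := by ring
            _ = 4 * (p : ℝ) ^ (2 * δ') := by rw [hadd]; congr 2; ring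
        calc (#D * (m : ℝ)) * (#D' * m) = (#D * #D') * (m * m) := by ring
          _ ≤ _ := mul_le_mul_of_nonneg_left h7 (by positivity)
      have h8 : (p : ℝ) ^ (1 / 4 + δ) * (p : ℝ) ^ (1 / 4 + δ) ≤
          (#D * #D') * (4 * (p : ℝ) ^ (2 * δ')) := h5.trans h6
      have h9 : (p : ℝ) ^ (δ / 2) * (4 * (p : ℝ) ^ (2 * δ')) ≤
          ((p : ℝ) ^ (-(1 / 2) - δ') * (#D * #D')) * (4 * (p : ℝ) ^ (2 * δ')) := by
        calc (p : ℝ) ^ (δ / 2) * (4 * (p : ℝ) ^ (2 * δ'))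
            ≤ (p : ℝ) ^ (δ / 2) * ((p : ℝ) ^ (3 * δ / 4) * (p : ℝ) ^ (2 * δ')) := by
              apply mul_le_mul_of_nonneg_left _ (pos _).le
              exact mul_le_mul_of_nonneg_right hp4 (pos _).le
          _ = (p : ℝ) ^ (δ / 2 + (3 * δ / 4 + 2 * δ')) := by rw [hadd, hadd]
          _ ≤ (p : ℝ) ^ ((-(1 / 2) - δ') + ((1 / 4 + δ) + (1 / 4 + δ))) := mono _ _ (by linarith)
          _ = (p : ℝ) ^ (-(1 / 2) - δ') * ((p : ℝ) ^ (1 / 4 + δ) * (p : ℝ) ^ (1 / 4 + δ)) := by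
              rw [hadd, hadd]
          _ ≤ (p : ℝ) ^ (-(1 / 2) - δ') * ((#D * #D') * (4 * (p : ℝ) ^ (2 * δ'))) :=
              mul_le_mul_of_nonneg_left h8 (pos _).le
          _ = _ := by ring
      exact le_of_mul_le_mul_right h9 (by have := pos (2 * δ'); positivity)
    calc (((x +ᵥ D).addEnergy (y +ᵥ D') : ℕ) : ℝ)
        ≤ #D * #D' * (#(((x +ᵥ D) - (x +ᵥ D)) ∩ ((y +ᵥ D') - (y +ᵥ D'))) : ℝ) := by
          exact_mod_cast h1
      _ ≤ #D * #D' * ((p : ℝ) ^ (-(1 / 2) - δ') * (#D * #D')) :=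
          mul_le_mul_of_nonneg_left (h3.trans h4) (by positivity)
      _ = _ := by ring
  have hsub : ∀ (B D C : Finset (ZMod p)) (x : ZMod p), B ⊆ D + C → x +ᵥ B ⊆ (x +ᵥ D) + C := by
    intro B D C x hB z hz
    obtain ⟨u, hu, rfl⟩ := mem_vadd_finset.mp hz
    obtain ⟨v, hv, w, hw, rfl⟩ := mem_add.mp (hB hu)
    rw [vadd_eq_add, ← add_assoc]
    exact add_mem_add (vadd_mem_vadd_finset hv) hw
  intro α β
  have hfin := hP0 p hpP0 C C' (by rw [hC]; exact hm1) (by rw [hC']; exact hm1) (x +ᵥ D) (y +ᵥ D')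
    hE (x +ᵥ Bx b H) (y +ᵥ Bx b' H') (hsub _ _ _ x hD2) (hsub _ _ _ y hD2') α β χ hχ
  refine hfin.trans (mul_le_mul_of_nonneg_right ?_ (by positivity))
  rw [card_vadd_finset, card_vadd_finset, hC, hC']
  have hv0 : 0 ≤ vol H := by rw [vol]; positivity
  have hv0' : 0 ≤ vol H' := by rw [vol]; positivity
  have h1 : Real.sqrt ((#D : ℝ) * m * (#D' * m)) ≤ 2 * Real.sqrt (vol H * vol H') := by
    calc Real.sqrt ((#D : ℝ) * m * (#D' * m)) ≤ Real.sqrt (2 ^ 2 * (vol H * vol H')) := by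
          apply Real.sqrt_le_sqrt
          calc (#D : ℝ) * m * (#D' * m) ≤ (2 * vol H) * (2 * vol H') :=
                mul_le_mul hD3 hD3' (by positivity) (by positivity)
            _ = 2 ^ 2 * (vol H * vol H') := by ring
      _ = 2 * Real.sqrt (vol H * vol H') := by
          rw [Real.sqrt_mul (by norm_num), Real.sqrt_sq (by norm_num)]
  calc (p : ℝ) ^ (-τ) * Real.sqrt ((#D : ℝ) * m * (#D' * m))
      ≤ (p : ℝ) ^ (-τ) * ((p : ℝ) ^ (τ / 2) * Real.sqrt (vol H * vol H')) := by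
        apply mul_le_mul_of_nonneg_left _ (pos _).le
        exact h1.trans (mul_le_mul_of_nonneg_right hp5 (Real.sqrt_nonneg _))
    _ = (p : ℝ) ^ (-(τ / 2)) * Real.sqrt (vol H * vol H') := by
        rw [← mul_assoc, hadd]
        congr 2
        ring

end MPcb27.TU
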