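import Pool.Agent.Lib.MP_cb27ba_nt.BD.Det
import Pool.Agent.Lib.MP_cb27ba_nt.TU.Spec2

section
/-!
# MP_cb27ba_nt, project TU: CASE2, part a (combinatorial part)
-/
set_option autoImplicit false

namespace MPcb27.TU

open Finset
open scoped Pointwise

namespace C2

theorem mem_Bx {p d : ℕ} {b : Fin d → ZMod p} {H : Fin d → ℕ} {z : ZMod p} :
    z ∈ Bx b H ↔ ∃ n : Fin d → ℤ, (∀ i, |n i| ≤ H i) ∧ lin b n = z := by
  unfold Bx
  rw [mem_image]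
  constructor
  · rintro ⟨n, hn, h⟩
    refine ⟨n, fun i => ?_, h⟩
    have := (Fintype.mem_piFinset.mp hn) i
    rw [mem_Icc] at this
    exact abs_le.mpr this
  · rintro ⟨n, hn, h⟩
    refine ⟨n, ?_, h⟩
    rw [Fintype.mem_piFinset]
    intro i
    rw [mem_Icc]
    exact abs_le.mp (hn i)

theorem zero_mem_Bx {p d : ℕ} (b : Fin d → ZMod p) (H : Fin d → ℕ) : (0 : ZMod p) ∈ Bx b H := by
  rw [mem_Bx]
  refine ⟨0, fun i => ?_, Basic.lin_zero b⟩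
  simp

theorem Bx_add {p d : ℕ} {b : Fin d → ZMod p} {H H' H'' : Fin d → ℕ} {z w : ZMod p}
    (hz : z ∈ Bx b H) (hw : w ∈ Bx b H') (h : ∀ i, H i + H' i ≤ H'' i) : z + w ∈ Bx b H'' := by
  rw [mem_Bx] at *
  obtain ⟨n, hn, rfl⟩ := hz
  obtain ⟨m, hm, rfl⟩ := hw
  refine ⟨n + m, fun i => ?_, Basic.lin_add b n m⟩
  have h1 := hn i
  have h2 := hm i
  have h3 : ((H i : ℕ) : ℤ) + H' i ≤ H'' i := by exact_mod_cast h i
  calc |(n + m) i| = |n i + m i| := rfl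
    _ ≤ |n i| + |m i| := abs_add_le _ _
    _ ≤ H'' i := by linarith

theorem Bx_neg {p d : ℕ} {b : Fin d → ZMod p} {H : Fin d → ℕ} {z : ZMod p}
    (hz : z ∈ Bx b H) : -z ∈ Bx b H := by
  rw [mem_Bx] at *
  obtain ⟨n, hn, rfl⟩ := hz
  refine ⟨-n, fun i => ?_, Basic.lin_neg b n⟩
  rw [Pi.neg_apply, abs_neg]
  exact hn i

theorem Bx_sub {p d : ℕ} {b : Fin d → ZMod p} {H H' H'' : Fin d → ℕ} {z w : ZMod p}
    (hz : z ∈ Bx b H) (hw : w ∈ Bx b H') (h : ∀ i, H i + H' i ≤ H'' i) : z - w ∈ Bx b H'' := by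
  rw [sub_eq_add_neg]
  exact Bx_add hz (Bx_neg hw) h

theorem Bx_mono {p d : ℕ} {b : Fin d → ZMod p} {H H' : Fin d → ℕ} (h : ∀ i, H i ≤ H' i) :
    Bx b H ⊆ Bx b H' := by
  intro z hz
  rw [mem_Bx] at *
  obtain ⟨n, hn, rfl⟩ := hz
  refine ⟨n, fun i => (hn i).trans ?_, rfl⟩
  exact_mod_cast h i

theorem mem_tr {p d : ℕ} {b : Fin d → ZMod p} {H : Fin d → ℕ} {x z : ZMod p} :
    z ∈ x +ᵥ Bx b H ↔ z - x ∈ Bx b H := by
  rw [mem_vadd_finset]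
  constructor
  · rintro ⟨y, hy, rfl⟩
    rw [vadd_eq_add, add_sub_cancel_left]
    exact hy
  · intro h
    exact ⟨z - x, h, by rw [vadd_eq_add, add_sub_cancel]⟩

theorem linN_eq {p e : ℕ} (c : Fin e → ZMod p) (n : Fin e → ℕ) :
    linN c n = lin c (fun i => (n i : ℤ)) := by
  unfold linN lin
  refine sum_congr rfl fun i _ => ?_
  push_cast
  rfl

theorem linN_mem {p e : ℕ} {c : Fin e → ZMod p} {J : Fin e → ℕ} {n : Fin e → ℕ}
    (h : ∀ i, n i ≤ J i) : linN c n ∈ Bx c J := by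
  rw [mem_Bx, linN_eq]
  refine ⟨_, fun i => ?_, rfl⟩
  rw [abs_of_nonneg (by positivity)]
  exact_mod_cast h i

theorem mem_bx {e : ℕ} {M n : Fin e → ℕ} : n ∈ bx M ↔ ∀ i, n i < M i := by
  unfold bx
  rw [Fintype.mem_piFinset]
  simp

theorem card_bx {e : ℕ} (M : Fin e → ℕ) : #(bx M) = ∏ i, M i := by
  unfold bx
  rw [Fintype.card_piFinset]
  simp

theorem qb_sub {p e : ℕ} (c : Fin e → ZMod p) (J : Fin e → ℕ) : qb c J ⊆ Bx c J := by
  intro z hz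
  unfold qb at hz
  rw [mem_image] at hz
  obtain ⟨n, hn, rfl⟩ := hz
  rw [mem_bx] at hn
  exact linN_mem fun i => by have := hn i; omega

theorem zero_mem_qb {p e : ℕ} (c : Fin e → ZMod p) (J : Fin e → ℕ) : (0 : ZMod p) ∈ qb c J := by
  unfold qb
  rw [mem_image]
  refine ⟨0, ?_, ?_⟩
  · rw [mem_bx]
    intro i
    simp
  · simp [linN]

theorem vol_pos {d : ℕ} (H : Fin d → ℕ) : 0 < vol H := by
  unfold vol
  exact prod_pos fun i _ => by positivity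

theorem one_le_vol {d : ℕ} (H : Fin d → ℕ) : 1 ≤ vol H := by
  unfold vol
  have h : ∏ i : Fin d, (1 : ℝ) ≤ ∏ i, (2 * (H i : ℝ) + 1) :=
    prod_le_prod (fun i _ => by norm_num) fun i _ => by
      have : (0 : ℝ) ≤ H i := Nat.cast_nonneg _
      linarith
  simpa using h

theorem vol_mul {d : ℕ} (H : Fin d → ℕ) (k : ℕ) (hk : 1 ≤ k) :
    vol (fun i => k * H i) ≤ (k : ℝ) ^ d * vol H := by
  unfold vol
  have h : ∏ i : Fin d, (2 * ((k * H i : ℕ) : ℝ) + 1) ≤ ∏ i : Fin d, ((k : ℝ) * (2 * (H i : ℝ) + 1)) :=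
    prod_le_prod (fun i _ => by positivity) fun i _ => by
      have h1 : (1 : ℝ) ≤ k := by exact_mod_cast hk
      push_cast
      nlinarith
  rw [prod_mul_distrib, prod_const, card_univ, Fintype.card_fin] at h
  exact h

/-- the differences are small -/
theorem card_tr {p d : ℕ} (b : Fin d → ZMod p) (H : Fin d → ℕ) (x : ZMod p) :
    #(x +ᵥ Bx b H) = #(Bx b H) := card_vadd_finset _ _

/-- `Z` -/
noncomputable def Zs {p d : ℕ} (b b' : Fin d → ZMod p) (H H' : Fin d → ℕ) (L : ℕ) :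
    Finset (ZMod p) :=
  Bx b (fun i => H i / L) ∩ Bx b' (fun i => H' i / L)

theorem cov_q (hCOV : SpecCOV) {p d : ℕ} (b b' : Fin d → ZMod p) (H H' : Fin d → ℕ) (L : ℕ)
    (hL : 1 ≤ L) :
    #(Bx b (fun i => 2 * H i) ∩ Bx b' (fun i => 2 * H' i)) ≤ (4 * L) ^ (d + d) * #(Zs b b' H H' L) := by
  have h : ∀ G : Fin d → ℕ, ∀ i, 2 * (2 * G i) + 1 ≤ 4 * L * (G i / L + 1) := by
    intro G i
    have h1 : G i < L * (G i / L + 1) := Nat.lt_mul_div_succ (G i) (by omega)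
    nlinarith
  exact (hCOV p d d b b' _ _ _ _ (4 * L) (h H) (h H')).2.1

theorem cov_Z (hCOV : SpecCOV) {p d : ℕ} (b b' : Fin d → ZMod p) (H H' : Fin d → ℕ) (L : ℕ) :
    #(Zs b b' H H' L + Zs b b' H H' L) ≤ 4 ^ (d + d) * #(Zs b b' H H' L) := by
  refine le_trans (card_le_card ?_) (hCOV p d d b b' (fun i => H i / L) (fun i => 2 * (H i / L))
    (fun i => H' i / L) (fun i => 2 * (H' i / L)) 4 (fun i => by omega) (fun i => by omega)).2.1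
  intro z hz
  rw [mem_add] at hz
  obtain ⟨u, hu, v, hv, rfl⟩ := hz
  unfold Zs at hu hv
  rw [mem_inter] at hu hv ⊢
  exact ⟨Bx_add hu.1 hv.1 fun i => by omega, Bx_add hu.2 hv.2 fun i => by omega⟩

theorem Zs_nonempty {p d : ℕ} (b b' : Fin d → ZMod p) (H H' : Fin d → ℕ) (L : ℕ) :
    (Zs b b' H H' L).Nonempty := ⟨0, by
  unfold Zs
  exact mem_inter.mpr ⟨zero_mem_Bx _ _, zero_mem_Bx _ _⟩⟩

/-- the box of Freiman's theorem inside the two boxes -/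
theorem sub_four {p d e : ℕ} {b b' : Fin d → ZMod p} {H H' : Fin d → ℕ} {L : ℕ}
    {c : Fin e → ZMod p} {J : Fin e → ℕ}
    (h : ∀ n : Fin e → ℤ, (∀ i, |n i| ≤ J i) →
      ∃ a₁ ∈ Zs b b' H H' L, ∃ a₂ ∈ Zs b b' H H' L, ∃ a₃ ∈ Zs b b' H H' L,
        ∃ a₄ ∈ Zs b b' H H' L, lin c n = a₁ + a₂ - a₃ - a₄) :
    Bx c J ⊆ Bx b (fun i => 4 * H i) ∧ Bx c J ⊆ Bx b' (fun i => 4 * H' i) := by
  constructor
  all_goals
    intro z hz
    rw [mem_Bx] at hz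
    obtain ⟨n, hn, rfl⟩ := hz
    obtain ⟨a1, h1, a2, h2, a3, h3, a4, h4, e⟩ := h n hn
    unfold Zs at h1 h2 h3 h4
    rw [mem_inter] at h1 h2 h3 h4
    rw [e]
  · have e1 := Bx_add (H'' := fun i => 2 * H i) h1.1 h2.1 fun i => by
      have := Nat.div_le_self (H i) L; omega
    have e2 := Bx_sub (H'' := fun i => 3 * H i) e1 h3.1 fun i => by
      have := Nat.div_le_self (H i) L; omega
    exact Bx_sub e2 h4.1 fun i => by have := Nat.div_le_self (H i) L; omega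
  · have e1 := Bx_add (H'' := fun i => 2 * H' i) h1.2 h2.2 fun i => by
      have := Nat.div_le_self (H' i) L; omega
    have e2 := Bx_sub (H'' := fun i => 3 * H' i) e1 h3.2 fun i => by
      have := Nat.div_le_self (H' i) L; omega
    exact Bx_sub e2 h4.2 fun i => by have := Nat.div_le_self (H' i) L; omega

end C2

end MPcb27.TU
end

section
/-!
# MP_cb27ba_nt, project TU: CASE2, part b (sizes of the sets, the count)
-/
set_option autoImplicit false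

namespace MPcb27.TU

open Finset
open scoped Pointwise

namespace C2

section

variable {p d e : ℕ} {b b' : Fin d → ZMod p} {H H' : Fin d → ℕ} {c : Fin e → ZMod p}
  {J : Fin e → ℕ} {x y : ZMod p}

theorem A1_sub (hcb : Bx c J ⊆ Bx b (fun i => 4 * H i)) :
    (x +ᵥ Bx b H) + qb c J ⊆ x +ᵥ Bx b (fun i => 5 * H i) := by
  intro z hz
  rw [mem_add] at hz
  obtain ⟨u, hu, v, hv, rfl⟩ := hz
  rw [mem_tr] at hu ⊢
  have e1 : u + v - x = (u - x) + v := by ring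
  rw [e1]
  exact Bx_add hu (hcb (qb_sub _ _ hv)) fun i => by omega

theorem A1_shift (hcb : Bx c J ⊆ Bx b (fun i => 4 * H i)) :
    ∀ a ∈ (x +ᵥ Bx b H) + qb c J, ∀ n ∈ bx (fun i => 2 * J i + 1),
      a + linN c n ∈ x +ᵥ Bx b (fun i => 13 * H i) := by
  intro a ha n hn
  have h1 := A1_sub hcb ha
  rw [mem_tr] at h1 ⊢
  have h2 : linN c n ∈ Bx b (fun i => 8 * H i) := by
    rw [mem_bx] at hn
    have e1 : linN c n = linN c (fun i => min (n i) (J i)) +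
        linN c (fun i => n i - min (n i) (J i)) := by
      unfold linN
      rw [← sum_add_distrib]
      refine sum_congr rfl fun i _ => ?_
      rw [← add_mul, ← Nat.cast_add]
      have e2 : n i = min (n i) (J i) + (n i - min (n i) (J i)) := by omega
      exact congrArg (fun t : ℕ => (t : ZMod p) * c i) e2
    rw [e1]
    have h3 := hcb (linN_mem (c := c) (J := J) (n := fun i => min (n i) (J i))
      fun i => min_le_right _ _)
    have h4 := hcb (linN_mem (c := c) (J := J) (n := fun i => n i - min (n i) (J i))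
      fun i => by have := hn i; omega)
    exact Bx_add h3 h4 fun i => by omega
  have e1 : a + linN c n - x = (a - x) + linN c n := by ring
  rw [e1]
  exact Bx_add h1 h2 fun i => by omega

theorem A0_sub : x +ᵥ Bx b H ⊆ (x +ᵥ Bx b H) + qb c J := by
  intro z hz
  exact mem_add.mpr ⟨z, hz, 0, zero_mem_qb _ _, add_zero z⟩

theorem A1_sub' (hcb : Bx c J ⊆ Bx b (fun i => 4 * H i)) :
    (x +ᵥ Bx b H) + qb c J ⊆ x +ᵥ Bx b (fun i => 13 * H i) := by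
  refine (A1_sub hcb).trans ?_
  intro z hz
  rw [mem_tr] at hz ⊢
  exact Bx_mono (fun i => by omega) hz

/-- size of a box with larger sides -/
theorem card_mul (hBOX : SpecBOX) (k : ℕ) (hk : 1 ≤ k) :
    (#(Bx b (fun i => k * H i)) : ℝ) ≤ (k : ℝ) ^ d * vol H :=
  ((hBOX p d b _ (fun _ => 0)).1).trans (vol_mul H k hk)

theorem card_A1 (hBOX : SpecBOX) (hcb : Bx c J ⊆ Bx b (fun i => 4 * H i)) :
    (#((x +ᵥ Bx b H) + qb c J) : ℝ) ≤ 5 ^ d * vol H := by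
  have h1 : (#((x +ᵥ Bx b H) + qb c J) : ℝ) ≤ #(Bx b (fun i => 5 * H i)) := by
    rw [← card_tr b _ x]
    exact_mod_cast card_le_card (A1_sub hcb)
  exact h1.trans (card_mul hBOX 5 (by norm_num))

theorem card_A1_ge (hBOX : SpecBOX) (hI : Inj b H) :
    vol H ≤ (#((x +ᵥ Bx b H) + qb c J) : ℝ) := by
  rw [← (hBOX p d b H H).2.1 hI, ← card_tr b _ x]
  exact_mod_cast card_le_card A0_sub

/-- the set of the values `t - s + w` -/
noncomputable def S2 (b b' : Fin d → ZMod p) (H H' : Fin d → ℕ) (c : Fin e → ZMod p)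
    (J : Fin e → ℕ) (x y w : ZMod p) : Finset (ZMod p) :=
  ((x +ᵥ Bx b (fun i => 13 * H i)) - ((y +ᵥ Bx b' H') + qb c J)).image fun s => s + w

theorem card_S2 (w : ZMod p) : #(S2 b b' H H' c J x y w) =
    #((x +ᵥ Bx b (fun i => 13 * H i)) - ((y +ᵥ Bx b' H') + qb c J)) :=
  card_image_of_injective _ (add_left_injective w)

theorem S2_nonempty (w : ZMod p) : (S2 b b' H H' c J x y w).Nonempty := by
  unfold S2
  refine Nonempty.image ?_ _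
  refine Nonempty.sub ?_ ?_
  · exact ⟨x, by rw [mem_tr, sub_self]; exact zero_mem_Bx _ _⟩
  · refine ⟨y, A0_sub ?_⟩
    rw [mem_tr, sub_self]
    exact zero_mem_Bx _ _

/-- the multiplicity times the number of values -/
theorem mult_le (hBOX : SpecBOX) (hGRP : SpecGRP) (w : ZMod p)
    (hcb' : Bx c J ⊆ Bx b' (fun i => 4 * H' i)) :
    (#(((x +ᵥ Bx b (fun i => 13 * H i)) - (x +ᵥ Bx b (fun i => 13 * H i))) ∩
      (((y +ᵥ Bx b' H') + qb c J) - ((y +ᵥ Bx b' H') + qb c J))) : ℝ) *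
      #(S2 b b' H H' c J x y w) ≤ (39 ^ d * 15 ^ d) * (vol H * vol H') := by
  rw [card_S2]
  have h1 := (hGRP p (x +ᵥ Bx b (fun i => 13 * H i)) ((y +ᵥ Bx b' H') + qb c J)).1
  have h2 : (#((x +ᵥ Bx b (fun i => 13 * H i)) + (x +ᵥ Bx b (fun i => 13 * H i)) -
      (x +ᵥ Bx b (fun i => 13 * H i))) : ℝ) ≤ 39 ^ d * vol H := by
    refine le_trans ?_ (card_mul (b := b) (H := H) hBOX 39 (by norm_num))
    rw [← card_tr b _ x]
    have h3 : (x +ᵥ Bx b (fun i => 13 * H i)) + (x +ᵥ Bx b (fun i => 13 * H i)) -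
        (x +ᵥ Bx b (fun i => 13 * H i)) ⊆ x +ᵥ Bx b (fun i => 39 * H i) := by
      intro z hz
      rw [mem_sub] at hz
      obtain ⟨u, hu, v, hv, rfl⟩ := hz
      rw [mem_add] at hu
      obtain ⟨u1, hu1, u2, hu2, rfl⟩ := hu
      rw [mem_tr] at hu1 hu2 hv ⊢
      have e1 : u1 + u2 - v - x = ((u1 - x) + (u2 - x)) - (v - x) := by ring
      rw [e1]
      exact Bx_sub (Bx_add (H'' := fun i => 26 * H i) hu1 hu2 fun i => by omega) hv
        fun i => by omega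
    exact_mod_cast card_le_card h3
  have h4 : (#(((y +ᵥ Bx b' H') + qb c J) + ((y +ᵥ Bx b' H') + qb c J) -
      ((y +ᵥ Bx b' H') + qb c J)) : ℝ) ≤ 15 ^ d * vol H' := by
    refine le_trans ?_ (card_mul (b := b') (H := H') hBOX 15 (by norm_num))
    rw [← card_tr b' _ y]
    have h3 : ((y +ᵥ Bx b' H') + qb c J) + ((y +ᵥ Bx b' H') + qb c J) -
        ((y +ᵥ Bx b' H') + qb c J) ⊆ y +ᵥ Bx b' (fun i => 15 * H' i) := by
      intro z hz
      rw [mem_sub] at hz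
      obtain ⟨u, hu, v, hv, rfl⟩ := hz
      rw [mem_add] at hu
      obtain ⟨u1, hu1, u2, hu2, rfl⟩ := hu
      have g1 := A1_sub hcb' hu1
      have g2 := A1_sub hcb' hu2
      have g3 := A1_sub hcb' hv
      rw [mem_tr] at g1 g2 g3 ⊢
      have e1 : u1 + u2 - v - y = ((u1 - y) + (u2 - y)) - (v - y) := by ring
      rw [e1]
      exact Bx_sub (Bx_add (H'' := fun i => 10 * H' i) g1 g2 fun i => by omega) g3
        fun i => by omega
    exact_mod_cast card_le_card h3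
  have h5 : (#(((x +ᵥ Bx b (fun i => 13 * H i)) - (x +ᵥ Bx b (fun i => 13 * H i))) ∩
      (((y +ᵥ Bx b' H') + qb c J) - ((y +ᵥ Bx b' H') + qb c J))) : ℝ) *
      #((x +ᵥ Bx b (fun i => 13 * H i)) - ((y +ᵥ Bx b' H') + qb c J)) ≤
      (#((x +ᵥ Bx b (fun i => 13 * H i)) + (x +ᵥ Bx b (fun i => 13 * H i)) -
      (x +ᵥ Bx b (fun i => 13 * H i))) : ℝ) *
      #(((y +ᵥ Bx b' H') + qb c J) + ((y +ᵥ Bx b' H') + qb c J) -
      ((y +ᵥ Bx b' H') + qb c J)) := by exact_mod_cast h1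
  refine h5.trans ?_
  calc _ ≤ (39 ^ d * vol H) * (15 ^ d * vol H') :=
        mul_le_mul h2 h4 (Nat.cast_nonneg _) (by have := vol_pos H; positivity)
    _ = _ := by ring

/-- doubling of `S2` -/
theorem dbl_S2 (hCOV : SpecCOV) (w : ZMod p) (hcb' : Bx c J ⊆ Bx b' (fun i => 4 * H' i)) :
    #(S2 b b' H H' c J x y w + S2 b b' H H' c J x y w) ≤
      52 ^ (d + d) * #(S2 b b' H H' c J x y w) := by
  have h1 : #(S2 b b' H H' c J x y w + S2 b b' H H' c J x y w) ≤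
      #(Bx b (fun i => 26 * H i) + Bx b' (fun i => 10 * H' i)) := by
    refine card_le_card_of_injOn (fun z => z - (x - y + w) - (x - y + w)) ?_ ?_
    · intro z hz
      rw [mem_coe, mem_add] at hz
      obtain ⟨u, hu, v, hv, rfl⟩ := hz
      unfold S2 at hu hv
      rw [mem_image] at hu hv
      obtain ⟨u', hu', rfl⟩ := hu
      obtain ⟨v', hv', rfl⟩ := hv
      rw [mem_sub] at hu' hv'
      obtain ⟨u1, hu1, u2, hu2, rfl⟩ := hu'
      obtain ⟨v1, hv1, v2, hv2, rfl⟩ := hv'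
      have g1 := A1_sub hcb' hu2
      have g2 := A1_sub hcb' hv2
      rw [mem_tr] at hu1 hv1 g1 g2
      rw [mem_coe, mem_add]
      refine ⟨(u1 - x) + (v1 - x), Bx_add hu1 hv1 fun i => by omega,
        -((u2 - y) + (v2 - y)), Bx_neg (Bx_add g1 g2 fun i => by omega), ?_⟩
      ring
    · intro u _ v _ h
      simpa using h
  have h2 : #(Bx b H + Bx b' H') ≤ #(S2 b b' H H' c J x y w) := by
    refine card_le_card_of_injOn (fun z => z + (x - y + w)) ?_ ?_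
    · intro z hz
      rw [mem_coe, mem_add] at hz
      obtain ⟨u, hu, v, hv, rfl⟩ := hz
      rw [mem_coe]
      unfold S2
      rw [mem_image]
      refine ⟨(x + u) - (y - v), ?_, by ring⟩
      rw [mem_sub]
      refine ⟨x + u, ?_, y - v, A0_sub ?_, rfl⟩
      · rw [mem_tr, add_sub_cancel_left]
        exact Bx_mono (fun i => by omega) hu
      · rw [mem_tr]
        have e1 : y - v - y = -v := by ring
        rw [e1]
        exact Bx_neg hv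
    · intro u _ v _ h
      simpa using h
  have h3 := (hCOV p d d b b' H (fun i => 26 * H i) H' (fun i => 10 * H' i) 52
    (fun i => by omega) (fun i => by omega)).2.2
  exact h1.trans (h3.trans (Nat.mul_le_mul_left _ h2))

/-- lower bound for the number of values -/
theorem S2_ge (hBOX : SpecBOX) (hGRP : SpecGRP) (hI : Inj b H) (hI' : Inj b' H') (w : ZMod p) :
    vol H * vol H' ≤ (#(S2 b b' H H' c J x y w) : ℝ) *
      #(Bx b (fun i => 2 * H i) ∩ Bx b' (fun i => 2 * H' i)) := by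
  have h1 := (hGRP p (x +ᵥ Bx b H) (y +ᵥ Bx b' H')).2.2
  rw [card_tr, card_tr] at h1
  have h2 : #((x +ᵥ Bx b H) - (y +ᵥ Bx b' H')) ≤ #(S2 b b' H H' c J x y w) := by
    rw [card_S2]
    refine card_le_card (sub_subset_sub ?_ A0_sub)
    intro z hz
    rw [mem_tr] at hz ⊢
    exact Bx_mono (fun i => by omega) hz
  have h3 : #(((x +ᵥ Bx b H) - (x +ᵥ Bx b H)) ∩ ((y +ᵥ Bx b' H') - (y +ᵥ Bx b' H'))) ≤
      #(Bx b (fun i => 2 * H i) ∩ Bx b' (fun i => 2 * H' i)) := by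
    refine card_le_card (inter_subset_inter ?_ ?_)
    · intro z hz
      rw [mem_sub] at hz
      obtain ⟨u, hu, v, hv, rfl⟩ := hz
      rw [mem_tr] at hu hv
      have e1 : u - v = (u - x) - (v - x) := by ring
      rw [e1]
      exact Bx_sub hu hv fun i => by omega
    · intro z hz
      rw [mem_sub] at hz
      obtain ⟨u, hu, v, hv, rfl⟩ := hz
      rw [mem_tr] at hu hv
      have e1 : u - v = (u - y) - (v - y) := by ring
      rw [e1]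
      exact Bx_sub hu hv fun i => by omega
  have h4 : #(Bx b H) * #(Bx b' H') ≤ #(S2 b b' H H' c J x y w) *
      #(Bx b (fun i => 2 * H i) ∩ Bx b' (fun i => 2 * H' i)) :=
    h1.trans (Nat.mul_le_mul h2 h3)
  rw [← (hBOX p d b H H).2.1 hI, ← (hBOX p d b' H' H').2.1 hI']
  exact_mod_cast h4

/-- upper bound for the number of values -/
theorem S2_le (hBOX : SpecBOX) (w : ZMod p) (hcb' : Bx c J ⊆ Bx b' (fun i => 4 * H' i)) :
    (#(S2 b b' H H' c J x y w) : ℝ) ≤ (13 ^ d * 5 ^ d) * (vol H * vol H') := by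
  rw [card_S2]
  have h1 : (#((x +ᵥ Bx b (fun i => 13 * H i)) - ((y +ᵥ Bx b' H') + qb c J)) : ℝ) ≤
      #(x +ᵥ Bx b (fun i => 13 * H i)) * #((y +ᵥ Bx b' H') + qb c J) := by
    exact_mod_cast card_sub_le
  refine h1.trans ?_
  rw [card_tr]
  calc _ ≤ (13 ^ d * vol H) * (5 ^ d * vol H') :=
        mul_le_mul (card_mul (b := b) (H := H) hBOX 13 (by norm_num)) (card_A1 hBOX hcb')
          (Nat.cast_nonneg _) (by have := vol_pos H; positivity)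
    _ = _ := by ring

/-- a subset of `Bx b (4 H)` is smaller than `S2` -/
theorem le_S2 (w : ZMod p) {Q : Finset (ZMod p)} (hQ : Q ⊆ Bx b (fun i => 4 * H i)) :
    #Q ≤ #(S2 b b' H H' c J x y w) := by
  refine card_le_card_of_injOn (fun z => z + (x - y + w)) ?_ ?_
  · intro z hz
    rw [mem_coe] at hz ⊢
    unfold S2
    rw [mem_image]
    refine ⟨(x + z) - y, ?_, by ring⟩
    rw [mem_sub]
    refine ⟨x + z, ?_, y, A0_sub ?_, rfl⟩
    · rw [mem_tr, add_sub_cancel_left]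
      exact Bx_mono (fun i => by omega) (hQ hz)
    · rw [mem_tr, sub_self]
      exact zero_mem_Bx _ _
  · intro u _ v _ h
    simpa using h

end

end C2

end MPcb27.TU
end

section
/-!
# MP_cb27ba_nt, project TU: CASE2, part c (the multipliers, the count, the numbers)
-/
set_option autoImplicit false

namespace MPcb27.TU

open Finset
open scoped Pointwise

namespace C2

/-- sides of the box of the multipliers -/
def Y1 {e : ℕ} (J : Fin e → ℕ) (X : ℕ) : Fin e → ℕ := fun i => (2 * J i + 1) / (X * X)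

/-- the multipliers -/
def Ys {e : ℕ} (J : Fin e → ℕ) (X : ℕ) : Finset (Fin e → ℕ) :=
  (bx fun i => Y1 J X i + 1).filter fun y => y ≠ 0

theorem Y1_le {e : ℕ} (J : Fin e → ℕ) (X : ℕ) (hX : 2 ≤ X) (i : Fin e) : Y1 J X i ≤ J i := by
  unfold Y1
  have h1 : 4 ≤ X * X := by nlinarith
  have h2 : (2 * J i + 1) / (X * X) ≤ (2 * J i + 1) / 4 := Nat.div_le_div_left h1 (by norm_num)
  omega

theorem linN_inj {p e : ℕ} {c : Fin e → ZMod p} {J : Fin e → ℕ} (hI : Inj c J) {n m : Fin e → ℕ}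
    (hn : ∀ i, n i ≤ J i) (hm : ∀ i, m i ≤ J i) (h : linN c n = linN c m) : n = m := by
  rw [linN_eq, linN_eq] at h
  have h1 := hI _ _ (fun i => by
    rw [abs_of_nonneg (by positivity)]; exact_mod_cast hn i) (fun i => by
    rw [abs_of_nonneg (by positivity)]; exact_mod_cast hm i) h
  funext i
  have := congrFun h1 i
  exact_mod_cast this

theorem injOn_Y {p e : ℕ} {c : Fin e → ZMod p} {J : Fin e → ℕ} (hI : Inj c J) {X : ℕ} (hX : 2 ≤ X) :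
    Set.InjOn (linN c) (bx (fun i => Y1 J X i + 1) : Set (Fin e → ℕ)) := by
  intro n hn m hm h
  rw [mem_coe, mem_bx] at hn hm
  refine linN_inj hI (fun i => ?_) (fun i => ?_) h
  · have := hn i; have := Y1_le J X hX i; omega
  · have := hm i; have := Y1_le J X hX i; omega

theorem Ys_ne {p e : ℕ} {c : Fin e → ZMod p} {J : Fin e → ℕ} (hI : Inj c J) {X : ℕ} (hX : 2 ≤ X) :
    ∀ y ∈ Ys J X, linN c y ≠ 0 := by
  intro y hy h
  unfold Ys at hy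
  rw [mem_filter] at hy
  apply hy.2
  refine injOn_Y hI hX (mem_coe.mpr hy.1) (mem_coe.mpr ?_) ?_
  · rw [mem_bx]
    intro i
    simp
  · rw [h]
    simp [linN]

theorem Ys_small {e : ℕ} (J : Fin e → ℕ) {X : ℕ} (hX : 2 ≤ X) :
    ∀ y ∈ Ys J X, ∀ i, (X : ℝ) * y i ≤ (1 / X) * ((2 * J i + 1 : ℕ) : ℝ) := by
  intro y hy i
  unfold Ys at hy
  rw [mem_filter, mem_bx] at hy
  have h1 : y i ≤ (2 * J i + 1) / (X * X) := by have := hy.1 i; unfold Y1 at this; omega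
  have h2 : y i * (X * X) ≤ 2 * J i + 1 :=
    (Nat.mul_le_mul_right _ h1).trans (Nat.div_mul_le_self _ _)
  have h3 : (y i : ℝ) * (X * X) ≤ ((2 * J i + 1 : ℕ) : ℝ) := by exact_mod_cast h2
  have hX0 : (0 : ℝ) < X := by
    have : 0 < X := by omega
    exact_mod_cast this
  rw [one_div, inv_mul_eq_div, le_div_iff₀ hX0]
  linarith

theorem card_qb {p e : ℕ} {c : Fin e → ZMod p} {J : Fin e → ℕ} (hI : Inj c J) {X : ℕ}
    (hX : 2 ≤ X) : #(qb c (Y1 J X)) = ∏ i, (Y1 J X i + 1) := by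
  unfold qb
  rw [card_image_of_injOn (injOn_Y hI hX), card_bx]

theorem vol_le {p e : ℕ} {c : Fin e → ZMod p} {J : Fin e → ℕ} (hI : Inj c J) {X : ℕ}
    (hX : 2 ≤ X) : vol J ≤ (X : ℝ) ^ (2 * e) * #(qb c (Y1 J X)) := by
  rw [card_qb hI hX]
  unfold vol
  have h1 : ∏ i, (2 * (J i : ℝ) + 1) ≤ ∏ i : Fin e, ((X : ℝ) ^ 2 * ((Y1 J X i + 1 : ℕ) : ℝ)) := by
    refine prod_le_prod (fun i _ => by positivity) fun i _ => ?_
    have h2 : 2 * J i + 1 < X * X * ((2 * J i + 1) / (X * X) + 1) :=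
      Nat.lt_mul_div_succ _ (by positivity)
    have h3 : ((2 * J i + 1 : ℕ) : ℝ) ≤ ((X * X * ((2 * J i + 1) / (X * X) + 1) : ℕ) : ℝ) := by
      exact_mod_cast h2.le
    unfold Y1
    push_cast at h3 ⊢
    nlinarith
  rw [prod_mul_distrib, prod_const, card_univ, Fintype.card_fin, ← pow_mul] at h1
  refine h1.trans (le_of_eq ?_)
  push_cast
  rfl

theorem Ys_card {p e : ℕ} {c : Fin e → ZMod p} {J : Fin e → ℕ} (hI : Inj c J) {X : ℕ}
    (hX : 2 ≤ X) : #(Ys J X) + 1 = #(qb c (Y1 J X)) := by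
  rw [card_qb hI hX, ← card_bx]
  unfold Ys
  have h0 : (0 : Fin e → ℕ) ∈ bx fun i => Y1 J X i + 1 := by
    rw [mem_bx]
    intro i
    simp
  have h1 : (bx fun i => Y1 J X i + 1).filter (fun y => y ≠ 0) =
      (bx fun i => Y1 J X i + 1).erase 0 := by
    ext y
    rw [mem_filter, mem_erase, and_comm]
  rw [h1]
  exact card_erase_add_one h0

theorem dbl_qb {p e : ℕ} {c : Fin e → ZMod p} {J : Fin e → ℕ} (hI : Inj c J) {X : ℕ}
    (hX : 2 ≤ X) : #(qb c (Y1 J X) + qb c (Y1 J X)) ≤ 2 ^ e * #(qb c (Y1 J X)) := by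
  have h1 : qb c (Y1 J X) + qb c (Y1 J X) ⊆ qb c (fun i => 2 * Y1 J X i) := by
    intro z hz
    rw [mem_add] at hz
    obtain ⟨u, hu, v, hv, rfl⟩ := hz
    unfold qb at hu hv ⊢
    rw [mem_image] at hu hv ⊢
    obtain ⟨n, hn, rfl⟩ := hu
    obtain ⟨m, hm, rfl⟩ := hv
    rw [mem_bx] at hn hm
    refine ⟨fun i => n i + m i, ?_, ?_⟩
    · rw [mem_bx]
      intro i
      have h1 := hn i
      have h2 := hm i
      show n i + m i < 2 * Y1 J X i + 1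
      omega
    · unfold linN
      rw [← sum_add_distrib]
      refine sum_congr rfl fun i _ => ?_
      push_cast
      ring
  refine (card_le_card h1).trans ?_
  rw [card_qb hI hX]
  unfold qb
  refine card_image_le.trans ?_
  rw [card_bx]
  have h2 : ∏ i : Fin e, (2 * Y1 J X i + 1) ≤ ∏ i : Fin e, (2 * (Y1 J X i + 1)) :=
    prod_le_prod (fun i _ => by positivity) fun i _ => by omega
  rwa [prod_mul_distrib, prod_const, card_univ, Fintype.card_fin] at h2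

theorem qb_sub_Bx {p e : ℕ} {c : Fin e → ZMod p} {J : Fin e → ℕ} {X : ℕ} (hX : 2 ≤ X) :
    qb c (Y1 J X) ⊆ Bx c J := by
  refine (qb_sub c _).trans (Bx_mono fun i => Y1_le J X hX i)

theorem ME_mono {p : ℕ} (A : Finset (ZMod p)) {B B' : Finset (ZMod p)} (h : B ⊆ B') :
    ME A B ≤ ME A B' := by
  unfold ME
  refine card_le_card ?_
  intro q hq
  rw [mem_filter, mem_product, mem_product, mem_product] at hq ⊢
  exact ⟨⟨⟨hq.1.1.1, h hq.1.1.2⟩, hq.1.2.1, h hq.1.2.2⟩, hq.2⟩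

/-- the count -/
theorem N2B_le (hCNTB : SpecCNTB) {p : ℕ} [Fact p.Prime] {d e : ℕ} {b b' : Fin d → ZMod p}
    {H H' : Fin d → ℕ} {c : Fin e → ZMod p} {J : Fin e → ℕ} {x y : ZMod p} (hI : Inj c J) {X : ℕ}
    (hX : 2 ≤ X) (hcb : Bx c J ⊆ Bx b (fun i => 4 * H i)) :
    (N2B (((x +ᵥ Bx b H) + qb c J) ×ˢ ((y +ᵥ Bx b' H') + qb c J))
      (fun q => q.1 - q.2 + -linN c J) c (fun i => 2 * J i + 1) (Ys J X) : ℝ) ≤
      vol J ^ 2 * (#(((x +ᵥ Bx b (fun i => 13 * H i)) - (x +ᵥ Bx b (fun i => 13 * H i))) ∩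
      (((y +ᵥ Bx b' H') + qb c J) - ((y +ᵥ Bx b' H') + qb c J))) : ℝ) ^ 2 *
      ME (S2 b b' H H' c J x y (-linN c J)) (qb c (Y1 J X)) := by
  have h1 := hCNTB p e c (fun i => 2 * J i + 1) (Ys J X) ((x +ᵥ Bx b H) + qb c J)
    (x +ᵥ Bx b (fun i => 13 * H i)) ((y +ᵥ Bx b' H') + qb c J) (-linN c J)
    (A1_shift hcb) ((injOn_Y hI hX).mono (by
      intro n hn
      rw [mem_coe] at hn ⊢
      exact (mem_filter.mp hn).1)) (Ys_ne hI hX)
  have h2 : ME (((x +ᵥ Bx b (fun i => 13 * H i)) - ((y +ᵥ Bx b' H') + qb c J)).image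
      fun s => s + -linN c J) ((Ys J X).image (linN c)) ≤
      ME (S2 b b' H H' c J x y (-linN c J)) (qb c (Y1 J X)) := by
    refine ME_mono _ ?_
    unfold qb
    exact image_subset_image (filter_subset _ _)
  have h3 : (((∏ i, (2 * J i + 1) : ℕ)) : ℝ) = vol J := by
    unfold vol
    push_cast
    rfl
  have h4 := h1.trans (Nat.mul_le_mul_left _ h2)
  rw [← h3]
  exact_mod_cast h4

/-- the numbers -/
theorem num1 (N vJ m s Q M V pe sp q G C1 SS Yc : ℝ) (hs : 0 < s) (hQ : 0 < Q) (hV : 0 < V)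
    (hq : 0 < q) (hsp : 0 < sp) (hm : 0 ≤ m) (hpe : 0 ≤ pe) (hC1 : 0 ≤ C1) (hG : 0 ≤ G)
    (h1 : N ≤ vJ ^ 2 * m ^ 2 * M) (h2 : m * s ≤ C1 * V)
    (h3 : M ≤ pe * (s * Q * (1 + s / sp) + Q ^ 2)) (h4 : Q ≤ s) (h5 : V ≤ s * q)
    (h6 : q ≤ G * Q) (h7 : V ≤ SS) (h8 : Q ≤ 2 * Yc) :
    N * sp ≤ 8 * pe * C1 ^ 2 * G * (sp / V + 1 / q) * (SS * vJ * Yc) ^ 2 := by
  have hM : M ≤ 2 * pe * (s * Q * (1 + s / sp)) := by
    have e1 : Q ^ 2 ≤ s * Q * (1 + s / sp) := by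
      have e2 : 0 ≤ s / sp := by positivity
      have e3 : Q ^ 2 ≤ s * Q := by nlinarith
      have e4 : 0 ≤ s * Q := by positivity
      nlinarith
    nlinarith
  have hA : N * sp ≤ 2 * pe * vJ ^ 2 * C1 ^ 2 * V ^ 2 * (Q * (sp / s + 1)) := by
    have e1 : N ≤ vJ ^ 2 * m ^ 2 * (2 * pe * (s * Q * (1 + s / sp))) :=
      h1.trans (mul_le_mul_of_nonneg_left hM (by positivity))
    have e2 : N * sp ≤ vJ ^ 2 * m ^ 2 * (2 * pe * (s * Q * (1 + s / sp))) * sp :=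
      mul_le_mul_of_nonneg_right e1 hsp.le
    have e3 : vJ ^ 2 * m ^ 2 * (2 * pe * (s * Q * (1 + s / sp))) * sp =
        2 * pe * vJ ^ 2 * (Q * (sp / s + 1)) * (m * s) ^ 2 := by
      field_simp
    rw [e3] at e2
    refine e2.trans ?_
    have e4 : (m * s) ^ 2 ≤ (C1 * V) ^ 2 := pow_le_pow_left₀ (by positivity) h2 2
    calc 2 * pe * vJ ^ 2 * (Q * (sp / s + 1)) * (m * s) ^ 2
        ≤ 2 * pe * vJ ^ 2 * (Q * (sp / s + 1)) * (C1 * V) ^ 2 :=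
          mul_le_mul_of_nonneg_left e4 (by positivity)
      _ = _ := by ring
  have hB : Q * (sp / s + 1) ≤ Q ^ 2 * (G * (sp / V + 1 / q)) := by
    have e1 : sp / s ≤ Q * G * (sp / V) := by
      rw [div_le_iff₀ hs]
      have e2 : Q * G * (sp / V) * s = sp * ((s * (G * Q)) / V) := by ring
      rw [e2]
      have e3 : 1 ≤ (s * (G * Q)) / V := by
        rw [le_div_iff₀ hV, one_mul]
        exact h5.trans (mul_le_mul_of_nonneg_left h6 hs.le)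
      nlinarith
    have e2 : 1 ≤ Q * G * (1 / q) := by
      rw [mul_one_div, le_div_iff₀ hq]
      linarith
    have e3 : sp / s + 1 ≤ Q * G * (sp / V + 1 / q) := by
      have : Q * G * (sp / V + 1 / q) = Q * G * (sp / V) + Q * G * (1 / q) := by ring
      rw [this]
      exact add_le_add e1 e2
    calc Q * (sp / s + 1) ≤ Q * (Q * G * (sp / V + 1 / q)) :=
          mul_le_mul_of_nonneg_left e3 hQ.le
      _ = _ := by ring
  have hC : V ^ 2 * Q ^ 2 ≤ 4 * (SS * Yc) ^ 2 := by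
    have e1 : V * Q ≤ SS * (2 * Yc) := mul_le_mul h7 h8 hQ.le (hV.le.trans h7)
    have e2 : (V * Q) ^ 2 ≤ (SS * (2 * Yc)) ^ 2 := pow_le_pow_left₀ (by positivity) e1 2
    calc V ^ 2 * Q ^ 2 = (V * Q) ^ 2 := by ring
      _ ≤ (SS * (2 * Yc)) ^ 2 := e2
      _ = _ := by ring
  have hW : 0 ≤ sp / V + 1 / q := by positivity
  calc N * sp ≤ 2 * pe * vJ ^ 2 * C1 ^ 2 * V ^ 2 * (Q * (sp / s + 1)) := hA
    _ ≤ 2 * pe * vJ ^ 2 * C1 ^ 2 * V ^ 2 * (Q ^ 2 * (G * (sp / V + 1 / q))) :=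
        mul_le_mul_of_nonneg_left hB (by positivity)
    _ = 2 * pe * vJ ^ 2 * C1 ^ 2 * (G * (sp / V + 1 / q)) * (V ^ 2 * Q ^ 2) := by ring
    _ ≤ 2 * pe * vJ ^ 2 * C1 ^ 2 * (G * (sp / V + 1 / q)) * (4 * (SS * Yc) ^ 2) :=
        mul_le_mul_of_nonneg_left hC (by positivity)
    _ = _ := by ring

end C2

end MPcb27.TU
end

section
/-!
# MP_cb27ba_nt, project TU: module CASE2 (two boxes with many common differences)
-/
set_option autoImplicit false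

namespace MPcb27.TU

open Finset
open scoped Pointwise

namespace C2

/-- the end of the argument -/
theorem num3 (T PJ vJ SF nS w AB V K t1 t2 : ℝ) (hPJ : 0 < PJ) (hAB : 0 ≤ AB)
    (hw : 0 ≤ w) (hnS : 0 ≤ nS) {E D : ℝ} (hE : 0 ≤ E)
    (h1 : PJ ^ 2 * T ^ 2 ≤ SF * AB) (h2 : SF ≤ vJ * (nS * vJ * w)) (h3 : vJ ^ 2 ≤ E * PJ ^ 2)
    (h4 : nS ≤ D * V) (hV : 0 ≤ V) (h5 : w ≤ K * t1) (h6 : E * D * K * t1 ≤ t2) (hD : 0 ≤ D) :
    T ^ 2 ≤ t2 * V * AB := by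
  have e1 : PJ ^ 2 * T ^ 2 ≤ PJ ^ 2 * (E * nS * w * AB) := by
    calc PJ ^ 2 * T ^ 2 ≤ SF * AB := h1
      _ ≤ vJ * (nS * vJ * w) * AB := mul_le_mul_of_nonneg_right h2 hAB
      _ = vJ ^ 2 * (nS * w * AB) := by ring
      _ ≤ E * PJ ^ 2 * (nS * w * AB) := mul_le_mul_of_nonneg_right h3 (by positivity)
      _ = _ := by ring
  have e2 : T ^ 2 ≤ E * nS * w * AB := le_of_mul_le_mul_left e1 (by positivity)
  refine e2.trans ?_
  calc E * nS * w * AB ≤ E * (D * V) * (K * t1) * AB := by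
        apply mul_le_mul_of_nonneg_right _ hAB
        apply mul_le_mul _ h5 hw (by positivity)
        exact mul_le_mul_of_nonneg_left h4 hE
    _ = (E * D * K * t1) * V * AB := by ring
    _ ≤ t2 * V * AB := by
        apply mul_le_mul_of_nonneg_right _ hAB
        exact mul_le_mul_of_nonneg_right h6 hV

theorem ceil_le_two {x : ℝ} (hx : 1 ≤ x) : (⌈x⌉₊ : ℝ) ≤ 2 * x := by
  have := Nat.ceil_lt_add_one (show 0 ≤ x by linarith)
  linarith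

/-- powers -/
theorem pow1 {p x κ t : ℝ} (hp0 : 0 < p) (hp1 : 1 ≤ p) (hx0 : 0 ≤ x) {a : ℝ} (ha : 0 ≤ a)
    (hx : x ≤ a * p ^ κ) (n : ℕ) (ht : κ * n ≤ t) : x ^ n ≤ a ^ n * p ^ t := by
  calc x ^ n ≤ (a * p ^ κ) ^ n := pow_le_pow_left₀ hx0 hx _
    _ = a ^ n * p ^ (κ * n) := by
        rw [mul_pow, ← Real.rpow_natCast (p ^ κ), ← Real.rpow_mul hp0.le]
    _ ≤ a ^ n * p ^ t :=
        mul_le_mul_of_nonneg_left (Real.rpow_le_rpow_of_exponent_le hp1 ht) (by positivity)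

/-- the size of the constant `G` -/
theorem Gsize {p L X κ κ3 δ Ce : ℝ} (hp0 : 0 < p) (hp1 : 1 ≤ p) (hL0 : 0 ≤ L) (hX0 : 0 ≤ X)
    (hCe : 0 ≤ Ce) (hL : L ≤ 2 * p ^ κ) (hX : X ≤ 2 * p ^ κ3) (d e m : ℕ)
    (hκ : κ * ((d + d : ℕ) : ℝ) ≤ δ / 32) (hκ3 : κ3 * ((2 * e + m : ℕ) : ℝ) ≤ δ / 32) :
    (4 * L) ^ (d + d) * Ce * X ^ (2 * e) * X ^ m ≤
      8 ^ (d + d) * Ce * 2 ^ (2 * e + m) * p ^ (δ / 16) := by
  have h1 : (4 * L) ^ (d + d) ≤ 8 ^ (d + d) * p ^ (δ / 32) :=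
    pow1 hp0 hp1 (by positivity) (by norm_num) (by linarith) _ hκ
  have h2 : X ^ (2 * e + m) ≤ 2 ^ (2 * e + m) * p ^ (δ / 32) :=
    pow1 hp0 hp1 hX0 (by norm_num) hX _ hκ3
  calc (4 * L) ^ (d + d) * Ce * X ^ (2 * e) * X ^ m = (4 * L) ^ (d + d) * Ce * X ^ (2 * e + m) := by
        rw [pow_add]; ring
    _ ≤ (8 ^ (d + d) * p ^ (δ / 32)) * Ce * (2 ^ (2 * e + m) * p ^ (δ / 32)) := by
        apply mul_le_mul _ h2 (by positivity) (by positivity)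
        exact mul_le_mul_of_nonneg_right h1 hCe
    _ = 8 ^ (d + d) * Ce * 2 ^ (2 * e + m) * (p ^ (δ / 32) * p ^ (δ / 32)) := by ring
    _ = _ := by
        rw [← Real.rpow_add hp0]
        congr 2
        ring

/-- the coefficient in Hoelder's inequality -/
theorem coef {p X δ G V q sp Cr C1 k0 k1 : ℝ} (hp0 : 0 < p) (hp1 : 1 ≤ p) (hδ : 0 ≤ δ)
    (hsp : sp = p ^ (1 / 2 : ℝ)) (hG : 0 ≤ G) (hCr : 0 ≤ Cr) (hC1 : 0 ≤ C1) (hk0 : 0 ≤ k0)
    (hGX : G * X ^ 2 ≤ k0 * p ^ (δ / 16)) (hV : p ^ (1 / 2 + 2 * δ) ≤ V) (hq : p ^ (δ / 2) ≤ q)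
    (hk1 : 16 * Cr * C1 ^ 2 * k0 = k1) (hk : k1 ≤ p ^ (3 * δ / 64)) :
    Cr * X ^ 2 * (8 * p ^ (δ / 64) * C1 ^ 2 * G * (sp / V + 1 / q)) ≤ p ^ (-(3 * δ / 8)) := by
  have hV0 : 0 < V := lt_of_lt_of_le (by positivity) hV
  have hq0 : 0 < q := lt_of_lt_of_le (by positivity) hq
  have hsp0 : 0 ≤ sp := by rw [hsp]; positivity
  have hfrac : sp / V + 1 / q ≤ 2 * p ^ (-(δ / 2)) := by
    have h1 : sp / V ≤ p ^ (-(δ / 2)) := by
      rw [div_le_iff₀ hV0, hsp]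
      calc p ^ ((1 : ℝ) / 2) ≤ p ^ (-(δ / 2) + (1 / 2 + 2 * δ)) :=
            Real.rpow_le_rpow_of_exponent_le hp1 (by linarith)
        _ = p ^ (-(δ / 2)) * p ^ (1 / 2 + 2 * δ) := Real.rpow_add hp0 _ _
        _ ≤ _ := mul_le_mul_of_nonneg_left hV (by positivity)
    have h2 : 1 / q ≤ p ^ (-(δ / 2)) := by
      rw [Real.rpow_neg hp0.le, ← one_div]
      exact one_div_le_one_div_of_le (by positivity) hq
    linarith
  calc Cr * X ^ 2 * (8 * p ^ (δ / 64) * C1 ^ 2 * G * (sp / V + 1 / q))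
      = (8 * Cr * C1 ^ 2 * p ^ (δ / 64)) * (G * X ^ 2) * (sp / V + 1 / q) := by ring
    _ ≤ (8 * Cr * C1 ^ 2 * p ^ (δ / 64)) * (k0 * p ^ (δ / 16)) * (2 * p ^ (-(δ / 2))) := by
        apply mul_le_mul _ hfrac (by positivity) (by positivity)
        exact mul_le_mul_of_nonneg_left hGX (by positivity)
    _ = k1 * (p ^ (δ / 64) * p ^ (δ / 16) * p ^ (-(δ / 2))) := by
        rw [← hk1]; ring
    _ ≤ p ^ (3 * δ / 64) * (p ^ (δ / 64) * p ^ (δ / 16) * p ^ (-(δ / 2))) :=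
        mul_le_mul_of_nonneg_right hk (by positivity)
    _ = p ^ (3 * δ / 64 + (δ / 64 + δ / 16 + -(δ / 2))) := by
        rw [← Real.rpow_add hp0, ← Real.rpow_add hp0, ← Real.rpow_add hp0]
    _ ≤ p ^ (-(3 * δ / 8)) := Real.rpow_le_rpow_of_exponent_le hp1 (by linarith)

theorem vol_sq {e : ℕ} (J : Fin e → ℕ) : vol J ^ 2 ≤ 4 ^ e * (∏ i, ((J i : ℝ) + 1)) ^ 2 := by
  have h1 : vol J ≤ 2 ^ e * ∏ i, ((J i : ℝ) + 1) := by
    unfold vol
    have h2 : ∏ i : Fin e, (2 * (J i : ℝ) + 1) ≤ ∏ i : Fin e, (2 * ((J i : ℝ) + 1)) :=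
      prod_le_prod (fun i _ => by positivity) fun i _ => by linarith
    rwa [prod_mul_distrib, prod_const, card_univ, Fintype.card_fin] at h2
  calc vol J ^ 2 ≤ (2 ^ e * ∏ i, ((J i : ℝ) + 1)) ^ 2 :=
        pow_le_pow_left₀ (vol_pos J).le h1 2
    _ = _ := by
        rw [mul_pow, ← pow_mul, mul_comm e 2, pow_mul]
        norm_num

theorem volN {e : ℕ} (J : Fin e → ℕ) : (∏ i, ((2 * J i + 1 : ℕ) : ℝ)) = vol J := by
  unfold vol
  push_cast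
  rfl

/-- TRB and HOB together -/
theorem analytic (hTRB : SpecTRB) {p : ℕ} [Fact p.Prime] {e : ℕ} {c : Fin e → ZMod p}
    {J : Fin e → ℕ} (hI : Inj c J) (A0 B0 : Finset (ZMod p)) (χ : MulChar (ZMod p) ℂ)
    {X : ℕ} {ρ : ℝ}
    (hHO : ∀ ψ : ZMod p × ZMod p → AddChar (ZMod p) ℂ,
      ∑ i ∈ (A0 + qb c J) ×ˢ (B0 + qb c J), ‖∑ n ∈ bx (fun i => 2 * J i + 1),
        χ ((i.1 - i.2 + -linN c J) + linN c n) * ψ i (linN c n)‖ ≤
        #((A0 + qb c J) ×ˢ (B0 + qb c J)) * vol J * (ρ + 7 / X + 2 * e * (1 / X)))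
    {V K t1 t2 D : ℝ} (hV : 0 ≤ V) (hD : 0 ≤ D) (hρ : 0 ≤ ρ)
    (hcard : (#((A0 + qb c J) ×ˢ (B0 + qb c J)) : ℝ) ≤ D * V)
    (h5 : ρ + 7 / X + 2 * e * (1 / X) ≤ K * t1) (h6 : 4 ^ e * D * K * t1 ≤ t2)
    (α β : ZMod p → ℂ) :
    ‖∑ a ∈ A0, ∑ b ∈ B0, α a * β b * χ (a - b)‖ ^ 2 ≤
      t2 * V * ((∑ a ∈ A0, ‖α a‖ ^ 2) * ∑ b ∈ B0, ‖β b‖ ^ 2) := by
  obtain ⟨ψ, hψ⟩ := hTRB p e c J hI A0 B0 α β χ
  have hHO1 := hHO ψ
  set S := (A0 + qb c J) ×ˢ (B0 + qb c J) with hS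
  set F : ZMod p × ZMod p → ℝ := fun q => ‖∑ n ∈ bx (fun i => 2 * J i + 1),
    χ ((q.1 - q.2 + -linN c J) + linN c n) * ψ q (linN c n)‖ with hF
  have hF1 : ∀ q, F q ≤ vol J := by
    intro q
    refine (norm_sum_le _ _).trans ?_
    have h1 : ∑ n ∈ bx (fun i => 2 * J i + 1), ‖χ ((q.1 - q.2 + -linN c J) + linN c n) *
        ψ q (linN c n)‖ ≤ ∑ n ∈ bx (fun i => 2 * J i + 1), (1 : ℝ) := by
      refine sum_le_sum fun n _ => ?_
      rw [norm_mul, AddChar.norm_apply, mul_one]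
      exact DirichletCharacter.norm_le_one χ _
    refine h1.trans (le_of_eq ?_)
    rw [sum_const, nsmul_eq_mul, mul_one, card_bx, ← volN]
    push_cast
    rfl
  have hSF : ∑ q ∈ S, F q ^ 2 ≤ vol J * ((#S : ℝ) * vol J * (ρ + 7 / X + 2 * e * (1 / X))) := by
    have h1 : ∑ q ∈ S, F q ^ 2 ≤ vol J * ∑ q ∈ S, F q := by
      rw [mul_sum]
      refine sum_le_sum fun q _ => ?_
      rw [sq]
      exact mul_le_mul_of_nonneg_right (hF1 q) (norm_nonneg _)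
    exact h1.trans (mul_le_mul_of_nonneg_left hHO1 (vol_pos J).le)
  exact num3 _ (∏ i, ((J i : ℝ) + 1)) (vol J) (∑ q ∈ S, F q ^ 2) (#S : ℝ)
    (ρ + 7 / X + 2 * e * (1 / X)) _ V K t1 t2
    (prod_pos fun i _ => by positivity) (by positivity) (by positivity) (Nat.cast_nonneg _)
    (E := 4 ^ e) (D := D) (by positivity) hψ hSF (vol_sq J) hcard hV h5 h6 hD

theorem sqrt_end {p τ V a b T : ℝ} (hp0 : 0 < p) (hV : 0 ≤ V) (ha : 0 ≤ a) (hb : 0 ≤ b)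
    (h : T ^ 2 ≤ p ^ (-(2 * τ)) * V * (a * b)) :
    T ≤ p ^ (-τ) * Real.sqrt V * (Real.sqrt a * Real.sqrt b) := by
  have e9 : p ^ (-τ) = Real.sqrt (p ^ (-(2 * τ))) := by
    rw [Real.sqrt_eq_rpow, ← Real.rpow_mul hp0.le]
    congr 1
    ring
  rw [e9, ← Real.sqrt_mul (by positivity), ← Real.sqrt_mul ha, ← Real.sqrt_mul (by positivity)]
  exact Real.le_sqrt_of_sq_le h

/-- the hypothesis of `analytic` -/
theorem holderPart (hBOX : SpecBOX) (hGRP : SpecGRP) (hCNTB : SpecCNTB) {p : ℕ} [Fact p.Prime]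
    {d e r : ℕ} {b b' : Fin d → ZMod p} {H H' : Fin d → ℕ} {c : Fin e → ZMod p} {J : Fin e → ℕ}
    {x y : ZMod p} (hI : Inj b H) (hI' : Inj b' H') (hIc : Inj c J)
    (hcb : Bx c J ⊆ Bx b (fun i => 4 * H i)) (hcb' : Bx c J ⊆ Bx b' (fun i => 4 * H' i))
    {X : ℕ} (hX : 2 ≤ X) (χ : MulChar (ZMod p) ℂ) {Cr ρ pe G : ℝ} (hCr : 0 ≤ Cr) (hρ : 0 ≤ ρ)
    (hpe : 0 ≤ pe) (hG : 0 ≤ G)
    (hHOB : ∀ (ι : Type) (S : Finset ι) (z : ι → ZMod p) (ψ : ι → AddChar (ZMod p) ℂ) (e : ℕ)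
      (c : Fin e → ZMod p) (M : Fin e → ℕ) (Y : Finset (Fin e → ℕ)) (ε : ℝ),
      Y.Nonempty → (∀ y ∈ Y, linN c y ≠ 0) →
      0 ≤ ε → ε ≤ 1 → (∀ y ∈ Y, ∀ i, (X : ℝ) * y i ≤ ε * M i) →
      Cr * N2B S z c M Y * (X : ℝ) ^ 2 * Real.sqrt p ≤
        ρ ^ (2 * r) * ((#S : ℝ) * (∏ i, (M i : ℝ)) * #Y) ^ 2 →
      ∑ i ∈ S, ‖∑ n ∈ bx M, χ (z i + linN c n) * ψ i (linN c n)‖ ≤
        #S * (∏ i, (M i : ℝ)) * (ρ + 7 / X + 2 * e * ε))
    (hME : (ME (S2 b b' H H' c J x y (-linN c J)) (qb c (Y1 J X)) : ℝ) ≤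
      pe * ((#(S2 b b' H H' c J x y (-linN c J)) : ℝ) * #(qb c (Y1 J X)) *
        (1 + #(S2 b b' H H' c J x y (-linN c J)) / Real.sqrt p) + (#(qb c (Y1 J X)) : ℝ) ^ 2))
    (hq0 : 0 < (#(Bx b (fun i => 2 * H i) ∩ Bx b' (fun i => 2 * H' i)) : ℝ))
    (hqG : (#(Bx b (fun i => 2 * H i) ∩ Bx b' (fun i => 2 * H' i)) : ℝ) ≤
      G * #(qb c (Y1 J X)))
    (hQ2 : 2 ≤ (#(qb c (Y1 J X)) : ℝ))
    (hcoef : Cr * (X : ℝ) ^ 2 * (8 * pe * (39 ^ d * 15 ^ d) ^ 2 * G *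
      (Real.sqrt p / (vol H * vol H') +
        1 / (#(Bx b (fun i => 2 * H i) ∩ Bx b' (fun i => 2 * H' i)) : ℝ))) ≤ ρ ^ (2 * r))
    (ψ : ZMod p × ZMod p → AddChar (ZMod p) ℂ) :
    ∑ i ∈ ((x +ᵥ Bx b H) + qb c J) ×ˢ ((y +ᵥ Bx b' H') + qb c J),
      ‖∑ n ∈ bx (fun i => 2 * J i + 1),
        χ ((i.1 - i.2 + -linN c J) + linN c n) * ψ i (linN c n)‖ ≤
        #(((x +ᵥ Bx b H) + qb c J) ×ˢ ((y +ᵥ Bx b' H') + qb c J)) * vol J *
          (ρ + 7 / X + 2 * e * (1 / X)) := by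
  have hp0 : (0 : ℝ) < p := by exact_mod_cast (Fact.out : p.Prime).pos
  have hsp : 0 < Real.sqrt p := Real.sqrt_pos.mpr hp0
  have hvH := vol_pos H
  have hvH' := vol_pos H'
  have hX0 : (0 : ℝ) < X := by
    have : 0 < X := by omega
    exact_mod_cast this
  have hYc1 : (#(Ys J X) : ℝ) + 1 = #(qb c (Y1 J X)) := by exact_mod_cast Ys_card hIc hX
  have hYc : (#(qb c (Y1 J X)) : ℝ) ≤ 2 * (#(Ys J X) : ℝ) := by linarith
  have hYne : (Ys J X).Nonempty := by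
    rw [← card_pos]
    have : (0 : ℝ) < #(Ys J X) := by linarith
    exact_mod_cast this
  have hs0 : 0 < (#(S2 b b' H H' c J x y (-linN c J)) : ℝ) := by
    exact_mod_cast (S2_nonempty (b := b) (b' := b') (H := H) (H' := H') (c := c) (J := J)
      (x := x) (y := y) (-linN c J)).card_pos
  have hQs : (#(qb c (Y1 J X)) : ℝ) ≤ #(S2 b b' H H' c J x y (-linN c J)) := by
    exact_mod_cast le_S2 (-linN c J) ((qb_sub_Bx hX).trans hcb)
  have hSS1 : vol H * vol H' ≤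
      (#(((x +ᵥ Bx b H) + qb c J) ×ˢ ((y +ᵥ Bx b' H') + qb c J)) : ℝ) := by
    rw [card_product]
    push_cast
    exact mul_le_mul (card_A1_ge hBOX hI) (card_A1_ge hBOX hI') hvH'.le (Nat.cast_nonneg _)
  have hnum := num1 _ (vol J) _ _ _ _ (vol H * vol H') pe (Real.sqrt p) _ G (39 ^ d * 15 ^ d)
    (#(((x +ᵥ Bx b H) + qb c J) ×ˢ ((y +ᵥ Bx b' H') + qb c J)) : ℝ) (#(Ys J X) : ℝ) hs0
    (by linarith) (mul_pos hvH hvH') hq0 hsp (Nat.cast_nonneg _) hpe (by positivity) hG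
    (N2B_le hCNTB (b' := b') (H' := H') (x := x) (y := y) hIc hX hcb)
    (mult_le hBOX hGRP (-linN c J) hcb') hME hQs (S2_ge hBOX hGRP hI hI' (-linN c J)) hqG
    hSS1 hYc
  have h := hHOB (ZMod p × ZMod p) (((x +ᵥ Bx b H) + qb c J) ×ˢ ((y +ᵥ Bx b' H') + qb c J))
    (fun q => q.1 - q.2 + -linN c J) ψ e c (fun i => 2 * J i + 1) (Ys J X) (1 / X)
    hYne (Ys_ne hIc hX) (by positivity)
    (by rw [div_le_one hX0]; exact_mod_cast (by omega : 1 ≤ X)) (Ys_small J hX) ?_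
  · rw [volN] at h
    exact h
  · rw [volN]
    refine le_trans (le_of_eq ?_) ((mul_le_mul_of_nonneg_left hnum
      (by positivity : 0 ≤ Cr * (X : ℝ) ^ 2)).trans ?_)
    · ring
    · refine le_trans (le_of_eq ?_) (mul_le_mul_of_nonneg_right hcoef (by positivity))
      ring

/-- the parameters -/
theorem params (d e r0 : ℕ) {δ : ℝ} (hδ : 0 < δ) (hδ1 : δ ≤ 1 / 16)
    (hr0 : 1 / (2 * (δ / (64 * ((e : ℝ) + 1)))) ≤ r0) :
    ∃ κ κ3 σ τ : ℝ, 0 < κ ∧ 0 < κ3 ∧ 0 < τ ∧ 4 * τ ≤ σ ∧ 4 * τ ≤ κ3 ∧ κ3 ≤ δ / 64 ∧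
      κ * ((d + d : ℕ) : ℝ) ≤ δ / 32 ∧ κ3 * ((2 * e + 2 : ℕ) : ℝ) ≤ δ / 32 ∧
      κ3 * ((2 * e + 0 : ℕ) : ℝ) ≤ δ / 32 ∧ 1 / 2 ≤ κ3 * ((r0 + 1 : ℕ) : ℝ) ∧
      σ * ((2 * (r0 + 1) : ℕ) : ℝ) = 3 * δ / 8 ∧ κ3 ≤ 1 / 2 := by
  have he0 : (0 : ℝ) ≤ e := Nat.cast_nonneg _
  have hd0 : (0 : ℝ) ≤ d := Nat.cast_nonneg _
  set κ3 : ℝ := δ / (64 * ((e : ℝ) + 1)) with hκ3
  have hκ30 : 0 < κ3 := by positivity
  have hκ3δ : κ3 ≤ δ / 64 := by
    rw [hκ3]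
    apply div_le_div_of_nonneg_left hδ.le (by norm_num)
    linarith
  have hκe : κ3 * (2 * e + 2) = δ / 32 := by
    rw [hκ3]; field_simp; ring
  set σ : ℝ := 3 * δ / (16 * ((r0 : ℝ) + 1)) with hσ
  have hr : (0 : ℝ) < (r0 : ℝ) + 1 := by positivity
  have hσ0 : 0 < σ := by positivity
  have hmin := lt_min hσ0 hκ30
  refine ⟨δ / (64 * ((d : ℝ) + 1)), κ3, σ, min σ κ3 / 4, by positivity, hκ30, by positivity, ?_, ?_,
    hκ3δ, ?_, ?_, ?_, ?_, ?_, by linarith⟩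
  · linarith [min_le_left σ κ3]
  · linarith [min_le_right σ κ3]
  · push_cast
    rw [div_mul_eq_mul_div, div_le_div_iff₀ (by positivity) (by norm_num)]
    nlinarith
  · push_cast
    exact hκe.le
  · push_cast
    nlinarith
  · push_cast
    rw [div_le_iff₀ (by positivity)] at hr0
    nlinarith
  · push_cast
    rw [hσ]
    field_simp
    ring

end C2

open C2

theorem specCASE2 (hBOX : SpecBOX) (hCOV : SpecCOV) (hGRP : SpecGRP) (hTRB : SpecTRB)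
    (hHOB : SpecHOB) (hCNTB : SpecCNTB) (hENM : SpecENM) (hFr : SpecFr) : SpecCASE2 := by
  classical
  intro d δ hδ hδ1
  obtain ⟨e, Ce0, hFr'⟩ := hFr ((4 : ℝ) ^ (d + d))
  obtain ⟨Ce, hCe1, hCe0⟩ : ∃ Ce : ℝ, 1 ≤ Ce ∧ Ce0 ≤ Ce := ⟨max Ce0 1, le_max_right _ _, le_max_left _ _⟩
  obtain ⟨r0, hr0⟩ := exists_nat_ge (1 / (2 * (δ / (64 * ((e : ℝ) + 1)))))
  obtain ⟨κ, κ3, σ, τ, hκ0, hκ30, hτ0, hτσ, hτκ, hκ3δ, hκd, hκe2, hκe0, hrκ, hσr, hκ3h⟩ :=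
    params d e r0 hδ hδ1 hr0
  obtain ⟨Cr, hCr, hHOB'⟩ := hHOB (r0 + 1) (by omega)
  obtain ⟨P1, hENM'⟩ := hENM (max ((52 : ℝ) ^ (d + d)) (2 ^ e)) (δ / 64) (by positivity)
  obtain ⟨K, hK_1, hK_2, hK_3, hK_4, hK_5, hK_6⟩ : ∃ K : ℝ,
      16 * Cr * (39 ^ d * 15 ^ d) ^ 2 * (8 ^ (d + d) * Ce * 2 ^ (2 * e + 2)) ≤ K ∧
      2 * (8 ^ (d + d) * Ce * 2 ^ (2 * e + 0)) ≤ K ∧
      9 * (13 ^ d * 5 ^ d) ≤ K ∧ 3 * 4 ^ d ≤ K ∧
      4 ^ e * (5 ^ d * 5 ^ d) * (8 + 2 * (e : ℝ)) ≤ K ∧ 2 ≤ K := by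
    refine ⟨16 * Cr * (39 ^ d * 15 ^ d) ^ 2 * (8 ^ (d + d) * Ce * 2 ^ (2 * e + 2)) +
      2 * (8 ^ (d + d) * Ce * 2 ^ (2 * e + 0)) + 9 * (13 ^ d * 5 ^ d) + 3 * 4 ^ d +
      4 ^ e * (5 ^ d * 5 ^ d) * (8 + 2 * (e : ℝ)) + 2, ?_⟩
    have h1 : 0 ≤ 16 * Cr * (39 ^ d * 15 ^ d) ^ 2 * (8 ^ (d + d) * Ce * 2 ^ (2 * e + 2)) := by
      positivity
    have h2 : 0 ≤ 2 * (8 ^ (d + d) * Ce * 2 ^ (2 * e + 0)) := by positivity
    have h3 : (0 : ℝ) ≤ 9 * (13 ^ d * 5 ^ d) := by positivity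
    have h4 : (0 : ℝ) ≤ 3 * 4 ^ d := by positivity
    have h5 : 0 ≤ 4 ^ e * (5 ^ d * 5 ^ d) * (8 + 2 * (e : ℝ)) := by positivity
    refine ⟨?_, ?_, ?_, ?_, ?_, ?_⟩ <;> linarith
  have htend : Filter.Tendsto (fun n : ℕ => (n : ℝ) ^ (2 * τ)) Filter.atTop Filter.atTop :=
    (tendsto_rpow_atTop (by positivity)).comp tendsto_natCast_atTop_atTop
  obtain ⟨P2, hP2⟩ := Filter.eventually_atTop.mp
    (htend.eventually (Filter.eventually_ge_atTop K))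
  refine ⟨τ, hτ0, max P1 (max P2 2), ?_⟩
  intro p _ hp b b' H H' hTwo hq x y χ hχ α β
  obtain ⟨hI, hI', hV1, hV2, hV1', hV2'⟩ := hTwo
  have hpP1 : P1 ≤ p := (le_max_left _ _).trans hp
  have hpP2 : P2 ≤ p := ((le_max_left _ _).trans (le_max_right _ _)).trans hp
  have hp2 : 2 ≤ p := ((le_max_right _ _).trans (le_max_right _ _)).trans hp
  have hp1 : (1 : ℝ) ≤ p := by exact_mod_cast (by omega : 1 ≤ p)
  have hp0 : (0 : ℝ) < p := by linarith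
  have hKs : ∀ s : ℝ, 2 * τ ≤ s → K ≤ (p : ℝ) ^ s := fun s hs =>
    (hP2 p hpP2).trans (Real.rpow_le_rpow_of_exponent_le hp1 hs)
  -- `L`, `X`
  have hpκ : 1 ≤ (p : ℝ) ^ κ := Real.one_le_rpow hp1 hκ0.le
  have hpκ3 : 2 ≤ (p : ℝ) ^ κ3 := hK_6.trans (hKs κ3 (by linarith))
  obtain ⟨L, hL1, hL2⟩ : ∃ L : ℕ, 1 ≤ L ∧ (L : ℝ) ≤ 2 * (p : ℝ) ^ κ :=
    ⟨⌈(p : ℝ) ^ κ⌉₊, Nat.one_le_ceil_iff.mpr (by linarith), ceil_le_two hpκ⟩
  obtain ⟨X, hX1, hX2⟩ : ∃ X : ℕ, (p : ℝ) ^ κ3 ≤ X ∧ (X : ℝ) ≤ 2 * (p : ℝ) ^ κ3 :=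
    ⟨⌈(p : ℝ) ^ κ3⌉₊, Nat.le_ceil _, ceil_le_two (by linarith)⟩
  have hXtwo : 2 ≤ X := by exact_mod_cast hpκ3.trans hX1
  have hX0 : (0 : ℝ) < X := lt_of_lt_of_le (by norm_num) (hpκ3.trans hX1)
  have hXp : X ≤ p := by
    have h1 : (X : ℝ) ≤ (p : ℝ) ^ (1 : ℝ) := by
      calc (X : ℝ) ≤ 2 * (p : ℝ) ^ κ3 := hX2
        _ ≤ (p : ℝ) ^ κ3 * (p : ℝ) ^ κ3 := mul_le_mul_of_nonneg_right hpκ3 (by positivity)
        _ = (p : ℝ) ^ (κ3 + κ3) := (Real.rpow_add hp0 _ _).symm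
        _ ≤ (p : ℝ) ^ (1 : ℝ) := Real.rpow_le_rpow_of_exponent_le hp1 (by linarith)
    rw [Real.rpow_one] at h1
    exact_mod_cast h1
  have hXr : Real.sqrt p ≤ (X : ℝ) ^ (r0 + 1) := by
    rw [Real.sqrt_eq_rpow]
    calc (p : ℝ) ^ ((1 : ℝ) / 2) ≤ (p : ℝ) ^ (κ3 * ((r0 + 1 : ℕ) : ℝ)) :=
          Real.rpow_le_rpow_of_exponent_le hp1 hrκ
      _ = ((p : ℝ) ^ κ3) ^ (r0 + 1) := by rw [Real.rpow_mul hp0.le, Real.rpow_natCast]
      _ ≤ (X : ℝ) ^ (r0 + 1) := pow_le_pow_left₀ (by positivity) hX1 _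
  -- Freiman's theorem
  obtain ⟨c, J, hc1, hIc, hc3⟩ := hFr' p (Zs b b' H H' L) (Zs_nonempty _ _ _ _ _) (by
    exact_mod_cast cov_Z hCOV b b' H H' L)
  obtain ⟨hcb, hcb'⟩ := sub_four hc1
  have hq0 : 0 < (#(Bx b (fun i => 2 * H i) ∩ Bx b' (fun i => 2 * H' i)) : ℝ) :=
    lt_of_lt_of_le (by positivity) hq
  have hqG : (#(Bx b (fun i => 2 * H i) ∩ Bx b' (fun i => 2 * H' i)) : ℝ) ≤
      ((4 * L) ^ (d + d) * Ce * (X : ℝ) ^ (2 * e)) * #(qb c (Y1 J X)) := by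
    have h1 : (#(Bx b (fun i => 2 * H i) ∩ Bx b' (fun i => 2 * H' i)) : ℝ) ≤
        (4 * L) ^ (d + d) * (#(Zs b b' H H' L) : ℝ) := by
      exact_mod_cast cov_q hCOV b b' H H' L hL1
    have h2 : (#(Zs b b' H H' L) : ℝ) ≤ Ce * vol J :=
      hc3.trans (mul_le_mul_of_nonneg_right hCe0 (vol_pos J).le)
    have h3 : vol J ≤ (X : ℝ) ^ (2 * e) * #(qb c (Y1 J X)) := vol_le hIc hXtwo
    calc _ ≤ (4 * L) ^ (d + d) * (#(Zs b b' H H' L) : ℝ) := h1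
      _ ≤ (4 * L) ^ (d + d) * (Ce * ((X : ℝ) ^ (2 * e) * #(qb c (Y1 J X)))) := by
          apply mul_le_mul_of_nonneg_left _ (by positivity)
          exact h2.trans (mul_le_mul_of_nonneg_left h3 (by linarith))
      _ = _ := by ring
  have hGX := Gsize hp0 hp1 (Nat.cast_nonneg L) hX0.le (by linarith : 0 ≤ Ce) hL2 hX2 d e 2
    hκd hκe2
  have hGX0 := Gsize hp0 hp1 (Nat.cast_nonneg L) hX0.le (by linarith : 0 ≤ Ce) hL2 hX2 d e 0
    hκd hκe0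
  rw [pow_zero, mul_one] at hGX0
  -- `Q ≥ 2`
  have hQ2 : 2 ≤ (#(qb c (Y1 J X)) : ℝ) := by
    by_contra hcon
    rw [not_le] at hcon
    have h3 : (#(Bx b (fun i => 2 * H i) ∩ Bx b' (fun i => 2 * H' i)) : ℝ) < (p : ℝ) ^ (δ / 2) := by
      calc _ ≤ ((4 * L) ^ (d + d) * Ce * (X : ℝ) ^ (2 * e)) * #(qb c (Y1 J X)) := hqG
        _ ≤ ((4 * L) ^ (d + d) * Ce * (X : ℝ) ^ (2 * e)) * 2 :=
            mul_le_mul_of_nonneg_left hcon.le (by positivity)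
        _ ≤ (8 ^ (d + d) * Ce * 2 ^ (2 * e + 0) * (p : ℝ) ^ (δ / 16)) * 2 :=
            mul_le_mul_of_nonneg_right hGX0 (by norm_num)
        _ = 2 * (8 ^ (d + d) * Ce * 2 ^ (2 * e + 0)) * (p : ℝ) ^ (δ / 16) := by ring
        _ ≤ (p : ℝ) ^ (2 * τ) * (p : ℝ) ^ (δ / 16) :=
            mul_le_mul_of_nonneg_right (hK_2.trans (hKs _ le_rfl)) (by positivity)
        _ = (p : ℝ) ^ (2 * τ + δ / 16) := (Real.rpow_add hp0 _ _).symm
        _ < (p : ℝ) ^ (δ / 2) := by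
            apply Real.rpow_lt_rpow_of_exponent_lt
            · exact_mod_cast (by omega : 1 < p)
            · linarith
    exact absurd hq (not_le.mpr h3)
  -- sizes
  have hVle : vol H * vol H' ≤ 9 * (p : ℝ) ^ (1 / 2 + 2 * δ) := by
    calc vol H * vol H' ≤ (3 * (p : ℝ) ^ (1 / 4 + δ)) * (3 * (p : ℝ) ^ (1 / 4 + δ)) :=
          mul_le_mul hV2 hV2' (vol_pos H').le (by positivity)
      _ = 9 * ((p : ℝ) ^ (1 / 4 + δ) * (p : ℝ) ^ (1 / 4 + δ)) := by ring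
      _ = _ := by rw [← Real.rpow_add hp0]; congr 2; ring
  have hVge : (p : ℝ) ^ (1 / 2 + 2 * δ) ≤ vol H * vol H' := by
    calc (p : ℝ) ^ (1 / 2 + 2 * δ) = (p : ℝ) ^ (1 / 4 + δ) * (p : ℝ) ^ (1 / 4 + δ) := by
          rw [← Real.rpow_add hp0]; congr 1; ring
      _ ≤ _ := mul_le_mul hV1 hV1' (by positivity) (vol_pos H).le
  have hsle : (#(S2 b b' H H' c J x y (-linN c J)) : ℝ) ≤ (p : ℝ) ^ (3 / 4 : ℝ) := by
    calc _ ≤ (13 ^ d * 5 ^ d) * (vol H * vol H') := S2_le hBOX _ hcb'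
      _ ≤ (13 ^ d * 5 ^ d) * (9 * (p : ℝ) ^ (1 / 2 + 2 * δ)) :=
          mul_le_mul_of_nonneg_left hVle (by positivity)
      _ = 9 * (13 ^ d * 5 ^ d) * (p : ℝ) ^ (1 / 2 + 2 * δ) := by ring
      _ ≤ (p : ℝ) ^ (1 / 8 : ℝ) * (p : ℝ) ^ (1 / 2 + 2 * δ) :=
          mul_le_mul_of_nonneg_right (hK_3.trans (hKs _ (by linarith))) (by positivity)
      _ = (p : ℝ) ^ (1 / 8 + (1 / 2 + 2 * δ)) := (Real.rpow_add hp0 _ _).symm
      _ ≤ (p : ℝ) ^ (3 / 4 : ℝ) := Real.rpow_le_rpow_of_exponent_le hp1 (by linarith)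
  have hQle : (#(qb c (Y1 J X)) : ℝ) ≤ (p : ℝ) ^ (1 / 2 - δ / 64) := by
    calc (#(qb c (Y1 J X)) : ℝ) ≤ (#(Bx b (fun i => 4 * H i)) : ℝ) := by
          exact_mod_cast card_le_card ((qb_sub_Bx hXtwo).trans hcb)
      _ ≤ 4 ^ d * vol H := card_mul hBOX 4 (by norm_num)
      _ ≤ 4 ^ d * (3 * (p : ℝ) ^ (1 / 4 + δ)) := mul_le_mul_of_nonneg_left hV2 (by positivity)
      _ = 3 * 4 ^ d * (p : ℝ) ^ (1 / 4 + δ) := by ring
      _ ≤ (p : ℝ) ^ (1 / 8 : ℝ) * (p : ℝ) ^ (1 / 4 + δ) :=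
          mul_le_mul_of_nonneg_right (hK_4.trans (hKs _ (by linarith))) (by positivity)
      _ = (p : ℝ) ^ (1 / 8 + (1 / 4 + δ)) := (Real.rpow_add hp0 _ _).symm
      _ ≤ (p : ℝ) ^ (1 / 2 - δ / 64) := Real.rpow_le_rpow_of_exponent_le hp1 (by linarith)
  -- the multiplicative energy
  have hME := hENM' p hpP1 (S2 b b' H H' c J x y (-linN c J)) (qb c (Y1 J X)) (S2_nonempty _)
    ⟨0, zero_mem_qb _ _⟩ (by
      have h1 : (#(S2 b b' H H' c J x y (-linN c J) + S2 b b' H H' c J x y (-linN c J)) : ℝ) ≤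
          52 ^ (d + d) * #(S2 b b' H H' c J x y (-linN c J)) := by
        exact_mod_cast dbl_S2 hCOV _ hcb'
      exact h1.trans (mul_le_mul_of_nonneg_right (le_max_left _ _) (Nat.cast_nonneg _))) (by
      have h1 : (#(qb c (Y1 J X) + qb c (Y1 J X)) : ℝ) ≤ 2 ^ e * #(qb c (Y1 J X)) := by
        exact_mod_cast dbl_qb hIc hXtwo
      exact h1.trans (mul_le_mul_of_nonneg_right (le_max_right _ _) (Nat.cast_nonneg _)))
    hsle hQle
  have hph : (p : ℝ) ^ (-(1 / 2) : ℝ) = 1 / Real.sqrt p := by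
    rw [Real.rpow_neg hp0.le, ← Real.sqrt_eq_rpow, one_div]
  rw [hph, mul_one_div] at hME
  have hρr : ((p : ℝ) ^ (-σ)) ^ (2 * (r0 + 1)) = (p : ℝ) ^ (-(3 * δ / 8)) := by
    rw [← Real.rpow_natCast, ← Real.rpow_mul hp0.le, ← hσr, neg_mul]
  have hcoef := coef (X := X) (G := (4 * L) ^ (d + d) * Ce * (X : ℝ) ^ (2 * e)) (Cr := Cr)
    (C1 := 39 ^ d * 15 ^ d) hp0 hp1 hδ.le (Real.sqrt_eq_rpow p) (by positivity) hCr
    (by positivity) (by positivity) hGX hVge hq rfl (hK_1.trans (hKs _ (by linarith)))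
  rw [← hρr] at hcoef
  have hwle : (p : ℝ) ^ (-σ) + 7 / X + 2 * e * (1 / X) ≤
      (8 + 2 * e) * (p : ℝ) ^ (-(4 * τ)) := by
    have h1 : (p : ℝ) ^ (-σ) ≤ (p : ℝ) ^ (-(4 * τ)) :=
      Real.rpow_le_rpow_of_exponent_le hp1 (by linarith)
    have h2 : 1 / (X : ℝ) ≤ (p : ℝ) ^ (-(4 * τ)) := by
      calc 1 / (X : ℝ) ≤ 1 / (p : ℝ) ^ κ3 := one_div_le_one_div_of_le (by positivity) hX1
        _ = (p : ℝ) ^ (-κ3) := by rw [Real.rpow_neg hp0.le, one_div]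
        _ ≤ _ := Real.rpow_le_rpow_of_exponent_le hp1 (by linarith)
    have h3 : 7 / (X : ℝ) = 7 * (1 / X) := by ring
    have he : (0 : ℝ) ≤ 2 * e := by positivity
    have h4 := mul_le_mul_of_nonneg_left h2 he
    rw [h3]
    linarith
  have hlast : 4 ^ e * (5 ^ d * 5 ^ d) * (8 + 2 * (e : ℝ)) * (p : ℝ) ^ (-(4 * τ)) ≤
      (p : ℝ) ^ (-(2 * τ)) := by
    calc 4 ^ e * (5 ^ d * 5 ^ d) * (8 + 2 * (e : ℝ)) * (p : ℝ) ^ (-(4 * τ))
        ≤ (p : ℝ) ^ (2 * τ) * (p : ℝ) ^ (-(4 * τ)) :=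
          mul_le_mul_of_nonneg_right (hK_5.trans (hKs _ le_rfl)) (by positivity)
      _ = (p : ℝ) ^ (-(2 * τ)) := by rw [← Real.rpow_add hp0]; congr 1; ring
  have hSS2 : (#(((x +ᵥ Bx b H) + qb c J) ×ˢ ((y +ᵥ Bx b' H') + qb c J)) : ℝ) ≤
      (5 ^ d * 5 ^ d) * (vol H * vol H') := by
    rw [card_product]
    push_cast
    calc _ ≤ (5 ^ d * vol H) * (5 ^ d * vol H') :=
          mul_le_mul (card_A1 hBOX hcb) (card_A1 hBOX hcb') (Nat.cast_nonneg _)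
            (by have := vol_pos H; positivity)
      _ = _ := by ring
  refine sqrt_end hp0 (mul_pos (vol_pos H) (vol_pos H')).le
    (sum_nonneg fun _ _ => by positivity) (sum_nonneg fun _ _ => by positivity) ?_
  refine analytic hTRB hIc (x +ᵥ Bx b H) (y +ᵥ Bx b' H') χ (X := X) (ρ := (p : ℝ) ^ (-σ)) ?_
    (mul_pos (vol_pos H) (vol_pos H')).le (D := 5 ^ d * 5 ^ d) (by positivity) (by positivity)
    hSS2 hwle hlast α β
  intro ψ
  exact holderPart hBOX hGRP hCNTB (r := r0 + 1) hI hI' hIc hcb hcb' hXtwo χ hCr (by positivity)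
    (pe := (p : ℝ) ^ (δ / 64)) (G := (4 * L) ^ (d + d) * Ce * (X : ℝ) ^ (2 * e))
    (by positivity) (by positivity)
    (fun ι S z ψ e c M Y ε h1 h2 h3 h4 h5 h6 => hHOB' p χ hχ ι S z ψ e c M X Y ε _
      (by omega) hXp hXr h1 h2 h3 h4 h5 (by positivity) h6)
    hME hq0 hqG hQ2 hcoef ψ

end MPcb27.TU
end
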