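import Pool.Agent.Lib.MP_cb27ba_nt.TU.Spec2
import Pool.Agent.Lib.MP_cb27ba_nt.BD.Full

section
/-!
# MP_cb27ba_nt, project TU: module BOX

Basics on boxes.
-/
set_option autoImplicit false

namespace MPcb27.TU

open Finset
open scoped Pointwise

section

variable {p d : ℕ}

theorem lin_add (b : Fin d → ZMod p) (n m : Fin d → ℤ) : lin b (fun i => n i + m i) = lin b n + lin b m := by
  unfold lin
  rw [← sum_add_distrib]
  apply sum_congr rfl
  intro i _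
  push_cast
  ring

theorem lin_neg (b : Fin d → ZMod p) (n : Fin d → ℤ) : lin b (fun i => -n i) = -lin b n := by
  unfold lin
  rw [← sum_neg_distrib]
  apply sum_congr rfl
  intro i _
  push_cast
  ring

theorem lin_sub (b : Fin d → ZMod p) (n m : Fin d → ℤ) : lin b (fun i => n i - m i) = lin b n - lin b m := by
  unfold lin
  rw [← sum_sub_distrib]
  apply sum_congr rfl
  intro i _
  push_cast
  ring

theorem linN_eq (b : Fin d → ZMod p) (n : Fin d → ℕ) : linN b n = lin b (fun i => (n i : ℤ)) := by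
  unfold lin linN
  apply sum_congr rfl
  intro i _
  push_cast
  ring

theorem mem_Bx {b : Fin d → ZMod p} {H : Fin d → ℕ} {z : ZMod p} :
    z ∈ Bx b H ↔ ∃ n : Fin d → ℤ, (∀ i, |n i| ≤ H i) ∧ lin b n = z := by
  unfold Bx
  rw [mem_image]
  constructor
  · rintro ⟨n, hn, rfl⟩
    rw [Fintype.mem_piFinset] at hn
    refine ⟨n, fun i => ?_, rfl⟩
    have := hn i
    rw [mem_Icc] at this
    rw [abs_le]
    exact this
  · rintro ⟨n, hn, rfl⟩
    refine ⟨n, ?_, rfl⟩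
    rw [Fintype.mem_piFinset]
    intro i
    rw [mem_Icc]
    exact abs_le.mp (hn i)

theorem mem_qb {c : Fin d → ZMod p} {J : Fin d → ℕ} {z : ZMod p} :
    z ∈ qb c J ↔ ∃ n : Fin d → ℕ, (∀ i, n i ≤ J i) ∧ linN c n = z := by
  unfold qb bx
  rw [mem_image]
  constructor
  · rintro ⟨n, hn, rfl⟩
    rw [Fintype.mem_piFinset] at hn
    refine ⟨n, fun i => ?_, rfl⟩
    have := hn i
    rw [mem_range] at this
    exact Nat.lt_succ_iff.mp this
  · rintro ⟨n, hn, rfl⟩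
    refine ⟨n, ?_, rfl⟩
    rw [Fintype.mem_piFinset]
    intro i
    rw [mem_range]
    exact Nat.lt_succ_of_le (hn i)

theorem card_dom (H : Fin d → ℕ) :
    ((#(Fintype.piFinset fun i => Finset.Icc (-(H i : ℤ)) (H i)) : ℕ) : ℝ) = vol H := by
  rw [Fintype.card_piFinset]
  unfold vol
  push_cast
  apply prod_congr rfl
  intro i _
  rw [Int.card_Icc]
  have : ((H i : ℤ) + 1 - -(H i : ℤ)).toNat = 2 * H i + 1 := by omega
  rw [this]
  push_cast
  ring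

theorem vol_pos (H : Fin d → ℕ) : 0 < vol H := by
  unfold vol
  exact prod_pos fun i _ => by positivity

end

/-- **BOX** -/
theorem specBOX : SpecBOX := by
  intro p d b H H'
  refine ⟨?_, ?_, ?_, ?_, ?_⟩
  · rw [← card_dom H]
    unfold Bx
    exact_mod_cast card_image_le
  · intro hI
    rw [← card_dom H]
    unfold Bx
    rw [card_image_of_injOn]
    intro n hn n' hn' he
    rw [mem_coe, Fintype.mem_piFinset] at hn hn'
    refine hI n n' (fun i => ?_) (fun i => ?_) he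
    · have := hn i
      rw [mem_Icc] at this
      exact abs_le.mpr this
    · have := hn' i
      rw [mem_Icc] at this
      exact abs_le.mpr this
  · intro h z hz
    rw [mem_Bx] at hz ⊢
    obtain ⟨n, hn, rfl⟩ := hz
    exact ⟨n, fun i => (hn i).trans (by exact_mod_cast h i), rfl⟩
  · ext z
    rw [mem_add]
    constructor
    · rintro ⟨x, hx, y, hy, rfl⟩
      rw [mem_Bx] at hx hy ⊢
      obtain ⟨n, hn, rfl⟩ := hx
      obtain ⟨m, hm, rfl⟩ := hy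
      refine ⟨fun i => n i + m i, fun i => ?_, lin_add b n m⟩
      push_cast
      exact (abs_add_le _ _).trans (add_le_add (hn i) (hm i))
    · intro hz
      rw [mem_Bx] at hz
      obtain ⟨m, hm, rfl⟩ := hz
      refine ⟨lin b (fun i => max (-(H i : ℤ)) (min (H i) (m i))), ?_, lin b (fun i => m i - max (-(H i : ℤ)) (min (H i) (m i))), ?_, ?_⟩
      · rw [mem_Bx]
        refine ⟨_, fun i => ?_, rfl⟩
        rw [abs_le]
        constructor
        · exact le_max_left _ _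
        · exact max_le (by omega) (min_le_left _ _)
      · rw [mem_Bx]
        refine ⟨_, fun i => ?_, rfl⟩
        have h1 := hm i
        push_cast at h1
        rw [abs_le] at h1 ⊢
        constructor <;> omega
      · rw [← lin_add]
        congr 1
        funext i
        ring
  · ext z
    rw [Finset.mem_neg]
    constructor
    · rintro ⟨x, hx, rfl⟩
      rw [mem_Bx] at hx ⊢
      obtain ⟨n, hn, rfl⟩ := hx
      exact ⟨fun i => -n i, fun i => by rw [abs_neg]; exact hn i, lin_neg b n⟩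
    · intro hz
      rw [mem_Bx] at hz
      obtain ⟨n, hn, rfl⟩ := hz
      refine ⟨lin b (fun i => -n i), ?_, ?_⟩
      · rw [mem_Bx]
        exact ⟨_, fun i => by rw [abs_neg]; exact hn i, rfl⟩
      · rw [lin_neg, neg_neg]

end MPcb27.TU
end

section
/-! # Module CNTB: the count for `z = a - b + w` -/
set_option autoImplicit false

namespace MPcb27.TU

open Finset
open scoped Pointwise

theorem specCNTB : SpecCNTB := by
  classical
  intro p _ e c M Y A A' B w hA hinj hY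
  have hch : ∀ s : ZMod p, ∃ q : ZMod p × ZMod p, s ∈ A' - B →
      q.1 ∈ A' ∧ q.2 ∈ B ∧ q.1 - q.2 = s := by
    intro s
    by_cases hs : s ∈ A' - B
    · obtain ⟨a, ha, b, hb, h⟩ := Finset.mem_sub.mp hs
      exact ⟨(a, b), fun _ => ⟨ha, hb, h⟩⟩
    · exact ⟨(0, 0), fun h => absurd h hs⟩
  choose f hf using hch
  have hcard : #(bx M) = ∏ i, M i := by
    unfold bx
    rw [Fintype.card_piFinset]
    simp
  unfold N2B ME
  rw [← hcard, sq, sq, ← card_product, ← card_product, ← card_product, ← card_product]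
  refine card_le_card_of_injOn (fun q =>
    (((q.1.2.1, q.2.2.1),
      ((q.1.1.1 + linN c q.1.2.1) - (f ((q.1.1.1 + linN c q.1.2.1) - q.1.1.2)).1,
       (q.2.1.1 + linN c q.2.2.1) - (f ((q.2.1.1 + linN c q.2.2.1) - q.2.1.2)).1)),
      (((q.1.1.1 + linN c q.1.2.1) - q.1.1.2 + w, linN c q.1.2.2),
       ((q.2.1.1 + linN c q.2.2.1) - q.2.1.2 + w, linN c q.2.2.2)))) ?_ ?_
  · rintro ⟨⟨⟨a, b⟩, n, y⟩, ⟨⟨a', b'⟩, n', y'⟩⟩ hq
    simp only [coe_filter, mem_product, Set.mem_ofPred_eq] at hq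
    obtain ⟨⟨⟨⟨ha, hb⟩, hn, hy⟩, ⟨ha', hb'⟩, hn', hy'⟩, h⟩ := hq
    have h1 : a + linN c n ∈ A' := hA a ha n hn
    have h1' : a' + linN c n' ∈ A' := hA a' ha' n' hn'
    have hs : (a + linN c n) - b ∈ A' - B := sub_mem_sub h1 hb
    have hs' : (a' + linN c n') - b' ∈ A' - B := sub_mem_sub h1' hb'
    obtain ⟨g1, g2, g3⟩ := hf _ hs
    obtain ⟨g1', g2', g3'⟩ := hf _ hs'
    simp only [coe_product, Set.mem_prod, mem_coe, mem_inter, mem_filter, mem_product, mem_image]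
    refine ⟨⟨⟨hn, hn'⟩, ⟨sub_mem_sub h1 g1, ?_⟩, ⟨sub_mem_sub h1' g1', ?_⟩⟩,
      ⟨⟨⟨_, hs, rfl⟩, ⟨y, hy, rfl⟩⟩, ⟨⟨_, hs', rfl⟩, ⟨y', hy', rfl⟩⟩⟩, hY y hy, hY y' hy', ?_⟩
    · have : (a + linN c n) - (f ((a + linN c n) - b)).1 = b - (f ((a + linN c n) - b)).2 := by
        linear_combination -g3
      rw [this]
      exact sub_mem_sub hb g2
    · have : (a' + linN c n') - (f ((a' + linN c n') - b')).1 =
          b' - (f ((a' + linN c n') - b')).2 := by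
        linear_combination -g3'
      rw [this]
      exact sub_mem_sub hb' g2'
    · linear_combination h
  · rintro ⟨⟨⟨a, b⟩, n, y⟩, ⟨⟨a', b'⟩, n', y'⟩⟩ hq ⟨⟨⟨a₁, b₁⟩, n₁, y₁⟩, ⟨⟨a₁', b₁'⟩, n₁', y₁'⟩⟩
      hq₁ h
    simp only [coe_filter, mem_product, Set.mem_ofPred_eq] at hq hq₁
    simp only [Prod.mk.injEq] at h
    obtain ⟨⟨⟨hn, hn'⟩, ht, ht'⟩, ⟨hs, hy⟩, hs', hy'⟩ := h
    subst hn hn'
    have hs2 : (a + linN c n) - b = (a₁ + linN c n) - b₁ := add_right_cancel hs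
    have hs2' : (a' + linN c n') - b' = (a₁' + linN c n') - b₁' := add_right_cancel hs'
    rw [hs2] at ht
    rw [hs2'] at ht'
    have ha : a = a₁ := by linear_combination ht
    have ha' : a' = a₁' := by linear_combination ht'
    subst ha ha'
    have hb : b = b₁ := by linear_combination -hs2
    have hb' : b' = b₁' := by linear_combination -hs2'
    have e1 : y = y₁ := hinj hq.1.1.2.2 hq₁.1.1.2.2 hy
    have e2 : y' = y₁' := hinj hq.1.2.2.2 hq₁.1.2.2.2 hy'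
    subst hb hb' e1 e2
    rfl

end MPcb27.TU
end

section
/-!
# MP_cb27ba_nt, project TU: module COV

Coverings of boxes by translates of smaller boxes.
-/
set_option autoImplicit false

namespace MPcb27.TU

open Finset
open scoped Pointwise

section

variable {p d : ℕ}

/-- the corners of the covering -/
def cor (b : Fin d → ZMod p) (h H : Fin d → ℕ) (k : Fin d → ℕ) : ZMod p :=
  lin b (fun i => -(H i : ℤ) + k i * (h i + 1))

theorem card_bx (μ : ℕ) : #(bx fun _ : Fin d => μ) = μ ^ d := by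
  unfold bx
  rw [Fintype.card_piFinset]
  simp

/-- the covering -/
theorem cover (b : Fin d → ZMod p) (h H : Fin d → ℕ) (μ : ℕ) (hμ : ∀ i, 2 * H i + 1 ≤ μ * (h i + 1))
    {z : ZMod p} (hz : z ∈ Bx b H) :
    ∃ k ∈ bx (fun _ : Fin d => μ), ∃ u ∈ qb b h, cor b h H k + u = z := by
  rw [mem_Bx] at hz
  obtain ⟨n, hn, rfl⟩ := hz
  have h0 : ∀ i, 0 ≤ n i + H i ∧ n i + H i ≤ 2 * H i := by
    intro i
    have := abs_le.mp (hn i)
    constructor <;> omega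
  set k : Fin d → ℕ := fun i => (n i + H i).toNat / (h i + 1) with hk
  set r : Fin d → ℕ := fun i => (n i + H i).toNat % (h i + 1) with hr
  have hkr : ∀ i, (n i + H i : ℤ) = (h i + 1) * k i + r i := by
    intro i
    have h1 := Nat.div_add_mod (n i + H i).toNat (h i + 1)
    have h2 : (((n i + H i).toNat : ℕ) : ℤ) = n i + H i := Int.toNat_of_nonneg (h0 i).1
    rw [← h2, ← h1]
    push_cast
    simp [hk, hr]
  refine ⟨k, ?_, linN b r, ?_, ?_⟩
  · unfold bx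
    rw [Fintype.mem_piFinset]
    intro i
    rw [mem_range]
    simp only [hk]
    rw [Nat.div_lt_iff_lt_mul (by omega)]
    have h1 := (h0 i).2
    have h2 := hμ i
    omega
  · rw [mem_qb]
    refine ⟨r, fun i => ?_, rfl⟩
    have : (n i + H i).toNat % (h i + 1) < h i + 1 := Nat.mod_lt _ (by omega)
    simp only [hr]
    omega
  · unfold cor
    rw [linN_eq, ← lin_add]
    congr 1
    funext i
    have := hkr i
    linarith

theorem qb_sub (b : Fin d → ZMod p) (h : Fin d → ℕ) {u v : ZMod p} (hu : u ∈ qb b h) (hv : v ∈ qb b h) :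
    u - v ∈ Bx b h := by
  rw [mem_qb] at hu hv
  obtain ⟨n, hn, rfl⟩ := hu
  obtain ⟨m, hm, rfl⟩ := hv
  rw [mem_Bx]
  refine ⟨fun i => (n i : ℤ) - m i, fun i => ?_, ?_⟩
  · have h1 := hn i
    have h2 := hm i
    show |(n i : ℤ) - m i| ≤ h i
    rw [abs_le]
    constructor <;> omega
  · rw [lin_sub, linN_eq, linN_eq]

theorem qb_subset (b : Fin d → ZMod p) (h : Fin d → ℕ) : qb b h ⊆ Bx b h := by
  intro u hu
  rw [mem_qb] at hu
  obtain ⟨n, hn, rfl⟩ := hu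
  rw [mem_Bx]
  refine ⟨fun i => (n i : ℤ), fun i => ?_, (linN_eq b n).symm⟩
  show |(n i : ℤ)| ≤ h i
  rw [abs_of_nonneg (by omega)]
  exact_mod_cast hn i

end

/-- **COV** -/
theorem specCOV : SpecCOV := by
  classical
  intro p d d' b b' h H h' H' μ hμ hμ'
  refine ⟨?_, ?_, ?_⟩
  · have h1 : Bx b H ⊆ (bx fun _ : Fin d => μ).biUnion (fun k => (qb b h).image (fun u => cor b h H k + u)) := by
      intro z hz
      obtain ⟨k, hk, u, hu, rfl⟩ := cover b h H μ hμ hz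
      rw [mem_biUnion]
      exact ⟨k, hk, mem_image_of_mem _ hu⟩
    calc #(Bx b H) ≤ _ := card_le_card h1
      _ ≤ #(bx fun _ : Fin d => μ) * #(Bx b h) := by
        apply card_biUnion_le_card_mul
        intro k _
        exact card_image_le.trans (card_le_card (qb_subset b h))
      _ = μ ^ d * #(Bx b h) := by rw [card_bx]
  · set S : (Fin d → ℕ) × (Fin d' → ℕ) → Finset (ZMod p) := fun k =>
      ((qb b h).image (fun u => cor b h H k.1 + u)) ∩ ((qb b' h').image (fun u => cor b' h' H' k.2 + u)) with hS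
    have h1 : Bx b H ∩ Bx b' H' ⊆ ((bx fun _ : Fin d => μ) ×ˢ (bx fun _ : Fin d' => μ)).biUnion S := by
      intro z hz
      rw [mem_inter] at hz
      obtain ⟨k, hk, u, hu, hz1⟩ := cover b h H μ hμ hz.1
      obtain ⟨k', hk', u', hu', hz2⟩ := cover b' h' H' μ hμ' hz.2
      rw [mem_biUnion]
      refine ⟨(k, k'), mem_product.mpr ⟨hk, hk'⟩, ?_⟩
      rw [hS, mem_inter, mem_image, mem_image]
      exact ⟨⟨u, hu, hz1⟩, ⟨u', hu', hz2⟩⟩
    have h2 : ∀ k, #(S k) ≤ #(Bx b h ∩ Bx b' h') := by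
      intro k
      rcases (S k).eq_empty_or_nonempty with h3 | ⟨z0, hz0⟩
      · rw [h3]; simp
      · have h4 : (S k).image (fun z => z - z0) ⊆ Bx b h ∩ Bx b' h' := by
          intro y hy
          rw [mem_image] at hy
          obtain ⟨z, hz, rfl⟩ := hy
          rw [hS, mem_inter, mem_image, mem_image] at hz hz0
          obtain ⟨⟨u, hu, hz1⟩, ⟨u', hu', hz2⟩⟩ := hz
          obtain ⟨⟨v, hv, hz3⟩, ⟨v', hv', hz4⟩⟩ := hz0
          rw [mem_inter]
          constructor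
          · have : z - z0 = u - v := by rw [← hz1, ← hz3]; ring
            rw [this]
            exact qb_sub b h hu hv
          · have : z - z0 = u' - v' := by rw [← hz2, ← hz4]; ring
            rw [this]
            exact qb_sub b' h' hu' hv'
        rw [← card_image_of_injective (S k) (sub_left_injective (b := z0))]
        exact card_le_card h4
    calc #(Bx b H ∩ Bx b' H') ≤ _ := card_le_card h1
      _ ≤ #((bx fun _ : Fin d => μ) ×ˢ (bx fun _ : Fin d' => μ)) * #(Bx b h ∩ Bx b' h') :=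
        card_biUnion_le_card_mul _ _ _ (fun k _ => h2 k)
      _ = μ ^ (d + d') * #(Bx b h ∩ Bx b' h') := by rw [card_product, card_bx, card_bx, pow_add]
  · set S : (Fin d → ℕ) × (Fin d' → ℕ) → Finset (ZMod p) := fun k =>
      (Bx b h + Bx b' h').image (fun u => cor b h H k.1 + cor b' h' H' k.2 + u) with hS
    have h1 : Bx b H + Bx b' H' ⊆ ((bx fun _ : Fin d => μ) ×ˢ (bx fun _ : Fin d' => μ)).biUnion S := by
      intro z hz
      rw [mem_add] at hz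
      obtain ⟨x, hx, y, hy, rfl⟩ := hz
      obtain ⟨k, hk, u, hu, rfl⟩ := cover b h H μ hμ hx
      obtain ⟨k', hk', u', hu', rfl⟩ := cover b' h' H' μ hμ' hy
      rw [mem_biUnion]
      refine ⟨(k, k'), mem_product.mpr ⟨hk, hk'⟩, ?_⟩
      rw [hS, mem_image]
      refine ⟨u + u', add_mem_add (qb_subset b h hu) (qb_subset b' h' hu'), ?_⟩
      ring
    calc #(Bx b H + Bx b' H') ≤ _ := card_le_card h1
      _ ≤ #((bx fun _ : Fin d => μ) ×ˢ (bx fun _ : Fin d' => μ)) * #(Bx b h + Bx b' h') :=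
        card_biUnion_le_card_mul _ _ _ (fun k _ => card_image_le)
      _ = μ ^ (d + d') * #(Bx b h + Bx b' h') := by rw [card_product, card_bx, card_bx, pow_add]

end MPcb27.TU
end

section
/-! # Module ENG: multiplicative energy inside a progression -/
set_option autoImplicit false

namespace MPcb27.TU

open Finset Filter

namespace ENGM

theorem large (c : ℝ) {e : ℝ} (he : 0 < e) : ∃ P : ℕ, ∀ p : ℕ, P ≤ p → c ≤ (p : ℝ) ^ e := by
  have h := ((tendsto_rpow_atTop he).comp (tendsto_natCast_atTop_atTop (R := ℝ))).eventually_ge_atTop c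
  exact eventually_atTop.mp h

theorem ME_le {p : ℕ} (A : Finset (ZMod p)) :
    ME A A ≤ #((A ×ˢ A ×ˢ A ×ˢ A).filter (fun x => x.1 * x.2.1 = x.2.2.1 * x.2.2.2)) := by
  refine Finset.card_le_card_of_injOn (fun q => (q.2.2, q.1.1, q.1.2, q.2.1)) ?_ ?_
  · intro q hq
    simp only [coe_filter, mem_product, Set.mem_ofPred_eq] at hq ⊢
    exact ⟨⟨hq.1.2.2, hq.1.1.1, hq.1.1.2, hq.1.2.1⟩, hq.2.2.2⟩
  · rintro ⟨⟨a, b⟩, ⟨c, d⟩⟩ _ ⟨⟨a', b'⟩, ⟨c', d'⟩⟩ _ h
    simp only [Prod.mk.injEq] at h ⊢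
    tauto

end ENGM

theorem specENG (hPr : SpecProper) (hEn : SpecEnP) : SpecENG := by
  intro d ε hε
  obtain ⟨C, hC⟩ := hPr d
  set e : ℝ := ε / 8 with he
  have he0 : 0 < e := by rw [he]; positivity
  set η : ℝ := e / (2 * ((C : ℝ) + 1)) with hη
  have hC1 : (0 : ℝ) < (C : ℝ) + 1 := by positivity
  have hη0 : 0 < η := by rw [hη]; positivity
  have hCη : η * C ≤ e / 2 := by
    have h1 : η * ((C : ℝ) + 1) = e / 2 := by
      rw [hη]
      field_simp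
    have h2 : η * (C : ℝ) ≤ η * ((C : ℝ) + 1) := mul_le_mul_of_nonneg_left (by linarith) hη0.le
    linarith
  obtain ⟨P₁, hP₁⟩ := ENGM.large ((C : ℝ) ^ C) (e := e / 2) (by linarith)
  choose P₂ hP₂ using fun d' : ℕ => hEn d' (ε / 2) η (ε / 2) (by linarith) hη0 (by linarith)
  refine ⟨max (max P₁ 2) ((range (d + 1)).sup P₂), fun p hp hPp b H hH hvol A hA => ?_⟩
  have hp1 : P₁ ≤ p := le_trans (le_trans (le_max_left _ _) (le_max_left _ _)) hPp
  have hp2 : 2 ≤ p := hp.out.two_le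
  have hpR : (1 : ℝ) < p := by exact_mod_cast hp2
  have hp0 : (0 : ℝ) < p := by linarith
  have hprod0 : 0 ≤ ∏ i, (H i : ℝ) := Finset.prod_nonneg fun i _ => Nat.cast_nonneg _
  -- the factor
  have hfac : ((C : ℝ) * (p : ℝ) ^ η) ^ C ≤ (p : ℝ) ^ e := by
    rw [mul_pow, ← Real.rpow_natCast ((p : ℝ) ^ η) C, ← Real.rpow_mul hp0.le]
    have h1 := hP₁ p hp1
    have h2 : (p : ℝ) ^ (η * (C : ℝ)) ≤ (p : ℝ) ^ (e / 2) :=
      Real.rpow_le_rpow_of_exponent_le hpR.le hCη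
    calc (C : ℝ) ^ C * (p : ℝ) ^ (η * (C : ℝ)) ≤ (p : ℝ) ^ (e / 2) * (p : ℝ) ^ (e / 2) :=
          mul_le_mul h1 h2 (Real.rpow_nonneg hp0.le _) (Real.rpow_nonneg hp0.le _)
      _ = (p : ℝ) ^ e := by
          rw [← Real.rpow_add hp0]
          congr 1
          ring
  have hfac0 : 0 ≤ ((C : ℝ) * (p : ℝ) ^ η) ^ C := by positivity
  have hlt : ((C : ℝ) * (p : ℝ) ^ η) ^ C * ∏ i, (H i : ℝ) < p := by
    calc ((C : ℝ) * (p : ℝ) ^ η) ^ C * ∏ i, (H i : ℝ) ≤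
          (p : ℝ) ^ e * (p : ℝ) ^ (1 / 2 - ε) :=
          mul_le_mul hfac hvol hprod0 (Real.rpow_nonneg hp0.le _)
      _ = (p : ℝ) ^ (e + (1 / 2 - ε)) := by rw [← Real.rpow_add hp0]
      _ < (p : ℝ) ^ (1 : ℝ) := Real.rpow_lt_rpow_of_exponent_lt hpR (by rw [he]; linarith)
      _ = p := Real.rpow_one _
  obtain ⟨d', b', H', hd', hH', hvol', hprop, hcont⟩ :=
    hC p ((p : ℝ) ^ η) (Real.one_le_rpow hpR.le hη0.le) b H hH hlt
  have hprod'0 : 0 ≤ ∏ i, (H' i : ℝ) := Finset.prod_nonneg fun i _ => Nat.cast_nonneg _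
  have hvol2 : ∏ i, (H' i : ℝ) ≤ (p : ℝ) ^ e * ∏ i, (H i : ℝ) :=
    le_trans hvol' (mul_le_mul_of_nonneg_right hfac hprod0)
  have hvol3 : ∏ i, (H' i : ℝ) ≤ (p : ℝ) ^ (1 / 2 - ε / 2) := by
    calc ∏ i, (H' i : ℝ) ≤ (p : ℝ) ^ e * ∏ i, (H i : ℝ) := hvol2
      _ ≤ (p : ℝ) ^ e * (p : ℝ) ^ (1 / 2 - ε) :=
          mul_le_mul_of_nonneg_left hvol (Real.rpow_nonneg hp0.le _)
      _ = (p : ℝ) ^ (e + (1 / 2 - ε)) := by rw [← Real.rpow_add hp0]
      _ ≤ (p : ℝ) ^ (1 / 2 - ε / 2) :=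
          Real.rpow_le_rpow_of_exponent_le hpR.le (by rw [he]; linarith)
  have hPd : P₂ d' ≤ p := by
    refine le_trans ?_ (le_trans (le_max_right _ _) hPp)
    exact Finset.le_sup (f := P₂) (Finset.mem_range.mpr (by omega))
  have h := hP₂ d' p hp.out hPd b' H' hH' hprop hvol3 A (by
    intro x hx
    obtain ⟨n, hn1, hn2⟩ := hA x hx
    obtain ⟨n', hn'1, hn'2⟩ := hcont n hn1
    exact ⟨n', hn'1, by rw [hn2, hn'2]⟩)
  have h1 : (ME A A : ℝ) ≤
      ((#((A ×ˢ A ×ˢ A ×ˢ A).filter (fun x => x.1 * x.2.1 = x.2.2.1 * x.2.2.2)) : ℕ) : ℝ) := by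
    exact_mod_cast ENGM.ME_le A
  have h2 : (∏ i, (H' i : ℝ)) ^ 2 ≤ ((p : ℝ) ^ e * ∏ i, (H i : ℝ)) ^ 2 :=
    pow_le_pow_left₀ hprod'0 hvol2 2
  calc (ME A A : ℝ) ≤ (p : ℝ) ^ (ε / 2) * (∏ i, (H' i : ℝ)) ^ 2 := le_trans h1 h
    _ ≤ (p : ℝ) ^ (ε / 2) * ((p : ℝ) ^ e * ∏ i, (H i : ℝ)) ^ 2 :=
        mul_le_mul_of_nonneg_left h2 (Real.rpow_nonneg hp0.le _)
    _ = ((p : ℝ) ^ (ε / 2) * ((p : ℝ) ^ e * (p : ℝ) ^ e)) * (∏ i, (H i : ℝ)) ^ 2 := by ring
    _ = (p : ℝ) ^ (ε / 2 + (e + e)) * (∏ i, (H i : ℝ)) ^ 2 := by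
        rw [← Real.rpow_add hp0, ← Real.rpow_add hp0]
    _ ≤ (p : ℝ) ^ ε * (∏ i, (H i : ℝ)) ^ 2 := by
        refine mul_le_mul_of_nonneg_right ?_ (by positivity)
        exact Real.rpow_le_rpow_of_exponent_le hpR.le (by rw [he]; linarith)

end MPcb27.TU
end

section
/-!
# MP_cb27ba_nt, TU: ENM (multiplicative energy of two sets of bounded doubling)
From FRB, WIN, ENG, MECS.
-/
set_option autoImplicit false

namespace MPcb27.TU

open Finset
open scoped Pointwise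

namespace ENM

theorem lin_append {p k d : ℕ} (t : Fin k → ZMod p) (b : Fin d → ZMod p) (u : Fin k → ℤ)
    (n : Fin d → ℤ) : lin (Fin.append t b) (Fin.append u n) = lin t u + lin b n := by
  unfold lin
  rw [Fin.sum_univ_add]
  simp only [Fin.append_left, Fin.append_right]

theorem vol_pos {d : ℕ} (H : Fin d → ℕ) : 0 < vol H := by
  unfold vol
  exact prod_pos fun i _ => by positivity

theorem one_le_vol {d : ℕ} (H : Fin d → ℕ) : 1 ≤ vol H := by
  unfold vol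
  have h : ∏ i : Fin d, (1 : ℝ) ≤ ∏ i, (2 * (H i : ℝ) + 1) :=
    prod_le_prod (fun _ _ => by norm_num) fun i _ => by
      have : (0 : ℝ) ≤ H i := by positivity
      linarith
  rwa [prod_const_one] at h

/-- multiplicative energy of a subset of few translates of a box -/
theorem engT (hE : SpecENG) (k d : ℕ) (η : ℝ) (hη : 0 < η) : ∃ P : ℕ, ∀ (p : ℕ) [Fact p.Prime],
    P ≤ p → ∀ (T : Finset (ZMod p)) (b : Fin d → ZMod p) (h : Fin d → ℕ) (A : Finset (ZMod p)),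
      #T ≤ k → vol h ≤ (p : ℝ) ^ (1 / 2 - η) → A ⊆ T + Bx b h →
      (ME A A : ℝ) ≤ (p : ℝ) ^ η * vol h ^ 2 := by
  obtain ⟨P, hP⟩ := hE (k + d) η hη
  refine ⟨P, ?_⟩
  intro p _ hp T b h A hT hv hA
  obtain ⟨t, ht⟩ : ∃ t : Fin k → ZMod p, ∀ x ∈ T, ∃ j, t j = x := by
    refine ⟨fun j => if hj : (j : ℕ) < #T then (T.equivFin.symm ⟨j, hj⟩ : ZMod p) else 0, ?_⟩
    intro x hx
    refine ⟨⟨T.equivFin ⟨x, hx⟩, (T.equivFin ⟨x, hx⟩).2.trans_le hT⟩, ?_⟩
    simp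
  obtain ⟨Hh, hHh⟩ : ∃ Hh : Fin (k + d) → ℕ,
    Hh = Fin.append (fun _ => 1) (fun i => max (h i) 1) := ⟨_, rfl⟩
  have h1 : ∀ i, 1 ≤ Hh i := by
    intro i
    rw [hHh]
    refine Fin.addCases (fun j => ?_) (fun j => ?_) i
    · rw [Fin.append_left]
    · rw [Fin.append_right]
      exact le_max_right _ _
  have h2 : ∏ i, (Hh i : ℝ) ≤ vol h := by
    rw [Fin.prod_univ_add, hHh]
    simp only [Fin.append_left, Fin.append_right, Nat.cast_one, prod_const_one, one_mul]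
    unfold vol
    refine prod_le_prod (fun i _ => by positivity) fun i _ => ?_
    have h3 : max (h i) 1 ≤ 2 * h i + 1 := max_le (by omega) (by omega)
    exact_mod_cast h3
  have h4 := hP p hp (Fin.append t b) Hh h1 (h2.trans hv) A (by
    intro x hx
    obtain ⟨y, hy, z, hz, rfl⟩ := mem_add.1 (hA hx)
    obtain ⟨j, hj⟩ := ht y hy
    simp only [Bx, mem_image, Fintype.mem_piFinset, mem_Icc] at hz
    obtain ⟨n, hn, rfl⟩ := hz
    refine ⟨Fin.append (Pi.single j 1) n, ?_, ?_⟩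
    · intro i
      rw [hHh]
      refine Fin.addCases (fun i' => ?_) (fun i' => ?_) i
      · rw [Fin.append_left, Fin.append_left]
        by_cases hij : i' = j
        · subst hij
          simp
        · rw [Pi.single_eq_of_ne hij]
          simp
      · rw [Fin.append_right, Fin.append_right]
        refine (abs_le.2 (hn i')).trans ?_
        exact_mod_cast le_max_left _ _
    · rw [lin_append]
      congr 1
      rw [← hj]
      unfold lin
      rw [sum_eq_single j]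
      · simp
      · intro i' _ hi'
        rw [Pi.single_eq_of_ne hi']
        simp
      · simp)
  refine h4.trans ?_
  refine mul_le_mul_of_nonneg_left ?_ (by positivity)
  exact pow_le_pow_left₀ (prod_nonneg fun i _ => by positivity) h2 2

/-- the covering of `A` -/
theorem cov (hW : SpecWIN) {p d : ℕ} (b : Fin d → ZMod p) (H : Fin d → ℕ) (T A : Finset (ZMod p))
    (C W LA : ℝ) (hC : 1 ≤ C) (hW1 : 1 ≤ W) (hLA : 0 ≤ LA) (hv : vol H ≤ C * LA)
    (hT : (#T : ℝ) ≤ C) (hA : A ⊆ T + Bx b H) :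
    ∃ (h : Fin d → ℕ) (T2 : Finset (ZMod p)), vol h ≤ 3 * W ∧ A ⊆ T2 + Bx b h ∧
      (#T2 : ℝ) ^ 2 * vol h ≤ C ^ 4 * 4 ^ d * (LA + LA ^ 2 / W) ∧
      (#T2 : ℝ) ^ 2 ≤ C ^ 4 * 4 ^ d * (1 + LA ^ 2 / W ^ 2) := by
  have hC0 : 0 < C := by linarith
  have hW0 : 0 < W := by linarith
  have h4d : (1 : ℝ) ≤ 4 ^ d := one_le_pow₀ (by norm_num)
  have hC4 : C ^ 3 ≤ C ^ 4 * 4 ^ d := by
    calc C ^ 3 ≤ C ^ 4 := pow_le_pow_right₀ hC (by norm_num)
      _ = C ^ 4 * 1 := by ring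
      _ ≤ C ^ 4 * 4 ^ d := mul_le_mul_of_nonneg_left h4d (by positivity)
  have hC2 : C ^ 2 ≤ C ^ 4 * 4 ^ d := (pow_le_pow_right₀ hC (by norm_num)).trans hC4
  have hT0 : (0 : ℝ) ≤ #T := by positivity
  by_cases hc : vol H ≤ W
  · refine ⟨H, T, by linarith, hA, ?_, ?_⟩
    · have h1 : (#T : ℝ) ^ 2 * vol H ≤ C ^ 2 * (C * LA) :=
        mul_le_mul (pow_le_pow_left₀ hT0 hT 2) hv (vol_pos H).le (by positivity)
      have h2 : C ^ 2 * (C * LA) = C ^ 3 * LA := by ring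
      have h3 : C ^ 3 * LA ≤ C ^ 4 * 4 ^ d * LA := mul_le_mul_of_nonneg_right hC4 hLA
      have h5 : C ^ 4 * 4 ^ d * LA ≤ C ^ 4 * 4 ^ d * (LA + LA ^ 2 / W) := by
        refine mul_le_mul_of_nonneg_left ?_ (by positivity)
        have : 0 ≤ LA ^ 2 / W := by positivity
        linarith
      linarith
    · have h1 : (#T : ℝ) ^ 2 ≤ C ^ 2 := pow_le_pow_left₀ hT0 hT 2
      have h5 : C ^ 4 * 4 ^ d * 1 ≤ C ^ 4 * 4 ^ d * (1 + LA ^ 2 / W ^ 2) := by
        refine mul_le_mul_of_nonneg_left ?_ (by positivity)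
        have : 0 ≤ LA ^ 2 / W ^ 2 := by positivity
        linarith
      linarith
  · push Not at hc
    obtain ⟨h, -, hWh, hh3, T1, hT1, hcov⟩ := hW p d b H W hW1 hc.le
    have hvh : 0 < vol h := vol_pos h
    obtain ⟨v, hve⟩ : ∃ v, v = vol h := ⟨_, rfl⟩
    obtain ⟨V, hVe⟩ : ∃ V, V = vol H := ⟨_, rfl⟩
    have hV0 : 0 < V := by rw [hVe]; exact vol_pos H
    rw [← hve] at hWh hh3 hT1 hvh
    rw [← hVe] at hT1 hv hc
    have hcard : (#(T + T1) : ℝ) ≤ #T * #T1 := by exact_mod_cast card_add_le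
    have h6 : (#(T + T1) : ℝ) * v ≤ C * (2 ^ d * V) := by
      calc (#(T + T1) : ℝ) * v ≤ #T * #T1 * v := mul_le_mul_of_nonneg_right hcard hvh.le
        _ = #T * (#T1 * v) := by ring
        _ ≤ C * (2 ^ d * V) := mul_le_mul hT hT1 (by positivity) hC0.le
    have h7 : (#(T + T1) : ℝ) * v ≤ C ^ 2 * 2 ^ d * LA := by
      refine h6.trans ?_
      calc C * (2 ^ d * V) ≤ C * (2 ^ d * (C * LA)) := by
            refine mul_le_mul_of_nonneg_left ?_ hC0.le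
            exact mul_le_mul_of_nonneg_left hv (by positivity)
        _ = C ^ 2 * 2 ^ d * LA := by ring
    have h8 : ((#(T + T1) : ℝ) * v) ^ 2 ≤ C ^ 4 * 4 ^ d * LA ^ 2 := by
      calc ((#(T + T1) : ℝ) * v) ^ 2 ≤ (C ^ 2 * 2 ^ d * LA) ^ 2 :=
            pow_le_pow_left₀ (by positivity) h7 2
        _ = C ^ 4 * (2 ^ d) ^ 2 * LA ^ 2 := by ring
        _ = C ^ 4 * 4 ^ d * LA ^ 2 := by
            rw [← pow_mul, mul_comm d 2, pow_mul]
            norm_num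
    refine ⟨h, T + T1, by rw [← hve]; exact hh3, ?_, ?_, ?_⟩
    · rw [add_assoc]
      exact hA.trans (add_subset_add_left hcov)
    · rw [← hve]
      have h9 : (#(T + T1) : ℝ) ^ 2 * v = ((#(T + T1) : ℝ) * v) ^ 2 / v := by
        field_simp
      rw [h9]
      calc ((#(T + T1) : ℝ) * v) ^ 2 / v ≤ C ^ 4 * 4 ^ d * LA ^ 2 / v :=
            div_le_div_of_nonneg_right h8 hvh.le
        _ ≤ C ^ 4 * 4 ^ d * LA ^ 2 / W :=
            div_le_div_of_nonneg_left (by positivity) hW0 hWh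
        _ = C ^ 4 * 4 ^ d * (LA ^ 2 / W) := by ring
        _ ≤ C ^ 4 * 4 ^ d * (LA + LA ^ 2 / W) :=
            mul_le_mul_of_nonneg_left (by linarith) (by positivity)
    · have h9 : (#(T + T1) : ℝ) ^ 2 = ((#(T + T1) : ℝ) * v) ^ 2 / v ^ 2 := by
        field_simp
      rw [h9]
      calc ((#(T + T1) : ℝ) * v) ^ 2 / v ^ 2 ≤ C ^ 4 * 4 ^ d * LA ^ 2 / v ^ 2 :=
            div_le_div_of_nonneg_right h8 (by positivity)
        _ ≤ C ^ 4 * 4 ^ d * LA ^ 2 / W ^ 2 :=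
            div_le_div_of_nonneg_left (by positivity) (by positivity)
              (pow_le_pow_left₀ hW0.le hWh 2)
        _ = C ^ 4 * 4 ^ d * (LA ^ 2 / W ^ 2) := by ring
        _ ≤ C ^ 4 * 4 ^ d * (1 + LA ^ 2 / W ^ 2) :=
            mul_le_mul_of_nonneg_left (by linarith) (by positivity)

theorem sq_bound (x y Q v c : ℝ) (hQ : 0 ≤ Q) (hv : 0 ≤ v) (hc : 0 ≤ c) (hy : 0 ≤ y)
    (h1 : x ≤ Q * v ^ 2) (h2 : y ≤ Q * c ^ 2) : Real.sqrt (x * y) ≤ Q * v * c := by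
  refine Real.sqrt_le_iff.2 ⟨by positivity, ?_⟩
  calc x * y ≤ (Q * v ^ 2) * (Q * c ^ 2) := mul_le_mul h1 h2 hy (by positivity)
    _ = (Q * v * c) ^ 2 := by ring

/-- the final inequality -/
theorem arith (C D Q s LA LB N v : ℝ) (hC : 1 ≤ C) (hD : 1 ≤ D) (hQ3 : 3 ≤ Q)
    (hCD : C * D ≤ Q) (hs : 0 < s) (hLA : 0 ≤ LA) (hLB : 0 ≤ LB) (hBs : LB * s * Q ^ 16 ≤ 1)
    (h1 : N ^ 2 * v ≤ D * (LA + LA ^ 2 * (s * Q ^ 2)))
    (h2 : N ^ 2 ≤ D * (1 + LA ^ 2 * (s * Q ^ 2) ^ 2)) :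
    N ^ 2 * (Q * v * (C * LB) + LB ^ 2) ≤ Q ^ 16 * (LA * LB * (1 + LA * s) + LB ^ 2) := by
  have hQ0 : 0 < Q := by linarith
  have hQ1 : 1 ≤ Q := by linarith
  have hDQ : D ≤ Q := by
    have : D ≤ C * D := le_mul_of_one_le_left (by linarith) hC
    linarith
  have e1 : N ^ 2 * (Q * v * (C * LB) + LB ^ 2) =
      (N ^ 2 * v) * (Q * C * LB) + N ^ 2 * LB ^ 2 := by ring
  have e2 : (N ^ 2 * v) * (Q * C * LB) ≤ (D * (LA + LA ^ 2 * (s * Q ^ 2))) * (Q * C * LB) :=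
    mul_le_mul_of_nonneg_right h1 (by positivity)
  have e3 : N ^ 2 * LB ^ 2 ≤ (D * (1 + LA ^ 2 * (s * Q ^ 2) ^ 2)) * LB ^ 2 :=
    mul_le_mul_of_nonneg_right h2 (by positivity)
  have e4 : (D * (LA + LA ^ 2 * (s * Q ^ 2))) * (Q * C * LB) =
      (C * D) * (Q * (LA * LB) + Q ^ 3 * (LA ^ 2 * LB * s)) := by ring
  have e5 : (C * D) * (Q * (LA * LB) + Q ^ 3 * (LA ^ 2 * LB * s)) ≤
      Q * (Q * (LA * LB) + Q ^ 3 * (LA ^ 2 * LB * s)) :=
    mul_le_mul_of_nonneg_right hCD (by positivity)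
  have e6 : (D * (1 + LA ^ 2 * (s * Q ^ 2) ^ 2)) * LB ^ 2 =
      D * (LB ^ 2 + (LA ^ 2 * LB * s) * (LB * s * Q ^ 4)) := by ring
  have e7 : LB * s * Q ^ 4 ≤ 1 := by
    refine le_trans ?_ hBs
    exact mul_le_mul_of_nonneg_left (pow_le_pow_right₀ hQ1 (by norm_num)) (by positivity)
  have e8 : D * (LB ^ 2 + (LA ^ 2 * LB * s) * (LB * s * Q ^ 4)) ≤
      Q * (LB ^ 2 + (LA ^ 2 * LB * s) * 1) := by
    refine mul_le_mul hDQ ?_ (by positivity) hQ0.le
    have : (LA ^ 2 * LB * s) * (LB * s * Q ^ 4) ≤ (LA ^ 2 * LB * s) * 1 :=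
      mul_le_mul_of_nonneg_left e7 (by positivity)
    linarith
  have q2 : Q ^ 2 ≤ Q ^ 16 := pow_le_pow_right₀ hQ1 (by norm_num)
  have q1 : Q ≤ Q ^ 16 := by
    calc Q = Q ^ 1 := by ring
      _ ≤ Q ^ 16 := pow_le_pow_right₀ hQ1 (by norm_num)
  have q4 : Q ^ 4 + Q ≤ Q ^ 16 := by
    have h5 : Q ^ 5 ≤ Q ^ 16 := pow_le_pow_right₀ hQ1 (by norm_num)
    have h6 : Q ^ 4 * 3 ≤ Q ^ 4 * Q := mul_le_mul_of_nonneg_left hQ3 (by positivity)
    have h7 : Q ≤ Q ^ 4 := by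
      calc Q = Q ^ 1 := by ring
        _ ≤ Q ^ 4 := pow_le_pow_right₀ hQ1 (by norm_num)
    have h8 : Q ^ 5 = Q ^ 4 * Q := by ring
    have h9 : 0 < Q ^ 4 := by positivity
    linarith
  have f1 : Q ^ 2 * (LA * LB) ≤ Q ^ 16 * (LA * LB) :=
    mul_le_mul_of_nonneg_right q2 (by positivity)
  have f2 : (Q ^ 4 + Q) * (LA ^ 2 * LB * s) ≤ Q ^ 16 * (LA ^ 2 * LB * s) :=
    mul_le_mul_of_nonneg_right q4 (by positivity)
  have f3 : Q * LB ^ 2 ≤ Q ^ 16 * LB ^ 2 := mul_le_mul_of_nonneg_right q1 (by positivity)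
  have f4 : Q ^ 16 * (LA * LB * (1 + LA * s) + LB ^ 2) =
      Q ^ 16 * (LA * LB) + Q ^ 16 * (LA ^ 2 * LB * s) + Q ^ 16 * LB ^ 2 := by ring
  have f5 : Q * (Q * (LA * LB) + Q ^ 3 * (LA ^ 2 * LB * s)) + Q * (LB ^ 2 + (LA ^ 2 * LB * s) * 1) =
      Q ^ 2 * (LA * LB) + (Q ^ 4 + Q) * (LA ^ 2 * LB * s) + Q * LB ^ 2 := by ring
  linarith

end ENM

open ENM

theorem specENM (hF : SpecFRB) (hW : SpecWIN) (hE : SpecENG) (hM : SpecMECS) : SpecENM := by
  intro K ε hε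
  obtain ⟨ε0, hε0⟩ : ∃ ε0 : ℝ, ε0 = min ε 1 := ⟨_, rfl⟩
  have hε0p : 0 < ε0 := by rw [hε0]; exact lt_min hε one_pos
  have hε01 : ε0 ≤ 1 := by rw [hε0]; exact min_le_right _ _
  have hε0ε : ε0 ≤ ε := by rw [hε0]; exact min_le_left _ _
  obtain ⟨η, hη⟩ : ∃ η : ℝ, η = ε0 / 16 := ⟨_, rfl⟩
  have hη0 : 0 < η := by rw [hη]; positivity
  obtain ⟨d, C, hC, hFr⟩ := hF K
  have hC0 : 0 < C := by linarith
  obtain ⟨P1, hP1⟩ := engT hE ⌊C⌋₊ d η hη0
  obtain ⟨P2, hP2⟩ := engT hE 1 d η hη0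
  obtain ⟨M, hM0⟩ : ∃ M : ℝ, M = 3 + C + C * (C ^ 4 * 4 ^ d) := ⟨_, rfl⟩
  have hM3 : 3 ≤ M := by
    rw [hM0]
    have : 0 ≤ C * (C ^ 4 * 4 ^ d) := by positivity
    linarith
  refine ⟨max (max P1 P2) (⌈M ^ (1 / η)⌉₊ + 2), ?_⟩
  intro p _ hp A B hAn hBn hA hB hA34 hB12
  have hp1' : P1 ≤ p := ((le_max_left _ _).trans (le_max_left _ _)).trans hp
  have hp2' : P2 ≤ p := ((le_max_right _ _).trans (le_max_left _ _)).trans hp
  have hp3 : ⌈M ^ (1 / η)⌉₊ + 2 ≤ p := (le_max_right _ _).trans hp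
  have hp1 : (1 : ℝ) ≤ p := by
    have : 1 ≤ p := by omega
    exact_mod_cast this
  have hp0 : (0 : ℝ) < p := by linarith
  obtain ⟨Q, hQ⟩ : ∃ Q : ℝ, Q = (p : ℝ) ^ η := ⟨_, rfl⟩
  have hQM : M ≤ Q := by
    have h6 : M ^ (1 / η) ≤ p := by
      refine (Nat.le_ceil _).trans ?_
      have : ⌈M ^ (1 / η)⌉₊ ≤ p := by omega
      exact_mod_cast this
    have h7 : (M ^ (1 / η)) ^ η ≤ (p : ℝ) ^ η :=
      Real.rpow_le_rpow (by positivity) h6 hη0.le
    rw [← Real.rpow_mul (by linarith), one_div_mul_cancel hη0.ne', Real.rpow_one] at h7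
    rw [hQ]
    exact h7
  have hQ3 : 3 ≤ Q := hM3.trans hQM
  have hQ0 : 0 < Q := by linarith
  have hQC : C ≤ Q := by
    refine le_trans ?_ hQM
    rw [hM0]
    have : 0 ≤ C * (C ^ 4 * 4 ^ d) := by positivity
    linarith
  have hQD : C * (C ^ 4 * 4 ^ d) ≤ Q := by
    refine le_trans ?_ hQM
    rw [hM0]
    linarith
  obtain ⟨s, hs⟩ : ∃ s : ℝ, s = (p : ℝ) ^ (-(1 / 2) : ℝ) := ⟨_, rfl⟩
  have hs0 : 0 < s := by rw [hs]; positivity
  have hQ2 : ∀ k : ℕ, Q ^ k = (p : ℝ) ^ (k * η) := by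
    intro k
    rw [hQ, ← Real.rpow_natCast, ← Real.rpow_mul hp0.le, mul_comm]
  -- the sizes
  obtain ⟨LA, hLA⟩ : ∃ LA : ℝ, LA = #A := ⟨_, rfl⟩
  obtain ⟨LB, hLB⟩ : ∃ LB : ℝ, LB = #B := ⟨_, rfl⟩
  have hLA0 : 0 ≤ LA := by rw [hLA]; positivity
  have hLB0 : 0 ≤ LB := by rw [hLB]; positivity
  obtain ⟨bA, HA, TA, -, -, hvA, hTA, hcA⟩ := hFr p A hAn hA
  obtain ⟨bB, HB, TB, -, -, hvB, hTB, hcB⟩ := hFr p B hBn hB
  rw [← hLA] at hvA
  rw [← hLB] at hvB
  have hLBs : LB * s * Q ^ 16 ≤ 1 := by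
    have h1 : LB ≤ (p : ℝ) ^ (1 / 2 - ε0) := by
      rw [hLB]
      refine hB12.trans ?_
      exact Real.rpow_le_rpow_of_exponent_le hp1 (by linarith)
    have h2 : (p : ℝ) ^ (1 / 2 - ε0) * s * Q ^ 16 = 1 := by
      rw [hQ2, hs, ← Real.rpow_add hp0, ← Real.rpow_add hp0, hη]
      have : (1 / 2 - ε0 + -(1 / 2) + ((16 : ℕ) : ℝ) * (ε0 / 16)) = 0 := by
        push_cast
        ring
      rw [this, Real.rpow_zero]
    rw [← h2]
    refine mul_le_mul_of_nonneg_right ?_ (by positivity)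
    exact mul_le_mul_of_nonneg_right h1 hs0.le
  -- the energy of `B`
  have hvB2 : vol HB ≤ (p : ℝ) ^ (1 / 2 - η) := by
    have h1 : LB ≤ (p : ℝ) ^ (1 / 2 - ε0) := by
      rw [hLB]
      refine hB12.trans ?_
      exact Real.rpow_le_rpow_of_exponent_le hp1 (by linarith)
    calc vol HB ≤ C * LB := hvB
      _ ≤ Q * (p : ℝ) ^ (1 / 2 - ε0) := mul_le_mul hQC h1 hLB0 hQ0.le
      _ = (p : ℝ) ^ (η + (1 / 2 - ε0)) := by rw [hQ, ← Real.rpow_add hp0]
      _ ≤ (p : ℝ) ^ (1 / 2 - η) := by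
          refine Real.rpow_le_rpow_of_exponent_le hp1 ?_
          rw [hη]
          linarith
  have hMB : (ME B B : ℝ) ≤ Q * (C * LB) ^ 2 := by
    have h1 := hP1 p hp1' TB bB HB B (Nat.le_floor hTB) hvB2 hcB
    rw [← hQ] at h1
    refine h1.trans ?_
    refine mul_le_mul_of_nonneg_left ?_ hQ0.le
    exact pow_le_pow_left₀ (vol_pos HB).le hvB 2
  -- the covering of `A`
  obtain ⟨W, hWe⟩ : ∃ W : ℝ, W = (p : ℝ) ^ (1 / 2 - 2 * η) := ⟨_, rfl⟩
  have hW1 : 1 ≤ W := by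
    rw [hWe]
    refine Real.one_le_rpow hp1 ?_
    rw [hη]
    linarith
  have hW0 : 0 < W := by linarith
  have hWs : W * (s * Q ^ 2) = 1 := by
    rw [hWe, hs, hQ2, ← Real.rpow_add hp0, ← Real.rpow_add hp0]
    have : (1 / 2 - 2 * η + (-(1 / 2) + ((2 : ℕ) : ℝ) * η)) = 0 := by
      push_cast
      ring
    rw [this, Real.rpow_zero]
  have hWinv : ∀ x : ℝ, x / W = x * (s * Q ^ 2) := by
    intro x
    rw [div_eq_iff hW0.ne']
    calc x = x * (W * (s * Q ^ 2)) := by rw [hWs, mul_one]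
      _ = x * (s * Q ^ 2) * W := by ring
  obtain ⟨h, T2, hvh, hcov, hT1, hT2⟩ := cov hW bA HA TA A C W LA hC hW1 hLA0 hvA hTA hcA
  rw [hWinv] at hT1
  have hT2' : (#T2 : ℝ) ^ 2 ≤ C ^ 4 * 4 ^ d * (1 + LA ^ 2 * (s * Q ^ 2) ^ 2) := by
    have : LA ^ 2 / W ^ 2 = LA ^ 2 * (s * Q ^ 2) ^ 2 := by
      rw [pow_two W, ← div_div, hWinv, hWinv]
      ring
    rw [← this]
    exact hT2
  obtain ⟨v, hv⟩ : ∃ v : ℝ, v = vol h := ⟨_, rfl⟩
  have hv0 : 0 < v := by rw [hv]; exact vol_pos h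
  have hvp : vol h ≤ (p : ℝ) ^ (1 / 2 - η) := by
    calc vol h ≤ 3 * W := hvh
      _ ≤ Q * W := mul_le_mul_of_nonneg_right hQ3 hW0.le
      _ = (p : ℝ) ^ (η + (1 / 2 - 2 * η)) := by rw [hQ, hWe, ← Real.rpow_add hp0]
      _ = (p : ℝ) ^ (1 / 2 - η) := by
          congr 1
          ring
  have hpiece : ∀ t ∈ T2, (ME ({t} + Bx bA h) B : ℝ) ≤ Q * v * (C * LB) + LB ^ 2 := by
    intro t _
    have h1 := hP2 p hp2' {t} bA h ({t} + Bx bA h) (by simp) hvp subset_rfl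
    rw [← hQ, ← hv] at h1
    have h2 := (hM p ({t} + Bx bA h) B).1
    rw [← hLB] at h2
    refine h2.trans ?_
    have h3 : Real.sqrt (ME ({t} + Bx bA h) ({t} + Bx bA h) * ME B B) ≤ Q * v * (C * LB) :=
      sq_bound _ _ Q v (C * LB) hQ0.le hv0.le (mul_nonneg hC0.le hLB0) (Nat.cast_nonneg _) h1 hMB
    linarith
  have hun := (hM p A B).2.2 T2 (fun t => {t} + Bx bA h) (by
    intro x hx
    obtain ⟨t, ht, z, hz, rfl⟩ := mem_add.1 (hcov hx)
    exact mem_biUnion.2 ⟨t, ht, add_mem_add (mem_singleton_self t) hz⟩)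
  have hun2 : (ME A B : ℝ) ≤ (#T2 : ℝ) ^ 2 * (Q * v * (C * LB) + LB ^ 2) := by
    have h1 : (ME A B : ℝ) ≤ #T2 * ∑ t ∈ T2, (ME ({t} + Bx bA h) B : ℝ) := by exact_mod_cast hun
    refine h1.trans ?_
    have h2 : ∑ t ∈ T2, (ME ({t} + Bx bA h) B : ℝ) ≤ #T2 * (Q * v * (C * LB) + LB ^ 2) := by
      refine (sum_le_sum hpiece).trans ?_
      rw [sum_const, nsmul_eq_mul]
    rw [pow_two, mul_assoc]
    exact mul_le_mul_of_nonneg_left h2 (Nat.cast_nonneg _)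
  have h4d : (1 : ℝ) ≤ C ^ 4 * 4 ^ d := one_le_mul_of_one_le_of_one_le
    (one_le_pow₀ hC) (one_le_pow₀ (by norm_num))
  rw [← hv] at hT1
  have hfin := arith C (C ^ 4 * 4 ^ d) Q s LA LB #T2 v hC h4d hQ3 hQD hs0 hLA0 hLB0 hLBs hT1 hT2'
  refine (hun2.trans hfin).trans ?_
  rw [← hLA, ← hLB, ← hs]
  refine mul_le_mul_of_nonneg_right ?_ (by positivity)
  rw [hQ2]
  refine Real.rpow_le_rpow_of_exponent_le hp1 ?_
  rw [hη]
  push_cast
  linarith

end MPcb27.TU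
end

section
/-!
# MP_cb27ba_nt, project TU: module FRB

Sets of bounded doubling are covered by few translates of an injective box.
-/
set_option autoImplicit false

namespace MPcb27.TU

open Finset
open scoped Pointwise

/-- **FRB** -/
theorem specFRB (hFr : SpecFr) : SpecFRB := by
  classical
  intro K
  set K' : ℝ := max K 1 with hK'
  have hK1 : 1 ≤ K' := le_max_right _ _
  obtain ⟨d, C0, hF⟩ := hFr K'
  set C1 : ℝ := max C0 1 with hC1
  have hC11 : 1 ≤ C1 := le_max_right _ _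
  set C : ℝ := K' ^ 5 * C1 * 4 ^ d with hC
  have hK5 : (1 : ℝ) ≤ K' ^ 5 := one_le_pow₀ hK1
  have h4d : (1 : ℝ) ≤ 4 ^ d := one_le_pow₀ (by norm_num)
  have hCC1 : C1 ≤ C := by
    rw [hC]
    calc C1 = 1 * C1 * 1 := by ring
      _ ≤ K' ^ 5 * C1 * 4 ^ d := by gcongr
  have hCK : K' ^ 5 ≤ C := by
    rw [hC]
    calc K' ^ 5 = K' ^ 5 * 1 * 1 := by ring
      _ ≤ K' ^ 5 * C1 * 4 ^ d := by gcongr
  refine ⟨d, C, hC11.trans hCC1, ?_⟩
  intro p _ A hA hAA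
  have hApos : (0 : ℝ) < #A := by exact_mod_cast hA.card_pos
  have hAA' : (#(A + A) : ℝ) ≤ K' * #A :=
    hAA.trans (mul_le_mul_of_nonneg_right (le_max_left _ _) hApos.le)
  obtain ⟨b, H, hH1, hH2, hH3⟩ := hF p A hA hAA'
  have hInj : Inj b H := hH2
  obtain ⟨-, hcardB, -, hadd, hneg⟩ := specBOX p d b H H
  have hcard : (#(Bx b H) : ℝ) = vol H := hcardB hInj
  have hvol : 0 < vol H := vol_pos H
  have hne : (Bx b H).Nonempty := by
    rw [← card_pos]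
    have : (0 : ℝ) < #(Bx b H) := by rw [hcard]; exact hvol
    exact_mod_cast this
  have hPA : ∀ x ∈ Bx b H, ∃ a₁ ∈ A, ∃ a₂ ∈ A, ∃ a₃ ∈ A, ∃ a₄ ∈ A, x = a₁ + a₂ - a₃ - a₄ := by
    intro x hx
    obtain ⟨n, hn, rfl⟩ := mem_Bx.mp hx
    exact hH1 n hn
  have hAP : (#(A + Bx b H) : ℝ) ≤ K' ^ 5 * #A := Fin'.card_add_le A (Bx b H) hA K' hAA' hPA
  have hvolA : vol H ≤ K' ^ 5 * #A := by
    rw [← hcard]
    refine le_trans ?_ hAP
    exact_mod_cast card_le_card_add_left (s := A) (t := Bx b H) hA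
  obtain ⟨F, hF1, hF2, hF3⟩ := ruzsa_covering_add (A := A) (B := Bx b H)
    (K := K' ^ 5 * #A / #(Bx b H)) hne (by
      rw [div_mul_cancel₀ _ (by rw [hcard]; exact hvol.ne')]; exact hAP)
  set T : Finset (ZMod p) := F + (bx fun _ : Fin d => 4).image (cor b H (fun i => H i + H i)) with hT
  refine ⟨b, H, T, hInj, ?_, ?_, ?_, ?_⟩
  · calc (#A : ℝ) ≤ C0 * vol H := hH3
      _ ≤ C * vol H := by
        apply mul_le_mul_of_nonneg_right _ hvol.le
        exact (le_max_left _ _).trans hCC1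
  · exact hvolA.trans (mul_le_mul_of_nonneg_right hCK hApos.le)
  · have h1 : (#T : ℝ) ≤ #F * 4 ^ d := by
      have h2 : #T ≤ #F * #((bx fun _ : Fin d => 4).image (cor b H (fun i => H i + H i))) := card_add_le
      have h3 : #((bx fun _ : Fin d => 4).image (cor b H (fun i => H i + H i))) ≤ 4 ^ d := by
        refine card_image_le.trans ?_
        rw [card_bx]
      have h4 : #T ≤ #F * 4 ^ d := h2.trans (Nat.mul_le_mul_left _ h3)
      exact_mod_cast h4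
    have h5 : (#F : ℝ) ≤ K' ^ 5 * C1 := by
      refine hF2.trans ?_
      rw [hcard, div_le_iff₀ hvol]
      have h6 : (#A : ℝ) ≤ C1 * vol H :=
        hH3.trans (mul_le_mul_of_nonneg_right (le_max_left _ _) hvol.le)
      calc K' ^ 5 * (#A : ℝ) ≤ K' ^ 5 * (C1 * vol H) := by gcongr
        _ = K' ^ 5 * C1 * vol H := by ring
    calc (#T : ℝ) ≤ #F * 4 ^ d := h1
      _ ≤ (K' ^ 5 * C1) * 4 ^ d := by gcongr
      _ = C := by rw [hC]
  · intro a ha
    obtain ⟨f, hf, z, hz, rfl⟩ := mem_add.mp (hF3 ha)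
    have hz2 : z ∈ Bx b (fun i => H i + H i) := by
      rw [← hadd]
      rw [sub_eq_add_neg, hneg] at hz
      exact hz
    obtain ⟨k, hk, u, hu, rfl⟩ := cover b H (fun i => H i + H i) 4 (fun i => by omega) hz2
    rw [hT, ← add_assoc]
    exact add_mem_add (add_mem_add hf (mem_image_of_mem _ hk)) (qb_subset b H hu)

end MPcb27.TU
end
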