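import Pool.Agent.Lib.MP_cb27ba_nt.TU.Spec2
import Pool.Agent.Lib.MP_cb27ba_nt.BD.Det
import Pool.Agent.Lib.MP_cb27ba_nt.OP.W

/-!
# MP_cb27ba_nt, project TU: module TRB (translates of a box, Toeplitz inequality, Cauchy-Schwarz)
-/

set_option autoImplicit false

namespace MPcb27.TU

open Finset
open scoped Pointwise

namespace TRB

/-- the number of translates that contain a point -/
theorem card_tr {p : ℕ} (D A : Finset (ZMod p)) {a : ZMod p} (ha : a ∈ A) :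
    #((A + D).filter fun t => t - a ∈ D) = #D := by
  refine Eq.symm (card_bij (fun x _ => a + x) ?_ ?_ ?_)
  · intro x hx
    rw [mem_filter]
    refine ⟨add_mem_add ha hx, ?_⟩
    rwa [add_sub_cancel_left]
  · intro x _ y _ h
    exact add_left_cancel h
  · intro t ht
    rw [mem_filter] at ht
    exact ⟨t - a, ht.2, by abel⟩

/-- averaging a function over translates -/
theorem avg {p : ℕ} (D A : Finset (ZMod p)) {R : Type} [CommRing R] (f : ZMod p → R) :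
    ∑ t ∈ A + D, ∑ a ∈ A.filter (fun a => t - a ∈ D), f a = (#D : R) * ∑ a ∈ A, f a := by
  simp only [sum_filter]
  rw [sum_comm, mul_sum]
  refine sum_congr rfl fun a ha => ?_
  rw [← sum_filter, sum_const, card_tr D A ha, nsmul_eq_mul]

theorem avg2 {p : ℕ} (D A B : Finset (ZMod p)) {R : Type} [CommRing R]
    (f : ZMod p → ZMod p → R) :
    ∑ q ∈ (A + D) ×ˢ (B + D),
      ∑ a ∈ A.filter (fun a => q.1 - a ∈ D), ∑ b ∈ B.filter (fun b => q.2 - b ∈ D), f a b =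
      (#D : R) ^ 2 * ∑ a ∈ A, ∑ b ∈ B, f a b := by
  rw [sum_product]
  have h1 : ∀ t : ZMod p, ∑ s ∈ B + D, ∑ a ∈ A.filter (fun a => t - a ∈ D),
        ∑ b ∈ B.filter (fun b => s - b ∈ D), f a b =
      ∑ a ∈ A.filter (fun a => t - a ∈ D), (#D : R) * ∑ b ∈ B, f a b := by
    intro t
    rw [sum_comm]
    exact sum_congr rfl fun a _ => avg D B (f a)
  have h2 : ∑ t ∈ A + D, ∑ s ∈ B + D, ∑ a ∈ A.filter (fun a => t - a ∈ D),
          ∑ b ∈ B.filter (fun b => s - b ∈ D), f a b =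
      ∑ t ∈ A + D, ∑ a ∈ A.filter (fun a => t - a ∈ D), (#D : R) * ∑ b ∈ B, f a b :=
    sum_congr rfl fun t _ => h1 t
  refine h2.trans ?_
  rw [avg D A fun a => (#D : R) * ∑ b ∈ B, f a b, ← mul_sum]
  ring

theorem lin_sub {p e : ℕ} (c : Fin e → ZMod p) (n J : Fin e → ℕ) :
    lin c (fun i => (n i : ℤ) - J i) = linN c n - linN c J := by
  unfold lin linN
  rw [← sum_sub_distrib]
  refine sum_congr rfl fun i _ => ?_
  push_cast
  ring

/-- injectivity on the box of twice the size -/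
theorem inj2 {p e : ℕ} {c : Fin e → ZMod p} {J : Fin e → ℕ} (hI : Inj c J) :
    Set.InjOn (linN c) ((bx fun i => 2 * J i + 1 : Finset (Fin e → ℕ)) : Set (Fin e → ℕ)) := by
  intro m hm n hn h
  rw [mem_coe, Tile.mem_bx] at hm hn
  have h1 := hI (fun i => (m i : ℤ) - J i) (fun i => (n i : ℤ) - J i) (fun i => ?_)
    (fun i => ?_) ?_
  · funext i
    have h2 : (m i : ℤ) - J i = (n i : ℤ) - J i := congrFun h1 i
    omega
  · have := hm i
    rw [abs_le]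
    constructor <;> omega
  · have := hn i
    rw [abs_le]
    constructor <;> omega
  · rw [lin_sub, lin_sub, h]

theorem card_qb {p e : ℕ} {c : Fin e → ZMod p} {J : Fin e → ℕ} (hI : Inj c J) :
    #(qb c J) = ∏ i, (J i + 1) := by
  unfold qb
  rw [card_image_of_injOn, Tile.card_bx]
  refine (inj2 hI).mono ?_
  rw [coe_subset]
  exact Tile.bx_mono fun i => by omega

/-- differences of two points of the box -/
theorem diff_mem {p e : ℕ} {c : Fin e → ZMod p} {J : Fin e → ℕ} {t s a b : ZMod p}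
    (ha : t - a ∈ qb c J) (hb : s - b ∈ qb c J) :
    ∃ n ∈ bx (fun i => 2 * J i + 1), a - b = (t - s + -linN c J) + linN c n := by
  unfold qb at ha hb
  rw [mem_image] at ha hb
  obtain ⟨x, hx, hx'⟩ := ha
  obtain ⟨y, hy, hy'⟩ := hb
  rw [Tile.mem_bx] at hx hy
  refine ⟨fun i => J i + y i - x i, ?_, ?_⟩
  · rw [Tile.mem_bx]
    intro i
    have h1 := hx i
    have h2 := hy i
    omega
  · have e1 : linN c (fun i => J i + y i - x i) = linN c J + linN c y - linN c x := by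
      unfold linN
      rw [← sum_add_distrib, ← sum_sub_distrib]
      refine sum_congr rfl fun i _ => ?_
      have h1 := hx i
      rw [Nat.cast_sub (by omega), Nat.cast_add]
      ring
    rw [e1, hx', hy']
    ring

/-- the norm of a block -/
theorem block {p e : ℕ} [Fact p.Prime] {v : Fin e → ZMod p} {M : Fin e → ℕ}
    (hM : Set.InjOn (linN v) ((bx M : Finset (Fin e → ℕ)) : Set (Fin e → ℕ)))
    (χ : MulChar (ZMod p) ℂ) (c : ZMod p)
    (F : ℝ) (hF : ∀ ψ : AddChar (ZMod p) ℂ,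
      ‖∑ n ∈ bx M, χ (c + linN v n) * ψ (linN v n)‖ ≤ F)
    (A B : Finset (ZMod p)) (hAB : ∀ a ∈ A, ∀ b ∈ B, ∃ n ∈ bx M, a - b = c + linN v n)
    (α β : ZMod p → ℂ) :
    ‖∑ a ∈ A, ∑ b ∈ B, α a * β b * χ (a - b)‖ ≤
      F * (Real.sqrt (∑ a ∈ A, ‖α a‖ ^ 2) * Real.sqrt (∑ b ∈ B, ‖β b‖ ^ 2)) := by
  classical
  set J : Finset (ZMod p) := (bx M).image fun n => c + linN v n with hJ
  have h1 := OP.four_w (fun x => if x ∈ J then χ x else 0) F ?_ A B α β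
  · refine le_trans (le_of_eq ?_) h1
    congr 1
    refine sum_congr rfl fun a ha => sum_congr rfl fun b hb => ?_
    obtain ⟨n, hn, hn'⟩ := hAB a ha b hb
    have hm : a - b ∈ J := by
      rw [hJ, mem_image]
      exact ⟨n, hn, hn'.symm⟩
    rw [if_pos hm]
  · intro ψ
    have e1 : ∑ x, (if x ∈ J then χ x else 0) * ψ x =
        ψ c * ∑ n ∈ bx M, χ (c + linN v n) * ψ (linN v n) := by
      have e2 : ∀ x : ZMod p, (if x ∈ J then χ x else 0) * ψ x =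
          if x ∈ J then χ x * ψ x else 0 := by
        intro x
        split_ifs
        · rfl
        · rw [zero_mul]
      simp only [e2]
      rw [← sum_filter, filter_mem_eq_inter, univ_inter, hJ, sum_image, mul_sum]
      · refine sum_congr rfl fun n _ => ?_
        rw [AddChar.map_add_eq_mul]
        ring
      · intro m hm n hn h
        exact hM hm hn (add_left_cancel h)
    rw [e1, norm_mul]
    have e3 : ‖ψ c‖ = 1 := by
      exact AddChar.norm_apply ψ c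
    rw [e3, one_mul]
    exact hF ψ

end TRB

theorem specTRB : SpecTRB := by
  intro p _ e c J hI A B α β χ
  have hex : ∀ q : ZMod p × ZMod p, ∃ ψ₀ : AddChar (ZMod p) ℂ, ∀ ψ : AddChar (ZMod p) ℂ,
      ‖∑ n ∈ bx (fun i => 2 * J i + 1), χ ((q.1 - q.2 + -linN c J) + linN c n) *
        ψ (linN c n)‖ ≤
      ‖∑ n ∈ bx (fun i => 2 * J i + 1), χ ((q.1 - q.2 + -linN c J) + linN c n) *
        ψ₀ (linN c n)‖ := by
    intro q
    exact Finite.exists_max fun ψ : AddChar (ZMod p) ℂ =>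
      ‖∑ n ∈ bx (fun i => 2 * J i + 1), χ ((q.1 - q.2 + -linN c J) + linN c n) *
        ψ (linN c n)‖
  choose ψ hψ using hex
  refine ⟨ψ, ?_⟩
  set D : Finset (ZMod p) := qb c J with hD
  set F : ZMod p × ZMod p → ℝ := fun q =>
    ‖∑ n ∈ bx (fun i => 2 * J i + 1), χ ((q.1 - q.2 + -linN c J) + linN c n) *
      ψ q (linN c n)‖ with hF
  have hG : (∏ i, ((J i : ℝ) + 1)) = (#D : ℝ) := by
    rw [hD, TRB.card_qb hI]
    push_cast
    rfl
  rw [hG]
  set Q : Finset (ZMod p × ZMod p) := (A + D) ×ˢ (B + D) with hQ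
  set a2 : ZMod p × ZMod p → ℝ := fun q =>
    ∑ a ∈ A.filter (fun a => q.1 - a ∈ D), ‖α a‖ ^ 2 with ha2
  set b2 : ZMod p × ZMod p → ℝ := fun q =>
    ∑ b ∈ B.filter (fun b => q.2 - b ∈ D), ‖β b‖ ^ 2 with hb2
  have ha0 : ∀ q, 0 ≤ a2 q := fun q => sum_nonneg fun _ _ => by positivity
  have hb0 : ∀ q, 0 ≤ b2 q := fun q => sum_nonneg fun _ _ => by positivity
  -- the identity and the block bounds
  have h1 : (#D : ℝ) ^ 2 * ‖∑ a ∈ A, ∑ b ∈ B, α a * β b * χ (a - b)‖ ≤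
      ∑ q ∈ Q, F q * (Real.sqrt (a2 q) * Real.sqrt (b2 q)) := by
    have e1 : (#D : ℝ) ^ 2 * ‖∑ a ∈ A, ∑ b ∈ B, α a * β b * χ (a - b)‖ =
        ‖(#D : ℂ) ^ 2 * ∑ a ∈ A, ∑ b ∈ B, α a * β b * χ (a - b)‖ := by
      rw [norm_mul, norm_pow, Complex.norm_natCast]
    rw [e1, ← TRB.avg2 D A B fun a b => α a * β b * χ (a - b)]
    refine (norm_sum_le _ _).trans (sum_le_sum fun q _ => ?_)
    refine TRB.block (TRB.inj2 hI) χ (q.1 - q.2 + -linN c J) (F q) (hψ q) _ _ ?_ α β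
    intro a ha b hb
    exact TRB.diff_mem (mem_filter.1 ha).2 (mem_filter.1 hb).2
  -- Cauchy-Schwarz
  have h2 : (∑ q ∈ Q, F q * (Real.sqrt (a2 q) * Real.sqrt (b2 q))) ^ 2 ≤
      (∑ q ∈ Q, F q ^ 2) * ∑ q ∈ Q, (Real.sqrt (a2 q) * Real.sqrt (b2 q)) ^ 2 :=
    sum_mul_sq_le_sq_mul_sq _ _ _
  have h3 : ∑ q ∈ Q, (Real.sqrt (a2 q) * Real.sqrt (b2 q)) ^ 2 =
      (#D : ℝ) ^ 2 * ((∑ a ∈ A, ‖α a‖ ^ 2) * ∑ b ∈ B, ‖β b‖ ^ 2) := by
    have e2 : ∀ q ∈ Q, (Real.sqrt (a2 q) * Real.sqrt (b2 q)) ^ 2 =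
        ∑ a ∈ A.filter (fun a => q.1 - a ∈ D),
          ∑ b ∈ B.filter (fun b => q.2 - b ∈ D), ‖α a‖ ^ 2 * ‖β b‖ ^ 2 := by
      intro q _
      rw [mul_pow, Real.sq_sqrt (ha0 q), Real.sq_sqrt (hb0 q), ha2, hb2, sum_mul_sum]
    rw [sum_congr rfl e2, hQ, TRB.avg2 D A B fun a b => ‖α a‖ ^ 2 * ‖β b‖ ^ 2, sum_mul_sum]
  rw [h3] at h2
  set S : ℝ := ‖∑ a ∈ A, ∑ b ∈ B, α a * β b * χ (a - b)‖ with hS
  have hS0 : 0 ≤ S := norm_nonneg _
  have h4 : ((#D : ℝ) ^ 2 * S) ^ 2 ≤ (∑ q ∈ Q, F q ^ 2) *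
      ((#D : ℝ) ^ 2 * ((∑ a ∈ A, ‖α a‖ ^ 2) * ∑ b ∈ B, ‖β b‖ ^ 2)) := by
    refine le_trans ?_ h2
    exact pow_le_pow_left₀ (by positivity) h1 2
  have hHpos : (0 : ℝ) < (#D : ℝ) ^ 2 := by
    have : (0 : ℝ) < #D := by
      rw [← hG]
      positivity
    positivity
  refine le_of_mul_le_mul_left ?_ hHpos
  calc (#D : ℝ) ^ 2 * ((#D : ℝ) ^ 2 * S ^ 2) = ((#D : ℝ) ^ 2 * S) ^ 2 := by ring
    _ ≤ _ := h4
    _ = (#D : ℝ) ^ 2 * ((∑ q ∈ Q, F q ^ 2) *
        ((∑ a ∈ A, ‖α a‖ ^ 2) * ∑ b ∈ B, ‖β b‖ ^ 2)) := by ring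

end MPcb27.TU
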