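import Pool.Agent.Lib.MP_cb27ba_nt.TU.Spec2

section
/-! # Module GRP: two inequalities in a group -/
set_option autoImplicit false

namespace MPcb27.TU

open Finset
open scoped Pointwise

theorem specGRP : SpecGRP := by
  classical
  intro p A B
  -- a choice of representations of the differences
  have hch : ∀ s : ZMod p, ∃ q : ZMod p × ZMod p, s ∈ A - B → q.1 ∈ A ∧ q.2 ∈ B ∧ q.1 - q.2 = s := by
    intro s
    by_cases hs : s ∈ A - B
    · obtain ⟨a, ha, b, hb, h⟩ := Finset.mem_sub.mp hs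
      exact ⟨(a, b), fun _ => ⟨ha, hb, h⟩⟩
    · exact ⟨(0, 0), fun h => absurd h hs⟩
  choose f hf using hch
  refine ⟨?_, ?_, ?_⟩
  · rw [← card_product, ← card_product]
    refine card_le_card_of_injOn (fun q => ((f q.2).1 + q.1, (f q.2).2 + q.1)) ?_ ?_
    · rintro ⟨z, s⟩ hq
      simp only [coe_product, Set.mem_prod, mem_coe, mem_inter] at hq ⊢
      obtain ⟨⟨hz1, hz2⟩, hs⟩ := hq
      obtain ⟨h1, h2, h3⟩ := hf s hs
      obtain ⟨a, ha, a', ha', hz⟩ := mem_sub.mp hz1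
      obtain ⟨b, hb, b', hb', hz'⟩ := mem_sub.mp hz2
      refine ⟨?_, ?_⟩
      · rw [← hz, ← add_sub_assoc]
        exact sub_mem_sub (add_mem_add h1 ha) ha'
      · rw [← hz', ← add_sub_assoc]
        exact sub_mem_sub (add_mem_add h2 hb) hb'
    · rintro ⟨z, s⟩ hq ⟨z', s'⟩ hq' h
      simp only [coe_product, Set.mem_prod, mem_coe] at hq hq'
      simp only [Prod.mk.injEq] at h
      obtain ⟨h1, h2, h3⟩ := hf s hq.2
      obtain ⟨h1', h2', h3'⟩ := hf s' hq'.2
      have hs : s = s' := by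
        rw [← h3, ← h3']
        linear_combination h.1 - h.2
      subst hs
      have hz : z = z' := by
        have := h.1
        exact add_left_cancel this
      rw [hz]
  · unfold addEnergy
    rw [← card_product, ← card_product]
    refine card_le_card_of_injOn (fun x => ((x.1.1, x.2.1), x.1.1 - x.1.2)) ?_ ?_
    · rintro ⟨⟨a, a'⟩, ⟨b, b'⟩⟩ hx
      simp only [coe_filter, mem_product, Set.mem_ofPred_eq] at hx
      simp only [coe_product, Set.mem_prod, mem_coe, mem_inter]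
      obtain ⟨⟨⟨ha, ha'⟩, hb, hb'⟩, h⟩ := hx
      refine ⟨⟨ha, hb⟩, sub_mem_sub ha ha', ?_⟩
      have : a - a' = b' - b := by linear_combination h
      rw [this]
      exact sub_mem_sub hb' hb
    · rintro ⟨⟨a, a'⟩, ⟨b, b'⟩⟩ hx ⟨⟨c, c'⟩, ⟨d, d'⟩⟩ hy h
      simp only [coe_filter, mem_product, Set.mem_ofPred_eq] at hx hy
      simp only [Prod.mk.injEq] at h ⊢
      obtain ⟨⟨h1, h2⟩, h3⟩ := h
      subst h1 h2
      have h4 : a' = c' := by linear_combination -h3
      subst h4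
      have h5 : b' = d' := by linear_combination -hx.2 + hy.2
      exact ⟨⟨rfl, rfl⟩, rfl, h5⟩
  · rw [← card_product, ← card_product]
    refine card_le_card_of_injOn (fun q => (q.1 - q.2, q.1 - (f (q.1 - q.2)).1)) ?_ ?_
    · rintro ⟨a, b⟩ hq
      simp only [coe_product, Set.mem_prod, mem_coe, mem_inter] at hq ⊢
      have hs : a - b ∈ A - B := sub_mem_sub hq.1 hq.2
      obtain ⟨h1, h2, h3⟩ := hf _ hs
      refine ⟨hs, sub_mem_sub hq.1 h1, ?_⟩
      have : a - (f (a - b)).1 = b - (f (a - b)).2 := by linear_combination -h3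
      rw [this]
      exact sub_mem_sub hq.2 h2
    · rintro ⟨a, b⟩ _ ⟨a', b'⟩ _ h
      simp only [Prod.mk.injEq] at h ⊢
      obtain ⟨h1, h2⟩ := h
      rw [h1] at h2
      have h3 : a = a' := by linear_combination h2
      subst h3
      exact ⟨rfl, by linear_combination -h1⟩

end MPcb27.TU
end

section
/-!
# MP_cb27ba_nt, project TU: module MECS (multiplicative energy: Cauchy-Schwarz, unions)
-/
set_option autoImplicit false

namespace MPcb27.TU

open Finset
open scoped Pointwise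

namespace MECSM

variable {p : ℕ} [Fact p.Prime]

/-- number of representations of `μ` as `a / b` -/
def rep (A B : Finset (ZMod p)) (μ : ZMod p) : ℕ :=
  #((A ×ˢ B).filter fun q => q.2 ≠ 0 ∧ q.1 = μ * q.2)

/-- `ME A B = ∑ rep²` -/
theorem ME_eq (A B : Finset (ZMod p)) : ME A B = ∑ μ : ZMod p, rep A B μ ^ 2 := by
  unfold ME
  rw [card_eq_sum_card_fiberwise (f := fun q : (ZMod p × ZMod p) × (ZMod p × ZMod p) =>
    q.1.1 / q.1.2) (t := univ) (fun _ _ => mem_coe.2 (mem_univ _))]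
  refine sum_congr rfl fun μ _ => ?_
  rw [sq]
  unfold rep
  rw [← card_product]
  congr 1
  ext ⟨⟨a, b⟩, ⟨a', b'⟩⟩
  simp only [mem_filter, mem_product]
  constructor
  · rintro ⟨⟨⟨h1, h2⟩, hb, hb', he⟩, hμ⟩
    refine ⟨⟨h1, hb, ?_⟩, ⟨h2, hb', ?_⟩⟩
    · rw [← hμ, div_mul_cancel₀ _ hb]
    · rw [← hμ]
      field_simp
      rw [mul_comm a' b, ← he, mul_comm]
  · rintro ⟨⟨h1, hb, ha⟩, ⟨h2, hb', ha'⟩⟩
    refine ⟨⟨⟨h1, h2⟩, hb, hb', ?_⟩, ?_⟩
    · rw [ha, ha']
      ring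
    · rw [ha, mul_div_cancel_right₀ _ hb]

/-- number of representations of `μ` as `a / a'` with both nonzero -/
def rq (A : Finset (ZMod p)) (μ : ZMod p) : ℕ :=
  #((A ×ˢ A).filter fun q => q.1 ≠ 0 ∧ q.2 ≠ 0 ∧ q.1 = μ * q.2)

theorem rq_le (A : Finset (ZMod p)) (μ : ZMod p) : rq A μ ≤ rep A A μ := by
  unfold rq rep
  refine card_le_card fun q hq => ?_
  rw [mem_filter] at hq ⊢
  exact ⟨hq.1, hq.2.2⟩

/-- `ME A B ≤ #B² + ∑ rq A rq B` -/
theorem ME_le (A B : Finset (ZMod p)) :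
    ME A B ≤ #B ^ 2 + ∑ μ : ZMod p, rq A μ * rq B μ := by
  unfold ME
  rw [← card_filter_add_card_filter_not (fun q : (ZMod p × ZMod p) × (ZMod p × ZMod p) =>
    q.1.1 = 0)]
  refine add_le_add ?_ ?_
  · rw [sq, ← card_product]
    refine card_le_card_of_injOn (fun q => (q.1.2, q.2.2)) ?_ ?_
    · intro q hq
      rw [mem_coe, mem_filter, mem_filter, mem_product, mem_product, mem_product] at hq
      rw [mem_coe, mem_product]
      exact ⟨hq.1.1.1.2, hq.1.1.2.2⟩
    · intro q hq q' hq' h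
      rw [mem_coe, mem_filter, mem_filter] at hq hq'
      obtain ⟨⟨_, hb, hb', he⟩, h0⟩ := hq
      obtain ⟨⟨_, hc, hc', he'⟩, h0'⟩ := hq'
      rw [h0, mul_zero] at he
      rw [h0', mul_zero] at he'
      have z1 : q.2.1 = 0 := by
        rcases mul_eq_zero.1 he.symm with h | h
        · exact absurd h hb
        · exact h
      have z2 : q'.2.1 = 0 := by
        rcases mul_eq_zero.1 he'.symm with h | h
        · exact absurd h hc
        · exact h
      simp only [Prod.mk.injEq] at h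
      refine Prod.ext (Prod.ext ?_ h.1) (Prod.ext ?_ h.2)
      · rw [h0, h0']
      · rw [z1, z2]
  · rw [card_eq_sum_card_fiberwise (f := fun q : (ZMod p × ZMod p) × (ZMod p × ZMod p) =>
      q.1.1 / q.2.1) (t := univ) (fun _ _ => mem_coe.2 (mem_univ _))]
    refine sum_le_sum fun μ _ => ?_
    unfold rq
    rw [← card_product]
    refine card_le_card_of_injOn (fun q => ((q.1.1, q.2.1), (q.1.2, q.2.2))) ?_ ?_
    · intro q hq
      rw [mem_coe, mem_filter, mem_filter, mem_filter, mem_product, mem_product,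
        mem_product] at hq
      obtain ⟨⟨⟨⟨⟨h1, h2⟩, h3, h4⟩, hb, hb', he⟩, h0⟩, hμ⟩ := hq
      have h5 : q.2.1 ≠ 0 := by
        intro h
        rw [h, mul_zero] at he
        rcases mul_eq_zero.1 he with h' | h'
        · exact hb' h'
        · exact h0 h'
      rw [mem_coe, mem_product, mem_filter, mem_filter, mem_product, mem_product]
      refine ⟨⟨⟨h1, h3⟩, h0, h5, ?_⟩, ⟨h2, h4⟩, hb, hb', ?_⟩
      · show q.1.1 = μ * q.2.1
        rw [← hμ, div_mul_cancel₀ _ h5]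
      · show q.1.2 = μ * q.2.2
        rw [← hμ]
        field_simp
        rw [← he]
        ring
    · intro q _ q' _ h
      simp only [Prod.mk.injEq] at h
      exact Prod.ext (Prod.ext h.1.1 h.2.1) (Prod.ext h.1.2 h.2.2)

/-- Cauchy-Schwarz -/
theorem cs (A B : Finset (ZMod p)) :
    (ME A B : ℝ) ≤ Real.sqrt (ME A A * ME B B) + (#B : ℝ) ^ 2 := by
  have h1 : (ME A B : ℝ) ≤ (#B : ℝ) ^ 2 + ∑ μ : ZMod p, (rq A μ : ℝ) * rq B μ := by
    exact_mod_cast ME_le A B
  have h2 : ∀ C : Finset (ZMod p), ∑ μ : ZMod p, (rq C μ : ℝ) ^ 2 ≤ ME C C := by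
    intro C
    rw [ME_eq]
    push_cast
    refine sum_le_sum fun μ _ => pow_le_pow_left₀ (by positivity) ?_ 2
    exact_mod_cast rq_le C μ
  have h3 : (∑ μ : ZMod p, (rq A μ : ℝ) * rq B μ) ^ 2 ≤ ME A A * ME B B := by
    refine (sum_mul_sq_le_sq_mul_sq univ _ _).trans ?_
    exact mul_le_mul (h2 A) (h2 B) (sum_nonneg fun _ _ => sq_nonneg _) (Nat.cast_nonneg _)
  have h4 : (∑ μ : ZMod p, (rq A μ : ℝ) * rq B μ) ≤ Real.sqrt (ME A A * ME B B) :=
    Real.le_sqrt_of_sq_le h3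
  linarith

omit [Fact p.Prime] in
theorem mono (A B B' : Finset (ZMod p)) (h : B ⊆ B') : ME A B ≤ ME A B' := by
  unfold ME
  exact card_le_card (filter_subset_filter _ (product_subset_product
    (product_subset_product_right h) (product_subset_product_right h)))

theorem union (A B T : Finset (ZMod p)) (f : ZMod p → Finset (ZMod p)) (h : A ⊆ T.biUnion f) :
    ME A B ≤ #T * ∑ t ∈ T, ME (f t) B := by
  rw [ME_eq]
  have h1 : ∀ μ, rep A B μ ≤ ∑ t ∈ T, rep (f t) B μ := by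
    intro μ
    unfold rep
    refine le_trans (card_le_card ?_) card_biUnion_le
    intro q hq
    rw [mem_filter, mem_product] at hq
    obtain ⟨t, ht, hqt⟩ := mem_biUnion.1 (h hq.1.1)
    rw [mem_biUnion]
    exact ⟨t, ht, by rw [mem_filter, mem_product]; exact ⟨⟨hqt, hq.1.2⟩, hq.2⟩⟩
  calc ∑ μ : ZMod p, rep A B μ ^ 2 ≤ ∑ μ : ZMod p, (∑ t ∈ T, rep (f t) B μ) ^ 2 :=
        sum_le_sum fun μ _ => Nat.pow_le_pow_left (h1 μ) 2
    _ ≤ ∑ μ : ZMod p, #T * ∑ t ∈ T, rep (f t) B μ ^ 2 := by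
        refine sum_le_sum fun μ _ => ?_
        have := sq_sum_le_card_mul_sum_sq (s := T) (f := fun t => (rep (f t) B μ : ℝ))
        exact_mod_cast this
    _ = #T * ∑ t ∈ T, ME (f t) B := by
        rw [← mul_sum, sum_comm]
        congr 1
        exact sum_congr rfl fun t _ => (ME_eq (f t) B).symm

end MECSM

/-- MECS -/
theorem specMECS : SpecMECS := by
  intro p _ A B
  exact ⟨MECSM.cs A B, fun B' h => MECSM.mono A B B' h, fun T f h => MECSM.union A B T f h⟩

end MPcb27.TU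
end

section
/-!
# MP_cb27ba_nt, project TU: two sets of bounded doubling, assembly
-/
set_option autoImplicit false

namespace MPcb27.TU

namespace PAIRKM

open Finset
open scoped Pointwise

theorem big (C c : ℝ) (hc : 0 < c) : ∃ P : ℕ, ∀ p : ℕ, P ≤ p → C ≤ (p : ℝ) ^ c := by
  have h := (tendsto_rpow_atTop hc).comp tendsto_natCast_atTop_atTop
  obtain ⟨P, hP⟩ := (h.eventually_ge_atTop C).exists_forall_of_atTop
  exact ⟨P, fun p hp => hP p hp⟩

theorem nb_mono {p : ℕ} {χ : MulChar (ZMod p) ℂ} {X Y : Finset (ZMod p)} {M M' : ℝ}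
    (h : NB χ X Y M) (hM : M ≤ M') : NB χ X Y M' := fun α β =>
  (h α β).trans (mul_le_mul_of_nonneg_right hM (by positivity))

theorem inj_mono {p d : ℕ} {b : Fin d → ZMod p} {h H : Fin d → ℕ} (hI : Inj b H)
    (hh : ∀ i, h i ≤ H i) : Inj b h := fun n n' hn hn' e =>
  hI n n' (fun i => (hn i).trans (by exact_mod_cast hh i))
    (fun i => (hn' i).trans (by exact_mod_cast hh i)) e

/-- one set: a cover by translates of one box of volume about `W` -/
theorem cover {p : ℕ} {d : ℕ} {C W : ℝ} (hC : 1 ≤ C) (hW : 1 ≤ W) (hWIN : SpecWIN)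
    {A : Finset (ZMod p)} {b : Fin d → ZMod p} {H : Fin d → ℕ} {T : Finset (ZMod p)}
    (hI : Inj b H) (h1 : (#A : ℝ) ≤ C * vol H) (h2 : vol H ≤ C * #A) (h3 : (#T : ℝ) ≤ C)
    (h4 : A ⊆ T + Bx b H) (h5 : C * W ≤ #A) :
    ∃ (h : Fin d → ℕ) (S : Finset (ZMod p)), Inj b h ∧ W ≤ vol h ∧ vol h ≤ 3 * W ∧
      (#S : ℝ) * vol h ≤ C ^ 2 * 2 ^ d * #A ∧ ∀ a ∈ A, ∃ s ∈ S, a ∈ s +ᵥ Bx b h := by
  have hWv : W ≤ vol H := by
    have : C * W ≤ C * vol H := h5.trans h1
    exact le_of_mul_le_mul_left this (by linarith)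
  obtain ⟨h, g1, g2, g3, T', g4, g5⟩ := hWIN p d b H W hW hWv
  refine ⟨h, T + T', inj_mono hI g1, g2, g3, ?_, ?_⟩
  · have e1 : (#(T + T') : ℝ) ≤ #T * #T' := by exact_mod_cast card_add_le
    have hv : 0 ≤ vol h := by linarith
    calc (#(T + T') : ℝ) * vol h ≤ (#T * #T') * vol h := mul_le_mul_of_nonneg_right e1 hv
      _ = #T * (#T' * vol h) := by ring
      _ ≤ C * (2 ^ d * vol H) := mul_le_mul h3 g4 (by positivity) (by linarith)
      _ ≤ C * (2 ^ d * (C * #A)) := by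
          refine mul_le_mul_of_nonneg_left (mul_le_mul_of_nonneg_left h2 (by positivity)) ?_
          linarith
      _ = C ^ 2 * 2 ^ d * #A := by ring
  · intro a ha
    have h6 := h4 ha
    rw [Finset.mem_add] at h6
    obtain ⟨t, ht, u, hu, rfl⟩ := h6
    have h7 := g5 hu
    rw [Finset.mem_add] at h7
    obtain ⟨t', ht', v, hv, rfl⟩ := h7
    refine ⟨t + t', Finset.add_mem_add ht ht', ?_⟩
    rw [Finset.mem_vadd_finset]
    exact ⟨v, hv, by rw [vadd_eq_add, add_assoc]⟩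

end PAIRKM

open Finset PAIRKM
open scoped Pointwise

theorem specPAIRK (hC1 : SpecCASE1) (hC2 : SpecCASE2) (hF : SpecFRB) (hW : SpecWIN)
    (hU : SpecUNI) : SpecPAIRK := by
  intro K δ hδ
  obtain ⟨d, C, hC, hFr⟩ := hF K
  set δ' : ℝ := min (δ / 2) (1 / 16) with hδ'
  have hδ'0 : 0 < δ' := lt_min (by positivity) (by norm_num)
  have hδ'1 : δ' ≤ 1 / 16 := min_le_right _ _
  have hδ'2 : δ' ≤ δ / 2 := min_le_left _ _
  obtain ⟨τ1, hτ1, P1, hP1⟩ := hC1 d δ' hδ'0 hδ'1
  obtain ⟨τ2, hτ2, P2, hP2⟩ := hC2 d δ' hδ'0 hδ'1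
  set τ := min τ1 τ2 with hτdef
  have hτ : 0 < τ := lt_min hτ1 hτ2
  obtain ⟨Q1, hQ1⟩ := big C (δ / 2) (by positivity)
  obtain ⟨Q2, hQ2⟩ := big (C ^ 2 * 2 ^ d) (τ / 2) (by positivity)
  refine ⟨τ / 2, by positivity, P1 + P2 + Q1 + Q2, ?_⟩
  intro p _ hp X Y hX hXX hY hYY χ hχ
  have hpp := (Fact.out : p.Prime)
  have hr1 : (1 : ℝ) ≤ p := by exact_mod_cast hpp.one_le
  have hr0 : (0 : ℝ) < p := by linarith
  set W : ℝ := (p : ℝ) ^ (1 / 4 + δ') with hWdef
  have hW1 : 1 ≤ W := Real.one_le_rpow hr1 (by positivity)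
  have hCW : ∀ A : Finset (ZMod p), (p : ℝ) ^ (1 / 4 + δ) < #A → C * W ≤ #A := by
    intro A hA
    calc C * W ≤ (p : ℝ) ^ (δ / 2) * (p : ℝ) ^ (1 / 4 + δ / 2) :=
          mul_le_mul (hQ1 p (by omega))
            (Real.rpow_le_rpow_of_exponent_le hr1 (by linarith)) (by linarith) (by positivity)
      _ = (p : ℝ) ^ (1 / 4 + δ) := by
          rw [← Real.rpow_add hr0]
          congr 1
          ring
      _ ≤ #A := hA.le
  have hne : ∀ A : Finset (ZMod p), (p : ℝ) ^ (1 / 4 + δ) < #A → A.Nonempty := by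
    intro A hA
    rw [← card_pos]
    have : (0 : ℝ) < #A := lt_of_le_of_lt (by positivity) hA
    exact_mod_cast this
  obtain ⟨b, H, T, i1, i2, i3, i4, i5⟩ := hFr p X (hne X hX) hXX
  obtain ⟨b', H', T', j1, j2, j3, j4, j5⟩ := hFr p Y (hne Y hY) hYY
  obtain ⟨h, S, a1, a2, a3, a4, a5⟩ := cover hC hW1 hW i1 i2 i3 i4 i5 (hCW X hX)
  obtain ⟨h', S', b1, b2, b3, b4, b5⟩ := cover hC hW1 hW j1 j2 j3 j4 j5 (hCW Y hY)
  have htwo : Two δ' b b' h h' := ⟨a1, b1, a2, a3, b2, b3⟩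
  have hv0 : 0 ≤ vol h := by linarith
  have hv0' : 0 ≤ vol h' := by linarith
  have hpair : ∀ x y : ZMod p, NB χ (x +ᵥ Bx b h) (y +ᵥ Bx b' h')
      ((p : ℝ) ^ (-τ) * Real.sqrt (vol h * vol h')) := by
    intro x y
    rcases le_total (#(Bx b (fun i => 2 * h i) ∩ Bx b' (fun i => 2 * h' i)) : ℝ)
      ((p : ℝ) ^ (δ' / 2)) with hc | hc
    · refine nb_mono (hP1 p (by omega) b b' h h' htwo hc x y χ hχ)
        (mul_le_mul_of_nonneg_right ?_ (by positivity))
      exact Real.rpow_le_rpow_of_exponent_le hr1 (neg_le_neg (min_le_left _ _))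
    · refine nb_mono (hP2 p (by omega) b b' h h' htwo hc x y χ hχ)
        (mul_le_mul_of_nonneg_right ?_ (by positivity))
      exact Real.rpow_le_rpow_of_exponent_le hr1 (neg_le_neg (min_le_right _ _))
  have hfin := hU p χ (ZMod p) (ZMod p) S S' (fun s => s +ᵥ Bx b h) (fun s => s +ᵥ Bx b' h')
    (fun _ => vol h) (fun _ => vol h') ((p : ℝ) ^ (-τ)) (by positivity) (fun _ _ => hv0)
    (fun _ _ => hv0') (fun x _ y _ => hpair x y) X Y a5 b5
  refine nb_mono hfin ?_
  rw [sum_const, sum_const, nsmul_eq_mul, nsmul_eq_mul]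
  set D : ℝ := C ^ 2 * 2 ^ d with hD
  have hD0 : 0 ≤ D := by positivity
  have hsq : Real.sqrt ((#S * vol h) * (#S' * vol h')) ≤ D * Real.sqrt ((#X : ℝ) * #Y) := by
    have e1 : (#S * vol h) * (#S' * vol h') ≤ D ^ 2 * ((#X : ℝ) * #Y) := by
      calc (#S * vol h) * (#S' * vol h') ≤ (D * #X) * (D * #Y) :=
            mul_le_mul a4 b4 (by positivity) (by positivity)
        _ = D ^ 2 * ((#X : ℝ) * #Y) := by ring
    calc _ ≤ Real.sqrt (D ^ 2 * ((#X : ℝ) * #Y)) := Real.sqrt_le_sqrt e1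
      _ = D * Real.sqrt ((#X : ℝ) * #Y) := by
          rw [Real.sqrt_mul (by positivity), Real.sqrt_sq hD0]
  have h1 : (p : ℝ) ^ (-τ) = (p : ℝ) ^ (-(τ / 2)) * (p : ℝ) ^ (-(τ / 2)) := by
    rw [← Real.rpow_add hr0]
    congr 1
    ring
  have h2 : (p : ℝ) ^ (-(τ / 2)) * D ≤ 1 := by
    rw [Real.rpow_neg hr0.le, inv_mul_le_iff₀ (by positivity)]
    linarith [hQ2 p (by omega)]
  calc (p : ℝ) ^ (-τ) * Real.sqrt ((#S * vol h) * (#S' * vol h'))
      ≤ (p : ℝ) ^ (-τ) * (D * Real.sqrt ((#X : ℝ) * #Y)) :=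
        mul_le_mul_of_nonneg_left hsq (by positivity)
    _ = (p : ℝ) ^ (-(τ / 2)) * Real.sqrt ((#X : ℝ) * #Y) * ((p : ℝ) ^ (-(τ / 2)) * D) := by
        rw [h1]; ring
    _ ≤ (p : ℝ) ^ (-(τ / 2)) * Real.sqrt ((#X : ℝ) * #Y) * 1 :=
        mul_le_mul_of_nonneg_left h2 (by positivity)
    _ = (p : ℝ) ^ (-(τ / 2)) * Real.sqrt ((#X : ℝ) * #Y) := by ring

end MPcb27.TU
end

section
/-!
# MP_cb27ba_nt, TU: WIN (sub-box of prescribed volume and a covering by its translates)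
-/
set_option autoImplicit false

namespace MPcb27.TU

open Finset
open scoped Pointwise

theorem vol_pos {d : ℕ} (H : Fin d → ℕ) : 0 < vol H := by
  unfold vol
  exact prod_pos fun i _ => by positivity

theorem win_size (d : ℕ) (H : Fin d → ℕ) (W : ℝ) (hW1 : 1 ≤ W) (hW : W ≤ vol H) :
    ∃ h : Fin d → ℕ, (∀ i, h i ≤ H i) ∧ W ≤ vol h ∧ vol h ≤ 3 * W := by
  classical
  have hex : ∃ s, ∃ h : Fin d → ℕ, (∀ i, h i ≤ H i) ∧ W ≤ vol h ∧ ∑ i, h i = s :=
    ⟨∑ i, H i, H, fun i => le_rfl, hW, rfl⟩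
  obtain ⟨h, hh, hWh, hs⟩ := Nat.find_spec hex
  refine ⟨h, hh, hWh, ?_⟩
  by_cases h0 : ∀ i, h i = 0
  · have : vol h = 1 := by
      unfold vol
      exact prod_eq_one fun i _ => by rw [h0 i]; simp
    rw [this]
    linarith
  · push Not at h0
    obtain ⟨i, hi⟩ := h0
    have hi1 : 1 ≤ h i := Nat.one_le_iff_ne_zero.2 hi
    obtain ⟨h', hh'⟩ : ∃ h' : Fin d → ℕ, h' = Function.update h i (h i - 1) := ⟨_, rfl⟩
    have hle : ∀ j, h' j ≤ H j := by
      intro j
      rw [hh']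
      by_cases hj : j = i
      · subst hj
        rw [Function.update_self]
        exact (Nat.sub_le _ _).trans (hh j)
      · rw [Function.update_of_ne hj]
        exact hh j
    have hlt : ∑ j, h' j < ∑ j, h j := by
      refine sum_lt_sum (fun j _ => ?_) ⟨i, mem_univ _, ?_⟩
      · rw [hh']
        by_cases hj : j = i
        · subst hj
          rw [Function.update_self]
          exact Nat.sub_le _ _
        · rw [Function.update_of_ne hj]
      · rw [hh', Function.update_self]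
        omega
    have hlt' : vol h' < W := by
      by_contra hc
      push Not at hc
      exact Nat.find_min hex (m := ∑ j, h' j) (by rw [← hs]; exact hlt) ⟨h', hle, hc, rfl⟩
    have hv : vol h ≤ 3 * vol h' := by
      unfold vol
      rw [← mul_prod_erase _ _ (mem_univ i), ← mul_prod_erase univ _ (mem_univ i)]
      have h3 : ∏ x ∈ univ.erase i, (2 * (h' x : ℝ) + 1) =
          ∏ x ∈ univ.erase i, (2 * (h x : ℝ) + 1) := by
        refine prod_congr rfl fun j hj => ?_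
        rw [hh', Function.update_of_ne (ne_of_mem_erase hj)]
      rw [h3, ← mul_assoc]
      refine mul_le_mul_of_nonneg_right ?_ (prod_nonneg fun j _ => by positivity)
      rw [hh', Function.update_self, Nat.cast_sub hi1]
      have : (1 : ℝ) ≤ h i := by exact_mod_cast hi1
      push_cast
      linarith
    linarith

/-- number of translates on one side -/
def nt (H h : ℕ) : ℕ := (2 * H + 1) / (2 * h + 1) + 1

theorem nt_le {H h : ℕ} (hh : h ≤ H) :
    (nt H h : ℝ) * (2 * (h : ℝ) + 1) ≤ 2 * (2 * (H : ℝ) + 1) := by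
  have h1 : nt H h * (2 * h + 1) ≤ 2 * (2 * H + 1) := by
    unfold nt
    have := Nat.div_mul_le_self (2 * H + 1) (2 * h + 1)
    rw [add_mul, one_mul]
    omega
  exact_mod_cast h1

theorem nt_cover {H h : ℕ} (n : ℤ) (hn : -(H : ℤ) ≤ n ∧ n ≤ H) :
    ∃ j < nt H h, |n - (-(H : ℤ) + h + j * (2 * h + 1))| ≤ h := by
  obtain ⟨m, hm⟩ : ∃ m : ℕ, (m : ℤ) = n + H := ⟨(n + H).toNat, by
    rw [Int.toNat_of_nonneg (by linarith)]⟩
  have hm2 : m ≤ 2 * H := by
    have : (m : ℤ) ≤ 2 * H := by rw [hm]; linarith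
    exact_mod_cast this
  refine ⟨m / (2 * h + 1), ?_, ?_⟩
  · unfold nt
    exact Nat.lt_succ_of_le (Nat.div_le_div_right (by omega))
  · have h1 := Nat.div_add_mod m (2 * h + 1)
    have h2 : m % (2 * h + 1) < 2 * h + 1 := Nat.mod_lt _ (by omega)
    have h3 : ((2 * h + 1 : ℕ) : ℤ) * ((m / (2 * h + 1) : ℕ) : ℤ) + ((m % (2 * h + 1) : ℕ) : ℤ) = m := by
      exact_mod_cast h1
    have h4 : n - (-(H : ℤ) + h + ((m / (2 * h + 1) : ℕ) : ℤ) * (2 * h + 1)) =
        ((m % (2 * h + 1) : ℕ) : ℤ) - h := by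
      push_cast at h3 ⊢
      linarith
    rw [h4, abs_le]
    have h5 : ((m % (2 * h + 1) : ℕ) : ℤ) < 2 * h + 1 := by exact_mod_cast h2
    have h6 : (0 : ℤ) ≤ ((m % (2 * h + 1) : ℕ) : ℤ) := by positivity
    constructor <;> linarith

theorem specWIN : SpecWIN := by
  intro p d b H W hW1 hW
  obtain ⟨h, hh, hW2, hW3⟩ := win_size d H W hW1 hW
  refine ⟨h, hh, hW2, hW3, ?_⟩
  refine ⟨(Fintype.piFinset fun i => range (nt (H i) (h i))).image fun j : Fin d → ℕ =>
    lin b (fun i => -(H i : ℤ) + h i + j i * (2 * h i + 1)), ?_, ?_⟩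
  · have h1 : ((#((Fintype.piFinset fun i => range (nt (H i) (h i))).image fun j : Fin d → ℕ =>
        lin b (fun i => -(H i : ℤ) + h i + j i * (2 * h i + 1))) : ℕ) : ℝ) ≤
        ∏ i, (nt (H i) (h i) : ℝ) := by
      have := card_image_le (s := Fintype.piFinset fun i => range (nt (H i) (h i)))
        (f := fun j : Fin d → ℕ => lin b (fun i => -(H i : ℤ) + h i + j i * (2 * h i + 1)))
      rw [Fintype.card_piFinset] at this
      simp only [card_range] at this
      exact_mod_cast this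
    refine (mul_le_mul_of_nonneg_right h1 (vol_pos h).le).trans ?_
    unfold vol
    rw [← prod_mul_distrib]
    have h2 : (2 : ℝ) ^ d * ∏ i, (2 * (H i : ℝ) + 1) = ∏ i, (2 * (2 * (H i : ℝ) + 1)) := by
      rw [prod_mul_distrib, prod_const, card_univ, Fintype.card_fin]
    rw [h2]
    exact prod_le_prod (fun i _ => by positivity) fun i _ => nt_le (hh i)
  · intro x hx
    simp only [Bx, mem_image, Fintype.mem_piFinset, mem_Icc] at hx
    obtain ⟨n, hn, rfl⟩ := hx
    have h3 : ∀ i, ∃ j < nt (H i) (h i), |n i - (-(H i : ℤ) + h i + j * (2 * h i + 1))| ≤ h i :=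
      fun i => nt_cover (n i) (hn i)
    choose j hj hj2 using h3
    rw [mem_add]
    refine ⟨lin b (fun i => -(H i : ℤ) + h i + j i * (2 * h i + 1)), ?_,
      lin b (fun i => n i - (-(H i : ℤ) + h i + j i * (2 * h i + 1))), ?_, ?_⟩
    · simp only [mem_image, Fintype.mem_piFinset, mem_range]
      exact ⟨j, hj, rfl⟩
    · simp only [Bx, mem_image, Fintype.mem_piFinset, mem_Icc]
      exact ⟨_, fun i => abs_le.1 (hj2 i), rfl⟩
    · unfold lin
      rw [← sum_add_distrib]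
      refine sum_congr rfl fun i _ => ?_
      push_cast
      ring

end MPcb27.TU
end
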