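import Pool.Agent.Lib.MP_cb27ba_nt.TU.Spec2
import Pool.Agent.Lib.MP_cb27ba_nt.BD.Det
import Pool.Agent.Lib.MP_cb27ba_nt.BD.All
import Pool.Agent.Lib.MP_cb27ba_nt.TS.TR3
import Pool.Agent.Lib.MP_cb27ba_nt.TS.MM
import Pool.Agent.Lib.MP_cb27ba_nt.TU.FRB
import Pool.Agent.Lib.MP_cb27ba_nt.TU.WIN
import Pool.Agent.Lib.MP_cb27ba_nt.TU.TRB
import Pool.Agent.Lib.MP_cb27ba_nt.TU.CASE1
import Pool.Agent.Lib.MP_cb27ba_nt.TU.CASE2
import Pool.Agent.Lib.MP_cb27ba_nt.TU.FINUK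

section
/-!
# MP_cb27ba_nt, project TU: module HOB (Burgess's method and Hoelder for a family of boxes)

As TG/HO2, with a box `bx M` of coefficients in place of an interval.
-/
set_option autoImplicit false

open Finset

namespace MPcb27.TU

open MPcb27.Burg

theorem specHOB (hMom : SpecMom) : SpecHOB := by
  classical
  intro r hr
  obtain ⟨C₀, hC₀⟩ := hMom r hr
  set C : ℝ := max C₀ 0 with hC
  have hC0 : 0 ≤ C := le_max_right _ _
  refine ⟨6 * C, by positivity, ?_⟩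
  intro p _ χ hχ ι S z ψ e c M X Y ε ρ hX hXp hXr hYne hne hε0 hε1 hε hρ hb
  have hpp : p.Prime := Fact.out
  have hp0 : (0 : ℝ) < p := by exact_mod_cast hpp.pos
  have hX0 : (0 : ℝ) < X := by exact_mod_cast hX
  have hYc : (0 : ℝ) < #Y := by exact_mod_cast hYne.card_pos
  set W : ℝ := ∏ i, (M i : ℝ) with hW
  have hW0' : 0 ≤ W := Finset.prod_nonneg fun i _ => Nat.cast_nonneg _
  have hcardM : ((#(bx M) : ℕ) : ℝ) = W := by
    rw [Tile.card_bx]
    push_cast
    rfl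
  have hK : 1 ≤ X ^ 2 := Nat.one_le_pow _ _ hX
  choose k hk1 hk2 using fun (i : ι) (y : ZMod p) =>
    round (X ^ 2) hK (ψ i y) (AddChar.norm_apply (ψ i) y)
  set g : ι × (Fin e → ℕ) × (Fin e → ℕ) → ZMod p × ℤ := fun q =>
    ((z q.1 + linN c q.2.1) / linN c q.2.2, k q.1 (linN c q.2.2)) with hg
  set SS : Finset (ι × (Fin e → ℕ) × (Fin e → ℕ)) := S ×ˢ bx M ×ˢ Y with hSS
  set Tt : Finset (ZMod p × ℤ) := (univ : Finset (ZMod p)) ×ˢ
    Finset.Icc (-((X ^ 2 : ℕ) : ℤ)) ((X ^ 2 : ℕ) : ℤ) with hTt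
  set Q : ℝ := ∑ q ∈ SS, WW χ X (g q) with hQ
  have hcardSS : (#SS : ℝ) = #S * W * #Y := by
    rw [hSS, card_product, card_product, ← hcardM]
    push_cast
    ring
  -- one box
  have hone : ∀ i ∈ S, (X * #Y : ℝ) * ‖∑ n ∈ bx M, χ (z i + linN c n) * ψ i (linN c n)‖ ≤
      ∑ q ∈ bx M ×ˢ Y, (WW χ X (g (i, q)) + 7) + X * #Y * (2 * (e * ε * W)) := by
    intro i _
    set F : (Fin e → ℕ) → ℂ := fun n => χ (z i + linN c n) * ψ i (linN c n) with hF
    have hF1 : ∀ n, ‖F n‖ ≤ 1 := by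
      intro n
      rw [hF, norm_mul, AddChar.norm_apply, mul_one]
      exact DirichletCharacter.norm_le_one _ _
    set Sg := ∑ n ∈ bx M, F n with hSg
    have h1 : ∀ y ∈ Y, ∀ x ∈ range X, ‖Sg - ∑ n ∈ bx M, F (fun j => n j + x * y j)‖ ≤
        2 * (e * ε * W) := by
      intro y hy x hx
      rw [mem_range] at hx
      have h2 := shift M (fun j => x * y j) hε0 hε1 (fun j => by
        refine le_trans ?_ (hε y hy j)
        push_cast
        have : (x : ℝ) ≤ X := by exact_mod_cast hx.le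
        exact mul_le_mul_of_nonneg_right this (Nat.cast_nonneg _)) F hF1
      rw [Fintype.card_fin] at h2
      exact h2
    have h2 : ‖∑ y ∈ Y, ∑ x ∈ range X, (Sg - ∑ n ∈ bx M, F (fun j => n j + x * y j))‖ ≤
        X * #Y * (2 * (e * ε * W)) := by
      refine (norm_sum_le _ _).trans ?_
      have h3 : ∀ y ∈ Y, ‖∑ x ∈ range X, (Sg - ∑ n ∈ bx M, F (fun j => n j + x * y j))‖ ≤
          X * (2 * (e * ε * W)) := by
        intro y hy
        refine (norm_sum_le _ _).trans ((sum_le_sum (h1 y hy)).trans ?_)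
        rw [sum_const, card_range, nsmul_eq_mul]
      refine (sum_le_sum h3).trans ?_
      rw [sum_const, nsmul_eq_mul]
      exact le_of_eq (by ring)
    have h4 : ∑ y ∈ Y, ∑ x ∈ range X, (Sg - ∑ n ∈ bx M, F (fun j => n j + x * y j)) =
        (X * #Y : ℂ) * Sg -
          ∑ q ∈ bx M ×ˢ Y, ∑ x ∈ range X, F (fun j => q.1 j + x * q.2 j) := by
      rw [sum_product_right]
      simp only [sum_sub_distrib, sum_const, card_range, nsmul_eq_mul]
      congr 1
      · ring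
      · refine sum_congr rfl fun m _ => ?_
        rw [sum_comm]
    have h5 : ‖∑ q ∈ bx M ×ˢ Y, ∑ x ∈ range X, F (fun j => q.1 j + x * q.2 j)‖ ≤
        ∑ q ∈ bx M ×ˢ Y, (WW χ X (g (i, q)) + 7) := by
      refine (norm_sum_le _ _).trans (sum_le_sum fun q hq => ?_)
      rw [mem_product] at hq
      have h7 := inner_bound χ (ψ i) X hX (z i) (linN c q.1) (linN c q.2) (hne _ hq.2)
        (k i (linN c q.2)) (hk2 i _)
      refine le_trans (le_of_eq ?_) h7
      congr 1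
      refine sum_congr rfl fun x _ => ?_
      simp only [hF]
      rw [Tile.linN_add, linN_smul]
    rw [h4] at h2
    have h8 : ‖(X * #Y : ℂ) * Sg‖ = (X * #Y : ℝ) * ‖Sg‖ := by
      rw [norm_mul, norm_mul, Complex.norm_natCast, Complex.norm_natCast]
    rw [← h8]
    set R := ∑ q ∈ bx M ×ˢ Y, ∑ x ∈ range X, F (fun j => q.1 j + x * q.2 j)
    calc ‖(X * #Y : ℂ) * Sg‖ = ‖((X * #Y : ℂ) * Sg - R) + R‖ := by rw [sub_add_cancel]
      _ ≤ _ := norm_add_le _ _
      _ ≤ _ := by linarith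
  have hall : (X * #Y : ℝ) * ∑ i ∈ S, ‖∑ n ∈ bx M, χ (z i + linN c n) * ψ i (linN c n)‖ ≤
      Q + 7 * (#S * W * #Y) + #S * (X * #Y * (2 * (e * ε * W))) := by
    rw [mul_sum]
    refine (sum_le_sum hone).trans ?_
    rw [sum_add_distrib, sum_const, nsmul_eq_mul, hQ, hSS, sum_product]
    have h1 : ∑ i ∈ S, ∑ q ∈ bx M ×ˢ Y, (WW χ X (g (i, q)) + 7) =
        ∑ i ∈ S, ∑ q ∈ bx M ×ˢ Y, WW χ X (g (i, q)) + 7 * (#S * W * #Y) := by
      simp only [sum_add_distrib, sum_const, card_product, nsmul_eq_mul]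
      push_cast
      rw [hcardM]
      ring
    rw [h1]
  -- Hoelder
  have hW0 : ∀ t, 0 ≤ WW χ X t := fun t => norm_nonneg _
  have hH := holder SS Tt g (fun q _ => by
    rw [hTt, mem_product]
    exact ⟨mem_univ _, hk1 _ _⟩) (WW χ X) hW0 r hr
  have hcoin : (#((SS ×ˢ SS).filter fun q => g q.1 = g q.2) : ℝ) ≤ N2B S z c M Y := by
    unfold N2B
    rw [← hSS]
    have : ((SS ×ˢ SS).filter fun q => g q.1 = g q.2) ⊆ ((SS ×ˢ SS).filter fun q =>
        linN c q.2.2.2 * (z q.1.1 + linN c q.1.2.1) =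
        linN c q.1.2.2 * (z q.2.1 + linN c q.2.2.1)) := by
      intro q hq
      rw [mem_filter] at hq ⊢
      refine ⟨hq.1, ?_⟩
      have h1 := hq.1
      rw [mem_product, hSS, mem_product, mem_product, mem_product, mem_product] at h1
      have a1 := hne _ h1.1.2.2
      have a2 := hne _ h1.2.2.2
      have h2 : (z q.1.1 + linN c q.1.2.1) / linN c q.1.2.2 =
          (z q.2.1 + linN c q.2.2.1) / linN c q.2.2.2 := (Prod.mk.injEq _ _ _ _ ▸ hq.2 : _ ∧ _).1
      rw [div_eq_div_iff a1 a2] at h2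
      rw [mul_comm, h2, mul_comm]
    exact_mod_cast card_le_card this
  have hM : ∀ (χ : MulChar (ZMod p) ℂ), χ ≠ 1 → ∀ (X : ℕ), X ≤ p → ∀ c : ℕ → ℂ, (∀ x, ‖c x‖ ≤ 1) →
      ∑ u : ZMod p, ‖∑ x ∈ range X, c x * χ (u + (x : ZMod p))‖ ^ (2 * r) ≤
        C * ((X : ℝ) ^ r * p + (X : ℝ) ^ (2 * r) * Real.sqrt p) := by
    intro χ hχ X hXp c hc
    refine (hC₀ p χ hχ X hXp c hc).trans ?_
    exact mul_le_mul_of_nonneg_right (le_max_left _ _) (by positivity)
  have hmom := moment hC0 hM χ hχ X hX hXp hXr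
  rw [← hTt] at hmom
  have hQ2 : Q ^ (2 * r) ≤ (X * ρ * #SS) ^ (2 * r) := by
    refine hH.trans ?_
    calc (#SS : ℝ) ^ (2 * (r - 1)) * (#((SS ×ˢ SS).filter fun q => g q.1 = g q.2) : ℝ) *
          ∑ t ∈ Tt, WW χ X t ^ (2 * r)
        ≤ (#SS : ℝ) ^ (2 * (r - 1)) * (N2B S z c M Y : ℝ) *
          (6 * C * (X : ℝ) ^ 2 * (X : ℝ) ^ (2 * r) * Real.sqrt p) := by
          apply mul_le_mul _ hmom (sum_nonneg fun t _ => pow_nonneg (hW0 t) _) (by positivity)
          exact mul_le_mul_of_nonneg_left hcoin (by positivity)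
      _ = (#SS : ℝ) ^ (2 * (r - 1)) * (X : ℝ) ^ (2 * r) *
          (6 * C * (N2B S z c M Y : ℝ) * (X : ℝ) ^ 2 * Real.sqrt p) := by ring
      _ ≤ (#SS : ℝ) ^ (2 * (r - 1)) * (X : ℝ) ^ (2 * r) * (ρ ^ (2 * r) * (#SS : ℝ) ^ 2) := by
          rw [hcardSS]
          apply mul_le_mul_of_nonneg_left _ (by positivity)
          exact hb
      _ = (X * ρ * #SS) ^ (2 * r) := by
          have e : 2 * r = 2 * (r - 1) + 2 := by omega
          rw [mul_pow, mul_pow]
          have e2 : (#SS : ℝ) ^ (2 * r) = (#SS : ℝ) ^ (2 * (r - 1)) * (#SS : ℝ) ^ 2 := by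
            rw [← pow_add]
            congr 1
          rw [e2]
          ring
  have hQ3 : Q ≤ X * ρ * #SS := le_of_pow_le_pow_left₀ (by omega) (by positivity) hQ2
  rw [hcardSS] at hQ3
  have hfin : (X * #Y : ℝ) * ∑ i ∈ S, ‖∑ n ∈ bx M, χ (z i + linN c n) * ψ i (linN c n)‖ ≤
      (X * #Y : ℝ) * (#S * W * (ρ + 7 / X + 2 * e * ε)) := by
    refine hall.trans ?_
    have e : (X * #Y : ℝ) * (#S * W * (ρ + 7 / X + 2 * e * ε)) =
        X * ρ * (#S * W * #Y) + 7 * (#S * W * #Y) + #S * (X * #Y * (2 * (e * ε * W))) := by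
      field_simp
    rw [e]
    linarith
  exact le_of_mul_le_mul_left hfin (by positivity)

end MPcb27.TU
end

section
/-!
# MP_cb27ba_nt, project TU: assembly of theorem U for sets of bounded doubling
-/
set_option autoImplicit false

namespace MPcb27.TU

theorem frb : SpecFRB := specFRB All.fr

theorem enm : SpecENM :=
  specENM frb specWIN (specENG (specProper specGB specDet) MPcb27.enP) specMECS

theorem pairK : SpecPAIRK :=
  specPAIRK (specCASE1 (TS.finalS (TS.finW TS.specMM TS.specOPN TS.specTR3 TS.specHOE))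
    specBOX specGRP)
    (specCASE2 specBOX specCOV specGRP specTRB (specHOB All.mom) specCNTB enm All.fr)
    frb specWIN specUNI

/-- theorem U for sets of bounded doubling -/
theorem theoremUK : FinalUK := finUK pairK specUNI

end MPcb27.TU
end
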