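import Pool.Agent.Lib.MP_cb27ba_nt.TU.Spec
import Pool.Agent.Lib.MP_cb27ba_nt.TN.Spec

/-!
# MP_cb27ba_nt, project TU (theorem U, unions): exact statements of the modules, part 3

Theorem NU: unions of near-periodic sets. Paper proof: idea row of helper11, THEOREM NU.
-/

set_option autoImplicit false

namespace MPcb27.TU

open Finset
open scoped Pointwise

/-- COVL: efficient covering by translates of a progression. `T0` maximal in `X` with the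
`t + ap 0 g N`, `t ∈ T0`, disjoint, `T = T0 - (N-1) g`. -/
def SpecCOVL : Prop :=
  ∀ (p : ℕ) [Fact p.Prime] (g : ZMod p) (N : ℕ), 1 ≤ N →
    Set.InjOn (fun n : ℕ => (n : ZMod p) * g) (Set.Iio (2 * N)) → ∀ X : Finset (ZMod p),
    ∃ T : Finset (ZMod p), #T * N ≤ #(X + ap 0 g N) ∧ #(X + ap 0 g N) ≤ 3 * (#T * N) ∧
      X ⊆ T + ap 0 g (2 * N) ∧
      ∀ z : ZMod p, #(T.filter fun t => ∃ i : ℕ, i < 2 * N ∧ t + (i : ZMod p) * g = z) ≤ 2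

/-- SPL: sparse and dense part of `D` along `R = ap 0 g n`. -/
def SpecSPL : Prop :=
  ∀ (p : ℕ) [Fact p.Prime] (g : ZMod p) (n m : ℕ), 1 ≤ n → 1 ≤ m →
    Set.InjOn (fun k : ℕ => (k : ZMod p) * g) (Set.Iio n) → ∀ D : Finset (ZMod p),
    ∃ Ds Dd : Finset (ZMod p), D = Ds ∪ Dd ∧
      (∀ z : ZMod p, #(Ds ∩ (z +ᵥ ap 0 g n)) ≤ m) ∧ #(Dd + ap 0 g n) * m ≤ 3 * n * #D

/-- P1: the pair theorem. From TG.FinalG, TS.FinalS, COVL, SPL, UNI. -/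
def SpecP1 : Prop :=
  ∀ δ : ℝ, 0 < δ → ∃ c : ℝ, 0 < c ∧ ∀ δ' : ℝ, 0 < δ' → ∃ τ : ℝ, 0 < τ ∧ ∃ P : ℕ,
    ∀ (p : ℕ) [Fact p.Prime], P ≤ p → ∀ (g : ZMod p) (N : ℕ), (p : ℝ) ^ δ ≤ N →
      Set.InjOn (fun n : ℕ => (n : ZMod p) * g) (Set.Iio N) →
      ∀ X D C : Finset (ZMod p), (p : ℝ) ^ (1 / 2 - c) ≤ #(X + ap 0 g N) →
        (p : ℝ) ^ (1 / 2 - c) ≤ #D → (p : ℝ) ^ δ' ≤ #C → ∀ χ : MulChar (ZMod p) ℂ, χ ≠ 1 →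
          NB χ X (D + C) ((p : ℝ) ^ (-τ) * Real.sqrt ((#(X + ap 0 g N) : ℝ) * (#D * #C)))

/-- EXT: a near-periodic set is nearly invariant under a progression. From TN: PIG, APF, SUM. -/
def SpecEXT : Prop :=
  ∀ δ t : ℝ, 0 < δ → 0 < t → ∃ δ₁ : ℝ, 0 < δ₁ ∧ ∃ P : ℕ, ∀ (p : ℕ) [Fact p.Prime], P ≤ p →
    ∀ X : Finset (ZMod p), X.Nonempty → (p : ℝ) ^ δ ≤ #(TN.Per X ((p : ℝ) ^ (-t))) →
      ∃ (g : ZMod p) (N : ℕ), (p : ℝ) ^ δ₁ ≤ N ∧ (N : ℝ) ≤ (p : ℝ) ^ (1 / 8 : ℝ) ∧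
        Set.InjOn (fun n : ℕ => (n : ZMod p) * g) (Set.Iio (2 * N)) ∧
        (#(X + ap 0 g N) : ℝ) ≤ 2 * #X

/-- the final theorem, from P1, EXT, COVL, UNI -/
def FinalNU : Prop :=
  ∀ δ t : ℝ, 0 < δ → 0 < t → ∃ c : ℝ, 0 < c ∧ ∃ P : ℕ, ∀ (p : ℕ) [Fact p.Prime], P ≤ p →
    ∀ F F' : Finset (Finset (ZMod p)),
      (∀ X ∈ F ∪ F', (p : ℝ) ^ (1 / 2 - c) ≤ #X ∧
        (p : ℝ) ^ δ ≤ #(TN.Per X ((p : ℝ) ^ (-t)))) →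
      ∀ A B : Finset (ZMod p), A ⊆ F.biUnion id → B ⊆ F'.biUnion id →
        ∀ χ : MulChar (ZMod p) ℂ, χ ≠ 1 →
          NB χ A B ((p : ℝ) ^ (-c) * Real.sqrt ((∑ X ∈ F, (#X : ℝ)) * ∑ X ∈ F', (#X : ℝ)))

end MPcb27.TU
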